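import Mathlib.GroupTheory.PresentedGroup
import Pool.Agent.H38.NP.Defs

/-!
Braid groups on `n` strands with the Artin generators, minimal braid words, and the decision
problems for a fixed number of strands.
-/

namespace Run7.h160.Braid

open FreeGroup in
/-- The defining relators of the braid group on `n` strands. -/
def rels (n : ℕ) : Set (FreeGroup (Fin (n - 1))) :=
  {r | ∃ i j : Fin (n - 1),
    (i.val + 2 ≤ j.val ∧ r = of i * of j * (of i)⁻¹ * (of j)⁻¹) ∨
    (i.val + 1 = j.val ∧ r = of i * of j * of i * (of j)⁻¹ * (of i)⁻¹ * (of j)⁻¹)}

/-- The braid group `B_n`. -/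
abbrev B (n : ℕ) : Type := PresentedGroup (rels n)

/-- The value in `B_n` of a letter: `(i, true)` is the generator, `(i, false)` its inverse. -/
def letter (n : ℕ) (x : Fin (n - 1) × Bool) : B n :=
  if x.2 = true then PresentedGroup.of x.1 else (PresentedGroup.of x.1)⁻¹

/-- The braid represented by a word. -/
def value (n : ℕ) (w : List (Fin (n - 1) × Bool)) : B n := (w.map (letter n)).prod

/-- A braid word is minimal if no shorter word represents the same braid. -/
def IsMinimal (n : ℕ) (w : List (Fin (n - 1) × Bool)) : Prop :=
  ∀ u : List (Fin (n - 1) × Bool), value n u = value n w → w.length ≤ u.length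

/-- The bit string coding a braid word (indices in unary, one bit for the sign). -/
def code {n : ℕ} (w : List (Fin (n - 1) × Bool)) : List Bool :=
  Pool.Agent.H38.NP.enc (w.map fun x => ((x.1.val, x.2) : ℕ × Bool))

/-- The decision problem: is a given braid word on `n` strands minimal? -/
def MIN (n : ℕ) : Set (List Bool) :=
  {x | ∃ w : List (Fin (n - 1) × Bool), code w = x ∧ IsMinimal n w}

/-- The decision problem: is a given braid word on `n` strands not minimal? -/
def NONMIN (n : ℕ) : Set (List Bool) :=
  {x | ∃ w : List (Fin (n - 1) × Bool), code w = x ∧ ¬ IsMinimal n w}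

end Run7.h160.Braid
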