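import Pool.Agent.Run7.h160.Lift
import Pool.Agent.Run7.h160.Defs

namespace Run7.h160

open Braid

/-- value of a letter in the group on four strands -/
noncomputable def gl (x : X) : B 4 := Braid.letter 4 x

theorem gl_inv (x : X) : gl (inv x) = (gl x)⁻¹ := by
  rcases x with ⟨i, b⟩
  cases b <;> simp [gl, Braid.letter, inv]

noncomputable def gv (c : List X) : B 4 := (c.reverse.map gl).prod

theorem gv_cons (x : X) (c : List X) : gv (x :: c) = gv c * gl x := by
  simp [gv]

theorem rel_one {i j : Fin 3} (h : i.val + 1 = j.val) :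
    gl (i, true) * gl (j, true) * gl (i, true) * gl (j, false) * gl (i, false) * gl (j, false) = 1 := by
  have hm : (FreeGroup.of i * FreeGroup.of j * FreeGroup.of i * (FreeGroup.of j)⁻¹ *
      (FreeGroup.of i)⁻¹ * (FreeGroup.of j)⁻¹ : FreeGroup (Fin (4 - 1))) ∈ rels 4 :=
    ⟨i, j, Or.inr ⟨h, rfl⟩⟩
  have := PresentedGroup.one_of_mem hm
  simpa [gl, Braid.letter, PresentedGroup.of] using this

theorem rel_one' {i j : Fin 3} (h : i.val + 2 ≤ j.val) :
    gl (i, true) * gl (j, true) * gl (i, false) * gl (j, false) = 1 := by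
  have hm : (FreeGroup.of i * FreeGroup.of j * (FreeGroup.of i)⁻¹ *
      (FreeGroup.of j)⁻¹ : FreeGroup (Fin (4 - 1))) ∈ rels 4 :=
    ⟨i, j, Or.inl ⟨h, rfl⟩⟩
  have := PresentedGroup.one_of_mem hm
  simpa [gl, Braid.letter, PresentedGroup.of] using this

/-- product of a word in reading order -/
noncomputable def gp (r : List X) : B 4 := (r.map gl).prod

theorem gp_append (r s : List X) : gp (r ++ s) = gp r * gp s := by simp [gp]

theorem gp_rev (r : List X) : gp (rev r) = (gp r)⁻¹ := by
  induction r with
  | nil => simp [gp, rev]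
  | cons x r ih =>
    rw [rev_cons, gp_append, ih]
    simp [gp, gl_inv]

theorem gp_rot {r : List X} (h : gp r = 1) : ∀ s ∈ rots r, gp s = 1 := by
  intro s hs
  obtain ⟨k, _, rfl⟩ := List.mem_map.1 hs
  rw [gp_append]
  have h1 : gp (r.take k) * gp (r.drop k) = 1 := by
    rw [← gp_append, List.take_append_drop, h]
  exact mul_eq_one_comm.1 h1

theorem gp_rels : ∀ r ∈ Rels, gp r = 1 := by
  have h1 : gp (relW 0 1) = 1 := by
    have := rel_one (i := 0) (j := 1) rfl
    simpa [gp, relW, mul_assoc] using this
  have h2 : gp (relW 1 2) = 1 := by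
    have := rel_one (i := 1) (j := 2) rfl
    simpa [gp, relW, mul_assoc] using this
  have h3 : gp relC = 1 := by
    have := rel_one' (i := 0) (j := 2) (le_refl _)
    simpa [gp, relC, mul_assoc] using this
  intro r hr
  simp only [Rels, Rel6, Rel4, List.mem_append] at hr
  rcases hr with (((hr | hr) | hr) | hr) | (hr | hr)
  · exact gp_rot h1 r hr
  · exact gp_rot (by rw [gp_rev, h1, inv_one]) r hr
  · exact gp_rot h2 r hr
  · exact gp_rot (by rw [gp_rev, h2, inv_one]) r hr
  · exact gp_rot h3 r hr
  · exact gp_rot (by rw [gp_rev, h3, inv_one]) r hr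

variable {A : Auto}

/-- the congruence is sound -/
theorem E.gv {c d : List X} (h : E A c d) : gv c = Run7.h160.gv d := by
  induction h with
  | refl => rfl
  | symm _ ih => exact ih.symm
  | trans _ _ ih1 ih2 => exact ih1.trans ih2
  | cons x _ ih => rw [gv_cons, gv_cons, ih]
  | rel3 s t u u' t' s' c h =>
    have := gp_rels _ (List.mem_append_left _ h)
    simp only [gp, List.map_cons, List.map_nil, List.prod_cons, List.prod_nil, gl_inv] at this
    simp only [gv_cons]
    have h2 : gl s * gl t * gl u = gl s' * gl t' * gl u' := by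
      have h3 : gl s * gl t * gl u * (gl s' * gl t' * gl u')⁻¹ = 1 := by
        rw [← this]; group
      exact mul_inv_eq_one.1 h3
    simp only [mul_assoc] at h2 ⊢
    rw [h2]
  | rel2 s t t' s' c h =>
    have := gp_rels _ (List.mem_append_right _ h)
    simp only [gp, List.map_cons, List.map_nil, List.prod_cons, List.prod_nil, gl_inv] at this
    simp only [gv_cons]
    have h2 : gl s * gl t = gl s' * gl t' := by
      have h3 : gl s * gl t * (gl s' * gl t')⁻¹ = 1 := by
        rw [← this]; group
      exact mul_inv_eq_one.1 h3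
    simp only [mul_assoc] at h2 ⊢
    rw [h2]
  | lad s x x' s' t' t c1 c3 h _ _ ih =>
    have := gp_rels _ (List.mem_append_left _ h)
    simp only [gp, List.map_cons, List.map_nil, List.prod_cons, List.prod_nil, gl_inv] at this
    simp only [gv_cons] at ih ⊢
    have h2 : gl s * gl x = gl t * (gl t')⁻¹ * gl s' * gl x' := by
      have h3 : gl s * gl x * (gl t * (gl t')⁻¹ * gl s' * gl x')⁻¹ = 1 := by
        rw [← this]; group
      exact mul_inv_eq_one.1 h3
    have h4 : Run7.h160.gv c3 = Run7.h160.gv c1 * gl t * (gl t')⁻¹ := by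
      rw [ih]; group
    rw [h4, mul_assoc, h2]
    group

/-- accepted vertices -/
def VV (A : Auto) : Type := {v : V A // v.ok}

section

variable (C : Cert1 A) (hH : ∀ N, H A N)

include C hH

theorem mv_ex (v : VV A) (x : X) : ∃ w : VV A, Mv x v.1 w.1 := by
  obtain ⟨w, hw⟩ := (hH v.1.lev).ex C v.2 le_rfl x
  exact ⟨⟨w, hw.2.1⟩, hw⟩

theorem mv_uniq {v w w' : VV A} {x : X} (h : Mv x v.1 w.1) (h' : Mv x v.1 w'.1) : w = w' :=
  Subtype.ext (H.det (hH v.1.lev).c C le_rfl h h')

/-- the move along a letter -/
noncomputable def mv (x : X) (v : VV A) : VV A := Classical.choose (mv_ex C hH v x)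

theorem mv_spec (x : X) (v : VV A) : Mv x v.1 (mv C hH x v).1 :=
  Classical.choose_spec (mv_ex C hH v x)

theorem mv_inv (x : X) (v : VV A) : mv C hH (inv x) (mv C hH x v) = v :=
  mv_uniq C hH (mv_spec C hH (inv x) _) (mv_spec C hH x v).symm

theorem mv_inv' (x : X) (v : VV A) : mv C hH x (mv C hH (inv x) v) = v := by
  have := mv_inv C hH (inv x) v
  rwa [inv_inv] at this

/-- the permutation given by a letter -/
noncomputable def pm (x : X) : Equiv.Perm (VV A) where
  toFun := mv C hH x
  invFun := mv C hH (inv x)
  left_inv := mv_inv C hH x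
  right_inv := mv_inv' C hH x

theorem pm_inv (x : X) : pm C hH (inv x) = (pm C hH x)⁻¹ := by
  ext v
  rfl

/-- walk along a word -/
noncomputable def wv (r : List X) (v : VV A) : VV A := r.foldl (fun v x => mv C hH x v) v

theorem wv_wk (r : List X) : ∀ v : VV A, ∃ n, Wk n v.1 r (wv C hH r v).1 := by
  induction r with
  | nil => intro v; exact ⟨v.1.lev, rfl, v.2, le_rfl⟩
  | cons x r ih =>
    intro v
    obtain ⟨n, hn⟩ := ih (mv C hH x v)
    exact ⟨max n v.1.lev, le_max_right _ _, _, mv_spec C hH x v, hn.mono (le_max_left _ _)⟩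

theorem wv_rel {r : List X} (hr : r ∈ Rels) (v : VV A) : wv C hH r v = v := by
  obtain ⟨n, hn⟩ := wv_wk C hH r v
  exact Subtype.ext ((hH n).d r hr _ _ hn).symm

theorem wv_lev (r : List X) : ∀ v : VV A, (wv C hH r v).1.lev ≤ v.1.lev + r.length := by
  induction r with
  | nil => intro v; exact le_rfl
  | cons x r ih =>
    intro v
    have h1 := ih (mv C hH x v)
    have h2 := (mv_spec C hH x v).lev
    have h3 : wv C hH (x :: r) v = wv C hH r (mv C hH x v) := rfl
    rw [h3, List.length_cons]
    rcases h2 with h2 | h2 <;> omega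

/-- the right action of the braid group -/
noncomputable def hom : B 4 →* (Equiv.Perm (VV A))ᵐᵒᵖ :=
  PresentedGroup.toGroup (f := fun i : Fin 3 => MulOpposite.op (pm C hH (i, true))) (by
    intro r hr
    obtain ⟨i, j, ⟨hij, rfl⟩ | ⟨hij, rfl⟩⟩ := hr
    · have hm : ([(i, true), (j, true), (i, false), (j, false)] : List X) ∈ Rels := by
        have : ∀ i j : Fin 3, i.val + 2 ≤ j.val →
          ([(i, true), (j, true), (i, false), (j, false)] : List X) ∈ Rels := by decide
        exact this i j hij
      simp only [map_mul, map_inv, FreeGroup.lift_apply_of]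
      apply MulOpposite.unop_injective
      ext v
      have := wv_rel C hH hm v
      simp only [MulOpposite.unop_mul, MulOpposite.unop_inv, MulOpposite.unop_op,
        MulOpposite.unop_one, Equiv.Perm.coe_mul, Function.comp_apply, Equiv.Perm.coe_one, id]
      exact this
    · have hm : ([(i, true), (j, true), (i, true), (j, false), (i, false), (j, false)] : List X) ∈
          Rels := by
        have : ∀ i j : Fin 3, i.val + 1 = j.val →
          ([(i, true), (j, true), (i, true), (j, false), (i, false), (j, false)] : List X) ∈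
            Rels := by decide
        exact this i j hij
      simp only [map_mul, map_inv, FreeGroup.lift_apply_of]
      apply MulOpposite.unop_injective
      ext v
      have := wv_rel C hH hm v
      simp only [MulOpposite.unop_mul, MulOpposite.unop_inv, MulOpposite.unop_op,
        MulOpposite.unop_one, Equiv.Perm.coe_mul, Function.comp_apply, Equiv.Perm.coe_one, id]
      exact this)

theorem hom_gl (x : X) : hom C hH (gl x) = MulOpposite.op (pm C hH x) := by
  rcases x with ⟨i, b⟩
  cases b
  · have e : ((i, false) : X) = inv (i, true) := rfl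
    rw [e, gl_inv, map_inv, pm_inv]
    have : hom C hH (gl (i, true)) = MulOpposite.op (pm C hH (i, true)) := by
      unfold hom gl Braid.letter
      simp
    rw [this]
    rfl
  · unfold hom gl Braid.letter
    simp

theorem hom_gp (r : List X) (v : VV A) : (hom C hH (gp r)).unop v = wv C hH r v := by
  induction r generalizing v with
  | nil => simp [gp, wv]
  | cons x r ih =>
    have : gp (x :: r) = gl x * gp r := by simp [gp]
    rw [this, map_mul, MulOpposite.unop_mul, hom_gl]
    show (hom C hH (gp r)).unop (pm C hH x v) = _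
    rw [ih]
    rfl

omit hH in
theorem nil_ok : (V.mk [] : V A).ok := by
  unfold V.ok
  rw [V.st_mk C]
  exact C.startne

/-- accepted words reach their class -/
theorem wv_acc (c : List X) (h : A.run c ≠ A.fail) :
    (wv C hH c.reverse ⟨V.mk [], nil_ok C⟩).1 = V.mk c := by
  induction c with
  | nil => rfl
  | cons x c ih =>
    have hc : A.run c ≠ A.fail := by
      intro e
      apply h
      show A.δ (A.run c) x = A.fail
      rw [e, C.absorb]
    have h1 := ih hc
    have e1 : wv C hH (x :: c).reverse ⟨V.mk [], nil_ok C⟩ =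
        mv C hH x (wv C hH c.reverse ⟨V.mk [], nil_ok C⟩) := by
      simp [wv, List.foldl_append]
    rw [e1]
    have h2 := mv_spec C hH x (wv C hH c.reverse ⟨V.mk [], nil_ok C⟩)
    rw [h1] at h2
    exact h2.up_eq C (by rw [V.st_mk C]; exact h)

theorem accepted_minimal (c : List X) (h : A.run c ≠ A.fail) (r : List X) (hr : gp r = gp c.reverse) :
    c.length ≤ r.length := by
  have h1 := hom_gp C hH r ⟨V.mk [], nil_ok C⟩
  rw [hr, hom_gp] at h1
  have h2 := wv_acc C hH c h
  have h3 := wv_lev C hH r ⟨V.mk [], nil_ok C⟩
  rw [← h1, h2] at h3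
  simpa using h3

theorem minimal_accepted (c : List X) (h : A.run c = A.fail) :
    ∃ d : List X, gv d = gv c ∧ d.length < c.length := by
  induction c with
  | nil => exact absurd h C.startne
  | cons x c ih =>
    by_cases hc : A.run c = A.fail
    · obtain ⟨d, h1, h2⟩ := ih hc
      exact ⟨x :: d, by rw [gv_cons, gv_cons, h1], by simpa using h2⟩
    · have ok : (V.mk c : V A).ok := by unfold V.ok; rw [V.st_mk C]; exact hc
      obtain ⟨p, hp⟩ := (hH c.length).b (V.mk c) ok le_rfl (inv x) (by
        rw [inv_inv, V.st_mk C]; exact h)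
      obtain ⟨d, rfl⟩ := p.ex
      have he : E A c (inv x :: d) := V.exact hp
      refine ⟨d, ?_, ?_⟩
      · have := E.gv he
        rw [gv_cons, gl_inv] at this
        rw [gv_cons, this]
        group
      · have := he.length
        simp only [List.length_cons] at this ⊢
        omega

end

theorem gv_eq (c : List X) : gv c = gp c.reverse := rfl

/-- the accepted words are the minimal ones -/
theorem acc_iff (C : Cert1 A) (hH : ∀ N, H A N) (w : List X) :
    IsMinimal 4 w ↔ A.run w.reverse ≠ A.fail := by
  have hval : ∀ u : List X, value 4 u = gp u := fun _ => rfl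
  constructor
  · intro h hf
    obtain ⟨d, h1, h2⟩ := minimal_accepted C hH w.reverse hf
    have := h d.reverse (by
      rw [hval, hval]
      rw [gv_eq, gv_eq, List.reverse_reverse] at h1
      exact h1)
    simp at this h2
    omega
  · intro h u hu
    have := accepted_minimal C hH w.reverse h u (by
      rw [List.reverse_reverse, ← hval, ← hval]
      exact hu)
    simpa using this

end Run7.h160
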