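import Pool.Agent.H38.NP.Api
import Pool.Agent.H642R2.TMSim
import Pool.Agent.Run7.h160.Defs

/-!
A property of words over the letters of three generators that is recognised by a finite automaton
gives a language in P.
-/

namespace Run7.h160.Alg

open Pool.Agent.H38.NP

/-- table-driven step -/
def stepT (tab : List ℕ) (K : ℕ) (q : ℕ) (x : ℕ × Bool) : ℕ :=
  tab.getD (6 * q + (if x.2 = true then x.1 else x.1 + 3)) K

theorem stepT_le (tab : List ℕ) (K : ℕ) (h : ∀ a ∈ tab, a ≤ K) (q : ℕ) (x : ℕ × Bool) :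
    stepT tab K q x ≤ K := by
  unfold stepT
  rw [List.getD_eq_getElem?_getD]
  rcases hh : tab[6 * q + (if x.2 = true then x.1 else x.1 + 3)]? with _ | a
  · simp
  · simpa using h a (List.mem_of_getElem? hh)

theorem foldT_le (tab : List ℕ) (K : ℕ) (h : ∀ a ∈ tab, a ≤ K) (l : List (ℕ × Bool)) :
    ∀ q, q ≤ K → l.foldl (stepT tab K) q ≤ K := by
  induction l with
  | nil => intro q hq; exact hq
  | cons x l ih => intro q _; exact ih _ (stepT_le tab K h q x)

/-- the decision procedure -/
def dec3 (tab : List ℕ) (K : ℕ) (l : List (ℕ × Bool)) : Bool :=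
  l.all (fun x => decide (x.1 < 3)) && decide (l.foldl (stepT tab K) 0 < K)

theorem pt_dec3 (tab : List ℕ) (K : ℕ) (h : ∀ a ∈ tab, a ≤ K) : PT (dec3 tab K) := by
  have h1 : PT fun l : List (ℕ × Bool) => l.foldl (stepT tab K) 0 := by
    refine PT.foldl (f := fun _ => stepT tab K) (l := fun l => l) (init := fun _ => 0)
      (B := fun _ => K) ?_ (by fun_prop) (by fun_prop) (PB.const K) ?_
    · unfold stepT
      fun_prop
    · intro a k
      rw [sz_nat]
      exact foldT_le tab K h _ 0 (Nat.zero_le _)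
  unfold dec3
  fun_prop

end Run7.h160.Alg
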