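import Mathlib.Data.Fintype.Prod
import Mathlib.Data.Fintype.Basic
import Mathlib.Logic.Relation
import Mathlib.Data.List.Rotate
import Mathlib.Tactic

/-!
Candidate Cayley graph of the braid group on four strands, built from a finite automaton.
-/

namespace Run7.h160

/-- letters: `(i, true)` is the i-th generator, `(i, false)` its inverse. -/
abbrev X := Fin 3 × Bool

/-- inverse letter -/
def inv (x : X) : X := (x.1, !x.2)

@[simp] theorem inv_inv (x : X) : inv (inv x) = x := by
  rcases x with ⟨i, b⟩; simp [inv]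

theorem inv_ne (x : X) : inv x ≠ x := by
  rcases x with ⟨i, b⟩; cases b <;> simp [inv]

/-- formal inverse of a word -/
def rev (r : List X) : List X := (r.map inv).reverse

/-- all rotations -/
def rots (r : List X) : List (List X) := (List.range r.length).map (fun k => r.drop k ++ r.take k)

def relW (i j : Fin 3) : List X :=
  [(i, true), (j, true), (i, true), (j, false), (i, false), (j, false)]

def relC : List X := [(0, true), (2, true), (0, false), (2, false)]

/-- hexagon relators (24 words) -/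
def Rel6 : List (List X) :=
  rots (relW 0 1) ++ rots (rev (relW 0 1)) ++ rots (relW 1 2) ++ rots (rev (relW 1 2))

/-- square relators (8 words) -/
def Rel4 : List (List X) := rots relC ++ rots (rev relC)

/-- automaton -/
structure Auto where
  Q : Type
  q0 : Q
  fail : Q
  δ : Q → X → Q

variable (A : Auto)

namespace Auto

/-- run of the automaton; the head of the list is the last letter -/
def run : List X → A.Q
  | [] => A.q0
  | x :: c => A.δ (run c) x

end Auto

/-- basic certificate -/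
structure Cert1 : Prop where
  absorb : ∀ x, A.δ A.fail x = A.fail
  startne : A.q0 ≠ A.fail
  start : ∀ x, A.δ A.q0 x ≠ A.fail
  back : ∀ q x, A.δ (A.δ q x) (inv x) = A.fail
  gate : ∀ q x, q ≠ A.fail → A.δ q x = A.fail → A.δ q (inv x) ≠ A.fail
  c1 : ∀ s t u u' t' s', [s, t, u, inv u', inv t', inv s'] ∈ Rel6 →
    ∀ q, A.δ (A.δ (A.δ q s) t) u = A.δ (A.δ (A.δ q s') t') u'
  c1' : ∀ s t t' s', [s, t, inv t', inv s'] ∈ Rel4 →
    ∀ q, A.δ (A.δ q s) t = A.δ (A.δ q s') t'
  c2 : ∀ s x x' s' t' t, [s, x, inv x', inv s', t', inv t] ∈ Rel6 →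
    ∀ q1 q3, A.δ q1 t = A.δ q3 t' → A.δ q1 t ≠ A.fail →
      A.δ (A.δ q1 s) x = A.δ (A.δ q3 s') x'

/-- the congruence on words -/
inductive E : List X → List X → Prop
  | refl (c) : E c c
  | symm {c d} : E c d → E d c
  | trans {c d e} : E c d → E d e → E c e
  | cons (x) {c d} : E c d → E (x :: c) (x :: d)
  | rel3 (s t u u' t' s') (c) : [s, t, u, inv u', inv t', inv s'] ∈ Rel6 →
      E (u :: t :: s :: c) (u' :: t' :: s' :: c)
  | rel2 (s t t' s') (c) : [s, t, inv t', inv s'] ∈ Rel4 →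
      E (t :: s :: c) (t' :: s' :: c)
  | lad (s x x' s' t' t) (c1 c3) : [s, x, inv x', inv s', t', inv t] ∈ Rel6 →
      A.run (t :: c1) ≠ A.fail → E (t :: c1) (t' :: c3) →
      E (x :: s :: c1) (x' :: s' :: c3)

variable {A}

theorem E.length {c d : List X} (h : E A c d) : c.length = d.length := by
  induction h with
  | refl => rfl
  | symm _ ih => exact ih.symm
  | trans _ _ ih1 ih2 => exact ih1.trans ih2
  | cons x _ ih => simp [ih]
  | rel3 => simp
  | rel2 => simp
  | lad s x x' s' t' t c1 c3 _ _ _ ih => simpa using ih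

theorem E.run (C : Cert1 A) {c d : List X} (h : E A c d) : A.run c = A.run d := by
  induction h with
  | refl => rfl
  | symm _ ih => exact ih.symm
  | trans _ _ ih1 ih2 => exact ih1.trans ih2
  | cons x _ ih => simp [Auto.run, ih]
  | rel3 s t u u' t' s' c h => exact C.c1 s t u u' t' s' h _
  | rel2 s t t' s' c h => exact C.c1' s t t' s' h _
  | lad s x x' s' t' t c1 c3 h h1 _ ih => exact C.c2 s x x' s' t' t h _ _ ih h1

theorem E.eqv : Equivalence (E A) := ⟨E.refl, E.symm, E.trans⟩

variable (A)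
/-- words modulo the congruence -/
def V : Type := Quotient (⟨E A, E.eqv⟩ : Setoid (List X))

variable {A}

def V.mk (c : List X) : V A := Quotient.mk _ c

theorem V.sound {c d : List X} (h : E A c d) : (V.mk c : V A) = V.mk d :=
  Quotient.sound (s := ⟨E A, E.eqv⟩) h

theorem V.exact {c d : List X} (h : (V.mk c : V A) = V.mk d) : E A c d :=
  Quotient.exact (s := ⟨E A, E.eqv⟩) h

theorem V.ind' {p : V A → Prop} (h : ∀ c, p (V.mk c)) (v : V A) : p v :=
  Quotient.ind (s := ⟨E A, E.eqv⟩) h v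

theorem V.ex (v : V A) : ∃ c, v = V.mk c := by
  induction v using V.ind' with
  | h c => exact ⟨c, rfl⟩

/-- level -/
def V.lev (v : V A) : ℕ :=
  Quotient.lift (s := ⟨E A, E.eqv⟩) List.length (fun _ _ h => E.length h) v

@[simp] theorem V.lev_mk (c : List X) : (V.mk c : V A).lev = c.length := rfl

/-- state of a class -/
noncomputable def V.st (v : V A) : A.Q := A.run (Classical.choose v.ex)

theorem V.st_mk (C : Cert1 A) (c : List X) : (V.mk c : V A).st = A.run c := by
  have h := Classical.choose_spec (V.ex (V.mk c : V A))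
  exact ((V.exact h).run C).symm

/-- ascend -/
def V.up (x : X) (v : V A) : V A :=
  Quotient.map' (s₁ := ⟨E A, E.eqv⟩) (s₂ := ⟨E A, E.eqv⟩) (fun c => x :: c)
    (fun _ _ h => E.cons x h) v

@[simp] theorem V.up_mk (x : X) (c : List X) : (V.mk c : V A).up x = V.mk (x :: c) := rfl

@[simp] theorem V.lev_up (x : X) (v : V A) : (v.up x).lev = v.lev + 1 := by
  induction v using V.ind' with
  | h c => simp

theorem V.st_up (C : Cert1 A) (x : X) (v : V A) : (v.up x).st = A.δ v.st x := by
  induction v using V.ind' with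
  | h c => rw [V.up_mk, V.st_mk C, V.st_mk C]; rfl

/-- accepted vertices -/
def V.ok (v : V A) : Prop := v.st ≠ A.fail

theorem V.ok_of_up (C : Cert1 A) {x : X} {v : V A} (h : (v.up x).ok) : v.ok := by
  intro h'
  apply h
  rw [V.st_up C, h', C.absorb]

theorem V.up_ok_iff (C : Cert1 A) {x : X} {v : V A} : (v.up x).ok ↔ A.δ v.st x ≠ A.fail := by
  unfold V.ok; rw [V.st_up C]

theorem V.rel3 {s t u u' t' s' : X} (h : [s, t, u, inv u', inv t', inv s'] ∈ Rel6) (v : V A) :
    ((v.up s).up t).up u = ((v.up s').up t').up u' := by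
  induction v using V.ind' with
  | h c => exact V.sound (E.rel3 s t u u' t' s' c h)

theorem V.rel2 {s t t' s' : X} (h : [s, t, inv t', inv s'] ∈ Rel4) (v : V A) :
    (v.up s).up t = (v.up s').up t' := by
  induction v using V.ind' with
  | h c => exact V.sound (E.rel2 s t t' s' c h)

theorem V.lad (C : Cert1 A) {s x x' s' t' t : X}
    (h : [s, x, inv x', inv s', t', inv t] ∈ Rel6) {v w : V A}
    (h1 : (v.up t).ok) (h2 : v.up t = w.up t') :
    (v.up s).up x = (w.up s').up x' := by
  obtain ⟨c, rfl⟩ := v.ex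
  obtain ⟨d, rfl⟩ := w.ex
  refine V.sound (E.lad s x x' s' t' t c d h ?_ (V.exact h2))
  have := h1
  unfold V.ok at this
  rwa [V.up_mk, V.st_mk C] at this

/-- one step of the partial action -/
def Mv (x : X) (v w : V A) : Prop := v.ok ∧ w.ok ∧ (w = v.up x ∨ v = w.up (inv x))

theorem Mv.symm {x : X} {v w : V A} (h : Mv x v w) : Mv (inv x) w v := by
  obtain ⟨h1, h2, h3⟩ := h
  refine ⟨h2, h1, ?_⟩
  rw [inv_inv]
  exact h3.symm

theorem Mv.symm' {x : X} {v w : V A} (h : Mv (inv x) v w) : Mv x w v := by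
  have := h.symm
  rwa [inv_inv] at this

/-- ascending step -/
theorem Mv.up_eq (C : Cert1 A) {x : X} {v w : V A} (h : Mv x v w) (h1 : A.δ v.st x ≠ A.fail) :
    w = v.up x := by
  obtain ⟨_, _, h3 | h3⟩ := h
  · exact h3
  · exfalso
    apply h1
    rw [h3, V.st_up C]
    have := C.back w.st (inv x)
    rwa [inv_inv] at this

theorem Mv.down_eq (C : Cert1 A) {x : X} {v w : V A} (h : Mv x v w) (h1 : A.δ v.st x = A.fail) :
    v = w.up (inv x) := by
  obtain ⟨_, h2, h3 | h3⟩ := h
  · exfalso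
    apply h2
    rw [h3, V.st_up C, h1]
  · exact h3

theorem Mv.lev {x : X} {v w : V A} (h : Mv x v w) : w.lev = v.lev + 1 ∨ v.lev = w.lev + 1 := by
  obtain ⟨_, _, h3 | h3⟩ := h
  · left; rw [h3, V.lev_up]
  · right; rw [h3, V.lev_up]

theorem Mv.of_up (C : Cert1 A) {x : X} {v : V A} (h : (v.up x).ok) : Mv x v (v.up x) :=
  ⟨V.ok_of_up C h, h, Or.inl rfl⟩

theorem Mv.of_down (C : Cert1 A) {x : X} {v : V A} (h : (v.up (inv x)).ok) :
    Mv x (v.up (inv x)) v :=
  ⟨h, V.ok_of_up C h, Or.inr rfl⟩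

theorem Mv.eq_up_of_lev {x : X} {v w : V A} (h : Mv x v w) (hl : w.lev = v.lev + 1) :
    w = v.up x := by
  obtain ⟨_, _, h3 | h3⟩ := h
  · exact h3
  · exfalso
    have := congrArg V.lev h3
    rw [V.lev_up] at this
    omega

theorem Mv.eq_down_of_lev {x : X} {v w : V A} (h : Mv x v w) (hl : v.lev = w.lev + 1) :
    v = w.up (inv x) := by
  obtain ⟨_, _, h3 | h3⟩ := h
  · exfalso
    have := congrArg V.lev h3
    rw [V.lev_up] at this
    omega
  · exact h3

/-- walks inside the ball of radius n -/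
def Wk (n : ℕ) : V A → List X → V A → Prop
  | v, [], w => v = w ∧ v.ok ∧ v.lev ≤ n
  | v, x :: r, w => v.lev ≤ n ∧ ∃ u, Mv x v u ∧ Wk n u r w

theorem Wk.start_le {n : ℕ} {v : V A} {r : List X} {w : V A} (h : Wk n v r w) : v.lev ≤ n := by
  cases r with
  | nil => exact h.2.2
  | cons x r => exact h.1

theorem Wk.start_ok {n : ℕ} {v : V A} {r : List X} {w : V A} (h : Wk n v r w) : v.ok := by
  cases r with
  | nil => exact h.2.1
  | cons x r => obtain ⟨_, u, hu, _⟩ := h; exact hu.1

theorem Wk.end_ok {n : ℕ} {r : List X} : ∀ {v w : V A}, Wk n v r w → w.ok ∧ w.lev ≤ n := by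
  induction r with
  | nil => intro v w h; exact h.1 ▸ h.2
  | cons x r ih => intro v w h; obtain ⟨_, u, _, hu⟩ := h; exact ih hu

theorem Wk.append {n : ℕ} {r s : List X} : ∀ {v u w : V A}, Wk n v r u → Wk n u s w →
    Wk n v (r ++ s) w := by
  induction r with
  | nil => intro v u w h1 h2; exact h1.1 ▸ h2
  | cons x r ih =>
    intro v u w h1 h2
    obtain ⟨h, m, hm, hm2⟩ := h1
    exact ⟨h, m, hm, ih hm2 h2⟩

theorem Wk.split {n : ℕ} {r s : List X} : ∀ {v w : V A}, Wk n v (r ++ s) w →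
    ∃ u, Wk n v r u ∧ Wk n u s w := by
  induction r with
  | nil => intro v w h; exact ⟨v, ⟨rfl, h.start_ok, h.start_le⟩, h⟩
  | cons x r ih =>
    intro v w h
    obtain ⟨h, m, hm, hm2⟩ := h
    obtain ⟨u, hu1, hu2⟩ := ih hm2
    exact ⟨u, ⟨h, m, hm, hu1⟩, hu2⟩

theorem Wk.single {n : ℕ} {x : X} {v w : V A} (h : Mv x v w) (h1 : v.lev ≤ n) (h2 : w.lev ≤ n) :
    Wk n v [x] w := ⟨h1, w, h, rfl, h.2.1, h2⟩

theorem rev_cons (x : X) (r : List X) : rev (x :: r) = rev r ++ [inv x] := by
  simp [rev]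

theorem rev_append (r s : List X) : rev (r ++ s) = rev s ++ rev r := by
  simp [rev]

@[simp] theorem rev_rev (r : List X) : rev (rev r) = r := by
  unfold rev
  rw [List.map_reverse, List.reverse_reverse, List.map_map]
  have : (inv ∘ inv) = id := by funext x; simp
  rw [this, List.map_id]

theorem Wk.rev {n : ℕ} {r : List X} : ∀ {v w : V A}, Wk n v r w → Wk n w (rev r) v := by
  induction r with
  | nil => intro v w h; exact ⟨h.1.symm, h.1 ▸ h.2.1, h.1 ▸ h.2.2⟩
  | cons x r ih =>
    intro v w h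
    obtain ⟨h, m, hm, hm2⟩ := h
    rw [rev_cons]
    exact (ih hm2).append (Wk.single hm.symm hm2.start_le h)

theorem Wk.mono {n m : ℕ} (hnm : n ≤ m) {r : List X} : ∀ {v w : V A}, Wk n v r w → Wk m v r w := by
  induction r with
  | nil => intro v w h; exact ⟨h.1, h.2.1, h.2.2.trans hnm⟩
  | cons x r ih =>
    intro v w h
    obtain ⟨h, u, hu, hu2⟩ := h
    exact ⟨h.trans hnm, u, hu, ih hu2⟩

/-- relators -/
def Rels : List (List X) := Rel6 ++ Rel4

variable (A)

/-- the induction hypothesis: the ball of radius n behaves like a ball of a Cayley graph -/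
structure H (n : ℕ) : Prop where
  b : ∀ v : V A, v.ok → v.lev ≤ n → ∀ y, A.δ v.st (inv y) = A.fail → ∃ p, v = V.up y p
  c : ∀ (y : X) (p p' : V A), (p.up y).ok → (p.up y).lev ≤ n → p.up y = p'.up y → p = p'
  d : ∀ r ∈ Rels, ∀ v w : V A, Wk n v r w → v = w

variable {A}

/-- determinism -/
theorem H.det {n : ℕ} (hc : ∀ (y : X) (p p' : V A), (p.up y).ok → (p.up y).lev ≤ n →
    p.up y = p'.up y → p = p') (C : Cert1 A) {x : X} {v w w' : V A} (hv : v.lev ≤ n)
    (h1 : Mv x v w) (h2 : Mv x v w') : w = w' := by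
  by_cases hx : A.δ v.st x = A.fail
  · have e1 := h1.down_eq C hx
    have e2 := h2.down_eq C hx
    refine hc (inv x) w w' ?_ ?_ ?_
    · rw [← e1]; exact h1.1
    · rw [← e1]; exact hv
    · rw [← e1, ← e2]
  · rw [h1.up_eq C hx, h2.up_eq C hx]

theorem H.detW {n m : ℕ} (hc : ∀ (y : X) (p p' : V A), (p.up y).ok → (p.up y).lev ≤ n →
    p.up y = p'.up y → p = p') (C : Cert1 A) {r : List X} : ∀ {v w w' : V A},
    Wk n v r w → Wk m v r w' → w = w' := by
  induction r with
  | nil => intro v w w' h1 h2; exact h1.1.symm.trans h2.1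
  | cons x r ih =>
    intro v w w' h1 h2
    obtain ⟨h, u, hu, hu2⟩ := h1
    obtain ⟨_, u', hu', hu2'⟩ := h2
    have := H.det hc C h hu hu'
    subst this
    exact ih hu2 hu2'

/-- existence of moves -/
theorem H.ex {n : ℕ} (h : H A n) (C : Cert1 A) {v : V A} (hv : v.ok) (hl : v.lev ≤ n) (x : X) :
    ∃ w, Mv x v w := by
  by_cases hx : A.δ v.st x = A.fail
  · obtain ⟨p, hp⟩ := h.b v hv hl (inv x) (by rwa [inv_inv])
    refine ⟨p, hv, ?_, Or.inr hp⟩
    exact V.ok_of_up C (x := inv x) (hp ▸ hv)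
  · exact ⟨v.up x, hv, (V.up_ok_iff C).2 hx, Or.inl rfl⟩

end Run7.h160
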