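import Pool.Agent.Run7.h71.CE.Stm

/-!
# Pieces TAN and RLL of the project CE (helper71)
-/

set_option autoImplicit false

namespace Pool.Agent.Run7.h71.CE

open Set Filter Topology
open scoped ContDiff
open Pool.Agent.Run7.h71.CD

/-- derivative of a smooth function along a curve -/
theorem h160_along {O : Set E3} {V : E3 → E3} {f : E3 → ℝ} (hO : IsOpen O)
    (hf : ContDiffOn ℝ ∞ f O) {γ : ℝ → E3} {τ : ℝ} (h1 : γ τ ∈ O)
    (h2 : HasDerivAt γ (V (γ τ)) τ) :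
    HasDerivAt (fun s => f (γ s)) (fderiv ℝ f (γ τ) (V (γ τ))) τ := by
  have h3 : DifferentiableAt ℝ f (γ τ) :=
    (hf.contDiffAt (hO.mem_nhds h1)).differentiableAt (by simp)
  exact h3.hasFDerivAt.comp_hasDerivAt τ h2

/-- a function with zero derivative on an interval about `0` is constant -/
theorem h160_const {u : ℝ → ℝ} {ε : ℝ} (hε : 0 < ε)
    (h : ∀ τ ∈ Metric.ball (0 : ℝ) ε, HasDerivAt u 0 τ) :
    ∀ τ ∈ Metric.ball (0 : ℝ) ε, u τ = u 0 := by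
  intro τ hτ
  refine Metric.isOpen_ball.is_const_of_deriv_eq_zero
    (convex_ball (0 : ℝ) ε).isPreconnected
    (fun s hs => (h s hs).differentiableAt.differentiableWithinAt)
    (fun s hs => (h s hs).deriv) hτ (Metric.mem_ball_self hε)

theorem TAN : S_TAN := by
  intro hC O V f g c hO hV hf hg hfV hg0 X hX hfX
  obtain ⟨γ, h0, hev⟩ := hC O V hO hV X hX
  obtain ⟨ε, hε, hb⟩ := Metric.eventually_nhds_iff_ball.1 hev
  have h1 : ∀ τ ∈ Metric.ball (0 : ℝ) ε, f (γ τ) = f (γ 0) := by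
    refine h160_const (u := fun s => f (γ s)) hε fun τ hτ => ?_
    have h2 := h160_along hO hf (hb τ hτ).1 (hb τ hτ).2
    rwa [hfV _ (hb τ hτ).1] at h2
  have h2 : (fun s => g (γ s)) =ᶠ[𝓝 0] fun _ => (0 : ℝ) := by
    filter_upwards [Metric.ball_mem_nhds (0 : ℝ) hε] with τ hτ
    refine hg0 _ (hb τ hτ).1 ?_
    rw [h1 τ hτ, h0, hfX]
  have h3 := h160_along hO hg (hb 0 (Metric.mem_ball_self hε)).1
    (hb 0 (Metric.mem_ball_self hε)).2
  have h4 : HasDerivAt (fun s => g (γ s)) 0 0 :=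
    (hasDerivAt_const (0 : ℝ) (0 : ℝ)).congr_of_eventuallyEq h2
  rw [h0] at h3
  exact h3.unique h4

/-- a frequent zero is a zero -/
theorem h160_freq {u : ℝ → ℝ} (hu : ContinuousAt u 0) (h : ∃ᶠ τ in 𝓝[≠] (0 : ℝ), u τ = 0) :
    u 0 = 0 := by
  by_contra h0
  have h1 : ∀ᶠ τ in 𝓝 (0 : ℝ), u τ ≠ 0 := hu.eventually_ne h0
  have h2 : ∀ᶠ τ in 𝓝[≠] (0 : ℝ), u τ ≠ 0 := h1.filter_mono nhdsWithin_le_nhds
  exact h h2

/-- Rolle for iterated derivatives -/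
theorem h160_rolle {u : ℕ → ℝ → ℝ} {ε : ℝ} (hε : 0 < ε)
    (hu : ∀ k, ∀ τ ∈ Metric.ball (0 : ℝ) ε, HasDerivAt (u k) (u (k + 1) τ) τ)
    (h : ∃ᶠ τ in 𝓝[≠] (0 : ℝ), u 0 τ = 0) :
    ∀ k, ∃ᶠ τ in 𝓝[≠] (0 : ℝ), u k τ = 0 := by
  intro k
  induction k with
  | zero => exact h
  | succ k ih =>
    have h0 : u k 0 = 0 := h160_freq (hu k 0 (Metric.mem_ball_self hε)).continuousAt ih
    rw [Filter.frequently_iff] at ih ⊢
    intro U hU
    obtain ⟨δ, hδ, hδU⟩ := Metric.mem_nhdsWithin_iff.1 hU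
    obtain ⟨τ, ⟨hτ1, hτ2⟩, hτ3⟩ := ih (U := Metric.ball (0 : ℝ) (min δ ε) ∩ {0}ᶜ)
      (Metric.mem_nhdsWithin_iff.2 ⟨min δ ε, lt_min hδ hε, Subset.rfl⟩)
    have hτ0 : τ ≠ 0 := hτ2
    rw [mem_ball_zero_iff, Real.norm_eq_abs, lt_min_iff] at hτ1
    have hin : ∀ s, |s| ≤ |τ| → s ∈ Metric.ball (0 : ℝ) ε := by
      intro s hs
      rw [mem_ball_zero_iff, Real.norm_eq_abs]
      linarith
    have hin2 : ∀ s, |s| ≤ |τ| → s ≠ 0 → s ∈ U := by
      intro s hs hs0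
      refine hδU ⟨?_, hs0⟩
      rw [mem_ball_zero_iff, Real.norm_eq_abs]
      linarith
    rcases lt_or_gt_of_ne hτ0 with hneg | hpos
    · have habs : ∀ s ∈ Icc τ 0, |s| ≤ |τ| := by
        intro s hs
        rw [abs_of_nonpos hs.2, abs_of_neg hneg]
        linarith [hs.1]
      obtain ⟨s, hs, hs0⟩ := exists_hasDerivAt_eq_zero (f := u k) (f' := u (k + 1)) hneg
        (fun s hs => (hu k s (hin s (habs s hs))).continuousAt.continuousWithinAt)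
        (by rw [hτ3, h0]) (fun s hs => hu k s (hin s (habs s ⟨hs.1.le, hs.2.le⟩)))
      exact ⟨s, hin2 s (habs s ⟨hs.1.le, hs.2.le⟩) hs.2.ne, hs0⟩
    · have habs : ∀ s ∈ Icc 0 τ, |s| ≤ |τ| := by
        intro s hs
        rw [abs_of_nonneg hs.1, abs_of_pos hpos]
        exact hs.2
      obtain ⟨s, hs, hs0⟩ := exists_hasDerivAt_eq_zero (f := u k) (f' := u (k + 1)) hpos
        (fun s hs => (hu k s (hin s (habs s hs))).continuousAt.continuousWithinAt)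
        (by rw [hτ3, h0]) (fun s hs => hu k s (hin s (habs s ⟨hs.1.le, hs.2.le⟩)))
      exact ⟨s, hin2 s (habs s ⟨hs.1.le, hs.2.le⟩) hs.1.ne', hs0⟩

theorem RLL : S_RLL := by
  intro hC O V f g T c₀ hO hV hf hg hfV hgV hT hgT k X hX hfX
  obtain ⟨γ, h0, hev⟩ := hC O V hO hV X hX
  obtain ⟨ε, hε, hb⟩ := Metric.eventually_nhds_iff_ball.1 hev
  have h1 : ∀ τ ∈ Metric.ball (0 : ℝ) ε, f (γ τ) = c₀ + τ := by
    intro τ hτ
    have h2 := h160_const (u := fun s => f (γ s) - s) hε (fun s hs => by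
      have h2 := (h160_along hO hf (hb s hs).1 (hb s hs).2).sub (hasDerivAt_id s)
      rw [hfV _ (hb s hs).1, sub_self] at h2
      exact h2) τ hτ
    simp only [h0, hfX, sub_zero] at h2
    linarith
  have hu : ∀ k, ∀ τ ∈ Metric.ball (0 : ℝ) ε,
      HasDerivAt (fun s => g k (γ s)) (g (k + 1) (γ τ)) τ := by
    intro k τ hτ
    rw [hgV k _ (hb τ hτ).1]
    exact h160_along hO (hg k) (hb τ hτ).1 (hb τ hτ).2
  have hz : ∃ᶠ τ in 𝓝[≠] (0 : ℝ), g 0 (γ τ) = 0 := by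
    rw [Filter.frequently_iff] at hT ⊢
    intro U hU
    obtain ⟨δ, hδ, hδU⟩ := Metric.mem_nhdsWithin_iff.1 hU
    obtain ⟨c, ⟨hc1, hc2⟩, hc3⟩ := hT (U := Metric.ball c₀ (min δ ε) ∩ {c₀}ᶜ)
      (Metric.mem_nhdsWithin_iff.2 ⟨min δ ε, lt_min hδ hε, Subset.rfl⟩)
    have hc0 : c ≠ c₀ := hc2
    rw [Metric.mem_ball, Real.dist_eq, lt_min_iff] at hc1
    have h3 : c - c₀ ∈ Metric.ball (0 : ℝ) ε := by
      rw [mem_ball_zero_iff, Real.norm_eq_abs]
      exact hc1.2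
    refine ⟨c - c₀, hδU ⟨?_, sub_ne_zero.2 hc0⟩, ?_⟩
    · rw [mem_ball_zero_iff, Real.norm_eq_abs]
      exact hc1.1
    · refine hgT _ (hb _ h3).1 ?_
      rw [h1 _ h3, add_sub_cancel]
      exact hc3
  have h4 := h160_rolle (u := fun k s => g k (γ s)) hε hu hz k
  have h5 := h160_freq (hu k 0 (Metric.mem_ball_self hε)).continuousAt h4
  simpa only [h0] using h5

end Pool.Agent.Run7.h71.CE
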