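import Pool.Agent.Run7.h160.Data

namespace Run7.h160

noncomputable def allN (f : ℕ → Bool) (n : ℕ) : Bool :=
  Nat.rec (motive := fun _ => Bool) true (fun k ih => and (f k) ih) n

theorem allN_spec {f : ℕ → Bool} : ∀ {n : ℕ}, allN f n = true → ∀ q < n, f q = true := by
  intro n
  induction n with
  | zero => intro _ q hq; omega
  | succ n ih =>
    intro h q hq
    have h' : (f n && allN f n) = true := h
    rw [Bool.and_eq_true] at h'
    by_cases hqn : q = n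
    · rw [hqn]; exact h'.1
    · exact ih h'.2 q (by omega)

def codes : List ℕ := [0, 1, 2, 3, 4, 5]

def ci : ℕ → ℕ
  | 0 => 3
  | 1 => 4
  | 2 => 5
  | 3 => 0
  | 4 => 1
  | _ => 2

def dtab : ℕ → ℕ
  | 0 => tD0
  | 1 => tD1
  | 2 => tD2
  | 3 => tD3
  | 4 => tD4
  | _ => tD5

def ptab : ℕ → ℕ
  | 0 => tP0
  | 1 => tP1
  | 2 => tP2
  | 3 => tP3
  | 4 => tP4
  | _ => tP5

/-- code of the failure state -/
def FF : ℕ := 1761

/-- transition table -/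
def dN (q x : ℕ) : ℕ :=
  Nat.mod (Nat.mod (Nat.shiftRight (dtab x) (Nat.mul (nat_lit 11) q)) (nat_lit 2048)) (nat_lit 1762)

/-- predecessor table -/
def pN (q x : ℕ) : ℕ :=
  Nat.mod (Nat.mod (Nat.shiftRight (ptab x) (Nat.mul (nat_lit 11) q)) (nat_lit 2048)) (nat_lit 1762)

/-- mirror table -/
def muN (q : ℕ) : ℕ :=
  Nat.mod (Nat.mod (Nat.shiftRight tM (Nat.mul (nat_lit 11) q)) (nat_lit 2048)) (nat_lit 1762)

/-- centre table -/
def kN (q : ℕ) : ℕ := Nat.mod (Nat.shiftRight tK (Nat.mul (nat_lit 3) q)) (nat_lit 8)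

/-- position table -/
def sN (q : ℕ) : ℕ := Nat.mod (Nat.shiftRight tS (Nat.mul (nat_lit 5) q)) (nat_lit 32)

/-- pattern id -/
def iN (q : ℕ) : ℕ := Nat.mod (Nat.shiftRight tI (Nat.mul (nat_lit 8) q)) (nat_lit 256)

/-- G-set id -/
def jN (q : ℕ) : ℕ := Nat.mod (Nat.shiftRight tJ (Nat.mul (nat_lit 8) q)) (nat_lit 256)

/-- pattern values, shifted by 6 -/
def fN (p t : ℕ) : ℕ := Nat.mod (Nat.shiftRight (tF.getD t 0) (Nat.mul (nat_lit 4) p)) (nat_lit 16)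

/-- rows of the G-sets -/
def gN (g r : ℕ) : ℕ :=
  Nat.mod (Nat.shiftRight (tG.getD r 0) (Nat.mul (nat_lit 24) g)) (nat_lit 16777216)

/-- admissible positions for a pattern -/
def uN (p : ℕ) : ℕ := Nat.mod (Nat.shiftRight tU (Nat.mul (nat_lit 24) p)) (nat_lit 16777216)

def R6N : List (List ℕ) :=
  [[0, 1, 0, 4, 3, 4], [1, 0, 4, 3, 4, 0], [0, 4, 3, 4, 0, 1], [4, 3, 4, 0, 1, 0], [3, 4, 0, 1, 0, 4],
   [4, 0, 1, 0, 4, 3], [1, 0, 1, 3, 4, 3], [0, 1, 3, 4, 3, 1], [1, 3, 4, 3, 1, 0],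
   [3, 4, 3, 1, 0, 1], [4, 3, 1, 0, 1, 3], [3, 1, 0, 1, 3, 4], [1, 2, 1, 5, 4, 5],
   [2, 1, 5, 4, 5, 1], [1, 5, 4, 5, 1, 2], [5, 4, 5, 1, 2, 1], [4, 5, 1, 2, 1, 5],
   [5, 1, 2, 1, 5, 4], [2, 1, 2, 4, 5, 4], [1, 2, 4, 5, 4, 2], [2, 4, 5, 4, 2, 1],
   [4, 5, 4, 2, 1, 2], [5, 4, 2, 1, 2, 4], [4, 2, 1, 2, 4, 5]]

def R4N : List (List ℕ) :=
  [[0, 2, 3, 5], [2, 3, 5, 0], [3, 5, 0, 2], [5, 0, 2, 3], [2, 0, 5, 3], [0, 5, 3, 2],
   [5, 3, 2, 0], [3, 2, 0, 5]]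

def m6 (f : ℕ → ℕ → ℕ → ℕ → ℕ → ℕ → Bool) : List ℕ → Bool
  | [a, b, c, d, e, g] => f a b c d e g
  | _ => true

def m4 (f : ℕ → ℕ → ℕ → ℕ → Bool) : List ℕ → Bool
  | [a, b, c, d] => f a b c d
  | _ => true

def chk1 (q : ℕ) : Bool :=
  R6N.all (m6 fun a b c d e g =>
    Nat.beq (dN (dN (dN q a) b) c) (dN (dN (dN q (ci g)) (ci e)) (ci d)))

/-- squares -/
def chk2 (q : ℕ) : Bool :=
  R4N.all (m4 fun a b c d => Nat.beq (dN (dN q a) b) (dN (dN q (ci d)) (ci c)))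

/-- back, gate, absorb, start -/
def chk0 (q : ℕ) : Bool :=
  codes.all fun x =>
    and (Nat.beq (dN (dN q x) (ci x)) FF)
      (or (Nat.beq q FF) (or (not (Nat.beq (dN q x) FF)) (not (Nat.beq (dN q (ci x)) FF))))

/-- ladders -/
def chk3 (q : ℕ) : Bool :=
  R6N.all (m6 fun s x xi si t' ti =>
    or (Nat.beq (dN q (ci ti)) FF) (or (not (Nat.beq (dN (dN q (ci ti)) (ci t')) FF))
      (Nat.beq (dN (dN q s) x) (dN (dN (pN (dN q (ci ti)) t') (ci si)) (ci xi)))))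

/-- predecessors -/
def chk4 (q : ℕ) : Bool :=
  codes.all fun x => or (Nat.beq q FF) (or (not (Nat.beq (dN q (ci x)) FF))
    (Nat.beq (dN (pN q x) x) q))

/-- first letters of the arcs -/
def hd : List (List ℕ) :=
  [[], [4], [5], [], [4, 1], [2], [3], [], [5], [0, 3], [], [5, 2], [3], [4], [], [0], [1, 4], [], [], [4, 1], [5], [], [1], [2], [0, 3], [], [5, 2], [0], [], [2], [3], [1, 4], [], [0], [1], []]

def isPN (q : ℕ) : Bool := Nat.blt (sN q) 24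

def sqB (x y : ℕ) : Bool :=
  or (and (or (Nat.beq x 0) (Nat.beq x 3)) (or (Nat.beq y 2) (Nat.beq y 5)))
    (and (or (Nat.beq x 2) (Nat.beq x 5)) (or (Nat.beq y 0) (Nat.beq y 3)))

def avN (q x y : ℕ) : Bool := (hd.getD (6 * x + y) []).any fun a => Nat.beq (dN q a) FF

/-- availability -/
def chk5 (q : ℕ) : Bool :=
  codes.all fun x => or (Nat.beq (dN q x) FF) (or (isPN (dN q x))
    (and (Nat.beq (dN (dN q x) (ci (kN (dN q x)))) FF)
      (codes.all fun y => or (Nat.beq y x) (or (not (Nat.beq (dN (dN q x) (ci y)) FF))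
        (and (or (not (sqB x y)) (Nat.beq (dN q (ci y)) FF))
          (cond (or (Nat.beq x (kN (dN q x))) (Nat.beq y (kN (dN q x))))
            (avN q x y) (not (avN q x y))))))))

def chk6 (q : ℕ) : Bool :=
  R6N.all (m6 fun a b c _ y xi =>
    or (Nat.beq (dN (dN q (ci a)) (ci xi)) FF) (or (isPN (dN (dN q (ci a)) (ci xi)))
      (or (not (Nat.beq (dN (dN (dN q (ci a)) (ci xi)) (ci y)) FF))
        (Nat.beq (dN (dN q b) c) FF))))

def xc : ℕ → X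
  | 0 => (0, true)
  | 1 => (1, true)
  | 2 => (2, true)
  | 3 => (0, false)
  | 4 => (1, false)
  | _ => (2, false)

def pathB (s : Fin 24) (a b c d y x : ℕ) : Bool :=
  decide (wlk (nb s (xc x).1) [xc a, xc b, xc c, xc d] = some (nb s (xc y).1))

def chk7 (q : ℕ) : Bool :=
  R6N.all (m6 fun a b c d y xi =>
    or (Nat.beq (dN q (ci xi)) FF) (or (not (Nat.beq (dN (dN q (ci xi)) (ci y)) FF))
      (cond (isPN (dN q (ci xi)))
        (or (not (Nat.beq (dN (dN q a) b) FF))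
          (pathB (Fin.ofNat 24 (sN (dN q (ci xi)))) a b c d y (ci xi)))
        (or (Nat.beq (dN q a) FF) (not (Nat.beq (dN (dN q a) b) FF))))))

def cx (x : X) : ℕ := cond x.2 x.1.val (x.1.val + 3)

/-- P-states: descents, mirror, G -/
def chk8 (q : ℕ) : Bool :=
  or (not (isPN q))
    (and (genL.all fun i => Nat.beq (dN q (cx (letter (Fin.ofNat 24 (sN q)) i))) FF)
      (Nat.testBit (gN (jN q) (sN q)) (sN q)))

def LMl : List (ℕ × ℕ × ℕ) :=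
  [(0, 0, 1), (0, 2, 4), (0, 3, 5), (0, 6, 9), (0, 7, 10), (0, 8, 11), (0, 12, 15), (0, 13, 16), (0, 14, 17), (0, 18, 20), (0, 19, 21), (0, 22, 23), (1, 0, 2), (1, 1, 6), (1, 3, 7), (1, 4, 9), (1, 5, 12), (1, 8, 13), (1, 10, 15), (1, 11, 18), (1, 14, 19), (1, 16, 20), (1, 17, 22), (1, 21, 23), (2, 0, 3), (2, 1, 5), (2, 2, 8), (2, 4, 11), (2, 6, 14), (2, 7, 13), (2, 9, 17), (2, 10, 16), (2, 12, 19), (2, 15, 21), (2, 18, 22), (2, 20, 23)]

/-- windows -/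
def chk9 (q : ℕ) : Bool :=
  or (Nat.beq q FF) (and (and (Nat.beq (fN (iN q) 0) 6)
    (and (cond (Nat.beq (dN q 0) FF) (Nat.beq (fN (iN q) 1) 5) (Nat.beq (fN (iN q) 1) 7))
    (and (cond (Nat.beq (dN q 1) FF) (Nat.beq (fN (iN q) 2) 5) (Nat.beq (fN (iN q) 2) 7))
     (cond (Nat.beq (dN q 2) FF) (Nat.beq (fN (iN q) 3) 5) (Nat.beq (fN (iN q) 3) 7)))))
    (LMl.all fun z => and
      (or (Nat.beq (dN q z.1) FF)
        (Nat.beq (Nat.add (fN (iN (dN q z.1)) z.2.1) 1) (fN (iN q) z.2.2)))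
      (or (Nat.beq (dN q (Nat.add z.1 3)) FF)
        (Nat.beq (fN (iN q) z.2.1) (Nat.add (fN (iN (dN q (Nat.add z.1 3))) z.2.2) 1)))))

/-- mirror -/
def chk10 (q : ℕ) : Bool :=
  and (codes.all fun x => Nat.beq (muN (dN q x)) (dN (muN q) (ci x)))
    (and (Nat.beq (muN (muN q)) q)
      (and (Nat.blt (iN q) 234)
      (cond (isPN q) (Nat.beq (sN (muN q)) (w0 (Fin.ofNat 24 (sN q))).val)
        (not (isPN (muN q))))))

/-- ascending pairs of positions -/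
def UPl : List (ℕ × ℕ × ℕ) :=
  [(0, 0, 1), (0, 1, 2), (0, 2, 3), (1, 1, 4), (1, 2, 5), (2, 0, 6), (2, 2, 7), (3, 0, 5), (3, 1, 8), (4, 0, 9), (4, 2, 10), (5, 1, 11), (6, 1, 9), (6, 2, 12), (7, 0, 12), (7, 1, 13), (8, 0, 14), (8, 2, 13), (9, 2, 15), (10, 0, 15), (10, 1, 16), (11, 0, 17), (11, 2, 16), (12, 1, 18), (13, 0, 19), (14, 1, 17), (14, 2, 19), (15, 1, 20), (16, 0, 21), (17, 2, 21), (18, 0, 22), (18, 2, 20), (19, 1, 22), (20, 0, 23), (21, 1, 23), (22, 2, 23)]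

/-- closure of the G-sets -/
def chk11 (q : ℕ) : Bool :=
  and (UPl.all fun z => and
      (or (Nat.beq (dN q z.2.1) FF)
        (Nat.beq (Nat.land (gN (jN (dN q z.2.1)) z.2.2) (gN (jN q) z.1))
          (gN (jN (dN q z.2.1)) z.2.2)))
      (or (Nat.beq q FF) (or (Nat.beq (gN (jN q) z.2.2) 0)
        (Nat.beq (dN q (Nat.add z.2.1 3)) FF))))
    (or (Nat.beq q FF)
      (Nat.beq (Nat.land (gN (jN q) 0) (Nat.lor (uN (iN q)) 1)) (gN (jN q) 0)))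

def maskok (c : TC) (p s : ℕ) : Bool :=
  posL.all fun t => cond (Nat.testBit c.T t.val) (Nat.beq (fN p t.val) (Nat.add 6 (plen (Fin.ofNat 24 s))))
    (Nat.blt (fN p t.val) (Nat.add 6 (plen (Fin.ofNat 24 s))))

def x3eq (p p1 : ℕ) (t : Fin 24) : Bool :=
  Nat.beq (Nat.add (fN p1 (w0 t).val) (fN p 23)) (Nat.add (fN p t.val) 6)

noncomputable def x3ok (c : TC) (p : ℕ) : Bool :=
  or (Nat.testBit c.T 23) (allN (fun p1 =>
    or (not (posL.all fun t => or (not (Nat.testBit c.C t.val)) (x3eq p p1 t)))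
      (posL.all fun t => x3eq p p1 t)) 234)

/-- patterns -/
noncomputable def chkP (p : ℕ) : Bool :=
  allN (fun s => or (Nat.beq s 0) (or (not (Nat.testBit (uN p) s))
    (certL.any fun c => and (maskok c p s) (x3ok c p)))) 24

end Run7.h160
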