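import Pool.Agent.Run7.h160.Inst2

namespace Run7.h160

theorem UP_spec : ∀ r j, isup r j = true → (r.val, j.val, (nb r j).val) ∈ UPl := by decide

theorem ofNat24 (s : Fin 24) : Fin.ofNat 24 s.val = s := Fin.ext (Nat.mod_eq_of_lt s.isLt)

section
variable (k8 : allN chk8 1762 = true) (k9 : allN chk9 1762 = true) (k10 : allN chk10 1762 = true)
  (k11 : allN chk11 1762 = true) (kP : allN chkP 234 = true) (kT : certL.all chkT = true)

include k11 in
theorem g11 (q : Fin 1762) (r : Fin 24) (j : Fin 3) (hu : isup r j = true) :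
    (dN q.val j.val ≠ FF → Nat.land (gN (jN (dN q.val j.val)) (nb r j).val) (gN (jN q.val) r.val) =
      gN (jN (dN q.val j.val)) (nb r j).val) ∧
    (q.val ≠ FF → gN (jN q.val) (nb r j).val ≠ 0 → dN q.val (j.val + 3) = FF) := by
  have h := allN_spec k11 q.val q.isLt
  unfold chk11 at h
  rw [Bool.and_eq_true] at h
  have h1 := List.all_eq_true.1 h.1 _ (UP_spec r j hu)
  rw [Bool.and_eq_true, Bool.or_eq_true, Bool.or_eq_true, Bool.or_eq_true, Nat.beq_eq, Nat.beq_eq,
    Nat.beq_eq, Nat.beq_eq, Nat.beq_eq] at h1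
  exact ⟨fun e => h1.1.resolve_left e, fun e e2 => (h1.2.resolve_left e).resolve_left e2⟩

theorem iN_lt (k10 : allN chk10 1762 = true) (q : Fin 1762) : iN q.val < 234 := by
  have h := allN_spec k10 q.val q.isLt
  unfold chk10 at h
  rw [Bool.and_eq_true, Bool.and_eq_true, Bool.and_eq_true, Nat.beq_eq, Nat.blt_eq] at h
  exact h.2.2.1

theorem land_sub {a b : ℕ} (h : Nat.land a b = a) {s : ℕ} (hs : Nat.testBit a s = true) :
    Nat.testBit b s = true := by
  have h2 : (a &&& b).testBit s = a.testBit s := congrArg (fun n => Nat.testBit n s) h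
  rw [Nat.testBit_and, hs, Bool.true_and] at h2
  exact h2

include k8 k9 k10 k11 kP kT in
theorem certG : CertG AA DD := by
  refine ⟨?_, ?_, ?_, ?_, ?_⟩
  · intro q hq
    have := (w9 k9 q hq).1
    show (fN (iN (q : Fin 1762).val) 0 : ℤ) - 6 = 0
    rw [this]; rfl
  · intro z s h1
    obtain ⟨e2, e3⟩ := (P_some z s).1 h1
    have h := allN_spec k8 (z : Fin 1762).val (z : Fin 1762).isLt
    unfold chk8 at h
    rw [e2, Bool.not_true, Bool.false_or, Bool.and_eq_true, e3] at h
    exact h.2
  · intro q j r s h1 hu hG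
    have h := (g11 k11 q r j hu).1 (fun e => h1 ((ffail q _).2 (by rw [cx_pos]; exact e)))
    have hG' : Nat.testBit (gN (jN (dN (q : Fin 1762).val (cx (j, true)))) (nb r j).val) s.val = true :=
      hG
    rw [cx_pos] at hG'
    exact land_sub h hG'
  · intro q j r s hq hG hu
    have hu' : isup (nb r j) j = true := by rw [isup_nb, hu]; rfl
    have h := (g11 k11 q (nb r j) j hu').2 (fun e => hq ((qfail q).2 e))
    rw [nb_nb] at h
    have hG' : Nat.testBit (gN (jN (q : Fin 1762).val) r.val) s.val = true := hG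
    have h2 := h (by intro e; rw [e] at hG'; simp at hG')
    rw [ffail (q : Fin 1762), cx_neg]
    exact h2
  · intro q s hq hs hG
    have hG' : Nat.testBit (gN (jN (q : Fin 1762).val) 0) s.val = true := hG
    have h := allN_spec k11 (q : Fin 1762).val (q : Fin 1762).isLt
    unfold chk11 at h
    rw [Bool.and_eq_true, Bool.or_eq_true, Nat.beq_eq, Nat.beq_eq] at h
    have h1 := h.2.resolve_left (fun e => hq ((qfail q).2 e))
    have h2 := land_sub h1 hG'
    have h3 : Nat.testBit (uN (iN (q : Fin 1762).val)) s.val = true := by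
      have h4 : (uN (iN (q : Fin 1762).val) ||| 1).testBit s.val = true := h2
      rw [Nat.testBit_or, Bool.or_eq_true] at h4
      rcases h4 with h4 | h4
      · exact h4
      · exfalso
        rw [Nat.testBit_one_eq_true_iff_self_eq_zero] at h4
        exact hs (Fin.ext h4)
    have hs0 : s.val ≠ 0 := fun e => hs (Fin.ext e)
    have h5 := allN_spec (allN_spec kP _ (iN_lt k10 q)) s.val s.isLt
    rw [Bool.or_eq_true, Bool.or_eq_true, Nat.beq_eq] at h5
    rcases h5 with h5 | h5 | h5
    · exact absurd h5 hs0
    · rw [h3] at h5; cases h5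
    obtain ⟨c, hc, h6⟩ := List.any_eq_true.1 h5
    rw [Bool.and_eq_true] at h6
    obtain ⟨h7, h8⟩ := h6
    unfold maskok at h7
    rw [ofNat24] at h7
    refine ⟨c, List.all_eq_true.1 kT c hc, ?_, ?_, ?_⟩
    · intro t ht
      have h9 := all_posL h7 t
      have ht' : Nat.testBit c.T t.val = true := ht
      rw [ht', cond_true, Nat.beq_eq] at h9
      show (fN (iN (q : Fin 1762).val) t.val : ℤ) - 6 = plen s
      have : fN (iN (q : Fin 1762).val) t.val = 6 + plen s := h9
      omega
    · intro t ht
      have h9 := all_posL h7 t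
      have ht' : Nat.testBit c.T t.val = false := ht
      rw [ht', cond_false, Nat.blt_eq] at h9
      show (fN (iN (q : Fin 1762).val) t.val : ℤ) - 6 < plen s
      have : fN (iN (q : Fin 1762).val) t.val < 6 + plen s := h9
      omega
    · intro h23 q1 hq1 hyp
      unfold x3ok at h8
      rw [Bool.or_eq_true] at h8
      have h10 := h8.resolve_left (by rw [h23]; simp)
      have h11 := allN_spec h10 _ (iN_lt k10 (DD.μ q1))
      rw [Bool.or_eq_true] at h11
      have key : ∀ t : Fin 24, x3eq (iN (q : Fin 1762).val) (iN (DD.μ q1 : Fin 1762).val) t = true ↔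
          DD.fp (DD.μ q1) (w0 t) = DD.fp q t - DD.fp q 23 := by
        intro t
        unfold x3eq
        rw [Nat.beq_eq]
        show (fN (iN (DD.μ q1 : Fin 1762).val) (w0 t).val + fN (iN (q : Fin 1762).val) 23 =
          fN (iN (q : Fin 1762).val) t.val + 6) ↔
          (fN (iN (DD.μ q1 : Fin 1762).val) (w0 t).val : ℤ) - 6 =
          ((fN (iN (q : Fin 1762).val) t.val : ℤ) - 6) - ((fN (iN (q : Fin 1762).val) 23 : ℤ) - 6)
        omega
      rcases h11 with h11 | h11
      · exfalso
        rw [Bool.not_eq_true', ← Bool.not_eq_true, List.all_eq_true] at h11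
        apply h11
        intro t _
        rw [Bool.or_eq_true]
        by_cases hC : Nat.testBit c.C t.val = true
        · right
          exact (key t).2 (hyp t hC)
        · left
          rw [Bool.not_eq_true']
          simpa using hC
      · intro t
        exact (key t).1 (all_posL h11 t)

end

end Run7.h160
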