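import Pool.Agent.Run7.h160.Chk

namespace Run7.h160

theorem k0 : (allN chk0 1762) = true := by decide +kernel

theorem k1 : (allN chk1 1762) = true := by decide +kernel

theorem k2 : (allN chk2 1762) = true := by decide +kernel

theorem k4 : (allN chk4 1762) = true := by decide +kernel

end Run7.h160
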