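import Pool.Agent.Run7.h160.Chk

namespace Run7.h160

theorem k6 : (allN chk6 1762) = true := by decide +kernel

theorem k7 : (allN chk7 1762) = true := by decide +kernel

end Run7.h160
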