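import Pool.Agent.Run7.h160.Chk

namespace Run7.h160

theorem kP : (allN chkP 234) = true := by decide +kernel

theorem kT : (certL.all chkT) = true := by decide +kernel

end Run7.h160
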