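import Mathlib.Computability.DFA
import Pool.Agent.Run7.h160.Act
import Pool.Agent.Run7.h160.Inst3
import Pool.Agent.Run7.h160.Ker1
import Pool.Agent.Run7.h160.Ker2
import Pool.Agent.Run7.h160.Ker3
import Pool.Agent.Run7.h160.Ker4
import Pool.Agent.Run7.h160.Ker5
import Pool.Agent.Run7.h160.Alg

namespace Run7.h160

open Braid Pool.Agent.H38.NP Alg

theorem C1 : Cert1 AA := cert1 k0 k1 k2 k3 k4

theorem HAA : ∀ N, H AA N :=
  H_all C1 (cert2 k5 k6 k7 k8) (certW k9) (certM k10) (certG k8 k9 k10 k11 kP kT)

/-- the automaton as a Mathlib DFA -/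
def dfa : DFA (Fin (4 - 1) × Bool) (Fin 1762) where
  step := fun q x => AA.δ q x
  start := AA.q0
  accept := {q | q ≠ AA.fail}

theorem foldl_run (w : List X) : w.foldl (fun q x => AA.δ q x) AA.q0 = AA.run w.reverse := by
  induction w using List.reverseRecOn with
  | nil => rfl
  | append_singleton w x ih =>
    rw [List.foldl_append, ih, List.reverse_append]
    rfl

theorem dfa_accepts : dfa.accepts = {w | IsMinimal 4 w} := by
  ext w
  show w.foldl (fun q x => AA.δ q x) AA.q0 ≠ AA.fail ↔ IsMinimal 4 w
  rw [foldl_run, acc_iff C1 HAA w]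

/-- transition table as a list -/
def tabL : List ℕ := (List.range 10572).map fun k => dN (k / 6) (k % 6)

theorem tab_le : ∀ a ∈ tabL, a ≤ 1761 := by
  intro a ha
  obtain ⟨k, _, rfl⟩ := List.mem_map.1 ha
  have := dN_lt (k / 6) (k % 6)
  omega

theorem tab_get {q x : ℕ} (hq : q < 1762) (hx : x < 6) : tabL.getD (6 * q + x) 1761 = dN q x := by
  unfold tabL
  rw [List.getD_eq_getElem?_getD, List.getElem?_map, List.getElem?_range (by omega)]
  simp only [Option.map_some, Option.getD_some]
  congr 1 <;> omega

def cw (x : Fin (4 - 1) × Bool) : ℕ × Bool := (x.1.val, x.2)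

theorem fold_cw (w : List (Fin (4 - 1) × Bool)) : ∀ q : Fin 1762, (w.map cw).foldl (stepT tabL 1761) q.val =
    (w.foldl (fun q x => AA.δ q x) q : Fin 1762).val := by
  induction w with
  | nil => intro q; rfl
  | cons x w ih =>
    intro q
    have h1 : stepT tabL 1761 q.val (cw x) = (AA.δ q x : Fin 1762).val := by
      show tabL.getD (6 * q.val + (if x.2 = true then x.1.val else x.1.val + 3)) 1761 =
        dN q.val (cx x)
      have h2 : (if x.2 = true then x.1.val else x.1.val + 3) = cx x := by
        rcases x with ⟨i, b⟩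
        cases b <;> rfl
      have h3 : ∀ x : X, cx x < 6 := by decide
      rw [h2, tab_get q.isLt (h3 x)]
    rw [List.map_cons, List.foldl_cons, List.foldl_cons, h1]
    exact ih _

/-- membership in the language of codes -/
theorem dec_iff (l : List (ℕ × Bool)) :
    (∃ w : List (Fin (4 - 1) × Bool), w.map cw = l ∧ IsMinimal 4 w) ↔
      dec3 tabL 1761 l = true := by
  have key : ∀ w : List (Fin (4 - 1) × Bool), IsMinimal 4 w ↔ (w.map cw).foldl (stepT tabL 1761) 0 < 1761 := by
    intro w
    have h1 := fold_cw w ⟨0, by decide⟩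
    simp only at h1
    rw [h1, acc_iff C1 HAA w]
    have h2 : (w.foldl (fun q x => AA.δ q x) (⟨0, by decide⟩ : Fin 1762) : Fin 1762) =
      AA.run w.reverse := foldl_run w
    rw [h2]
    have h3 : (AA.run w.reverse : Fin 1762).val < 1762 := (AA.run w.reverse : Fin 1762).isLt
    have h4 := qfail (AA.run w.reverse)
    constructor
    · intro h
      have : (AA.run w.reverse : Fin 1762).val ≠ FF := fun e => h (h4.2 e)
      unfold FF at this
      omega
    · intro h e
      have := h4.1 e
      unfold FF at this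
      omega
  unfold dec3
  rw [Bool.and_eq_true, List.all_eq_true, decide_eq_true_eq]
  constructor
  · rintro ⟨w, rfl, hw⟩
    refine ⟨?_, (key w).1 hw⟩
    intro a ha
    obtain ⟨x, _, rfl⟩ := List.mem_map.1 ha
    rw [decide_eq_true_eq]
    exact x.1.isLt
  · rintro ⟨h1, h2⟩
    have : ∃ w : List (Fin (4 - 1) × Bool), w.map cw = l := by
      clear h2
      induction l with
      | nil => exact ⟨[], rfl⟩
      | cons a l ih =>
        obtain ⟨w, hw⟩ := ih (fun b hb => h1 b (List.mem_cons_of_mem _ hb))
        have ha := h1 a List.mem_cons_self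
        rw [decide_eq_true_eq] at ha
        exact ⟨(⟨a.1, ha⟩, a.2) :: w, by rw [List.map_cons, hw]; rfl⟩
    obtain ⟨w, rfl⟩ := this
    exact ⟨w, rfl, (key w).2 h2⟩

theorem min_inP : InP (MIN 4) := by
  have h := inP_lang (P := fun l : List (ℕ × Bool) =>
    ∃ w : List (Fin (4 - 1) × Bool), w.map cw = l ∧ IsMinimal 4 w)
    (dec3 tabL 1761) (pt_dec3 tabL 1761 tab_le) dec_iff
  have e : MIN 4 = lang (fun l : List (ℕ × Bool) =>
      ∃ w : List (Fin (4 - 1) × Bool), w.map cw = l ∧ IsMinimal 4 w) := by
    ext x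
    constructor
    · rintro ⟨w, h1, h2⟩
      exact ⟨_, h1, w, rfl, h2⟩
    · rintro ⟨_, h1, w, rfl, h2⟩
      exact ⟨w, h1, h2⟩
  rw [e]
  exact h

theorem nonmin_inP : InP (NONMIN 4) := by
  let d : List (ℕ × Bool) → Bool := fun l =>
    l.all (fun x => decide (x.1 < 3)) && !(dec3 tabL 1761 l)
  have hd : PT d := by
    have := pt_dec3 tabL 1761 tab_le
    have h2 : PT fun l : List (ℕ × Bool) => l.all (fun x => decide (x.1 < 3)) := by fun_prop
    exact h2.and this.not
  have h := inP_lang (P := fun l : List (ℕ × Bool) =>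
    ∃ w : List (Fin (4 - 1) × Bool), w.map cw = l ∧ ¬ IsMinimal 4 w) d hd (by
      intro l
      constructor
      · rintro ⟨w, rfl, hw⟩
        show (_ && _) = true
        rw [Bool.and_eq_true, List.all_eq_true]
        refine ⟨?_, ?_⟩
        · intro a ha
          obtain ⟨x, _, rfl⟩ := List.mem_map.1 ha
          rw [decide_eq_true_eq]
          exact x.1.isLt
        · rw [Bool.not_eq_true', ← Bool.not_eq_true]
          intro h
          obtain ⟨w', h1, h2⟩ := (dec_iff _).2 h
          have : w' = w := by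
            have hinj : Function.Injective cw := by
              rintro ⟨i, b⟩ ⟨j, c⟩ h
              simp only [cw, Prod.mk.injEq] at h
              exact Prod.ext (Fin.ext h.1) h.2
            exact List.map_injective_iff.2 hinj h1
          rw [this] at h2
          exact hw h2
      · intro h
        have h' : (l.all (fun x => decide (x.1 < 3)) && !(dec3 tabL 1761 l)) = true := h
        rw [Bool.and_eq_true, List.all_eq_true, Bool.not_eq_true', ← Bool.not_eq_true] at h'
        obtain ⟨h1, h2⟩ := h'
        have : ∃ w : List (Fin (4 - 1) × Bool), w.map cw = l := by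
          clear h2 h
          induction l with
          | nil => exact ⟨[], rfl⟩
          | cons a l ih =>
            obtain ⟨w, hw⟩ := ih (fun b hb => h1 b (List.mem_cons_of_mem _ hb))
            have ha := h1 a List.mem_cons_self
            rw [decide_eq_true_eq] at ha
            exact ⟨(⟨a.1, ha⟩, a.2) :: w, by rw [List.map_cons, hw]; rfl⟩
        obtain ⟨w, rfl⟩ := this
        refine ⟨w, rfl, fun hm => h2 ((dec_iff _).1 ⟨w, rfl, hm⟩)⟩)
  have e : NONMIN 4 = lang (fun l : List (ℕ × Bool) =>
      ∃ w : List (Fin (4 - 1) × Bool), w.map cw = l ∧ ¬ IsMinimal 4 w) := by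
    ext x
    constructor
    · rintro ⟨w, h1, h2⟩
      exact ⟨_, h1, w, rfl, h2⟩
    · rintro ⟨_, h1, w, rfl, h2⟩
      exact ⟨w, h1, h2⟩
  rw [e]
  exact h

/-- P is closed under reductions -/
theorem inP_reduces {A B : Set (List Bool)} (h : Reduces A B) (hB : InP B) : InP A := by
  obtain ⟨f, hf, h1⟩ := h
  obtain ⟨g, hg, h2⟩ := hB
  exact ⟨fun x => g (f x), Pool.Agent.H642R2.TMSim.polyTime_comp hg hf, fun x =>
    (h1 x).trans (h2 _)⟩

end Run7.h160
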