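import Pool.Agent.Run7.h160.Chk

namespace Run7.h160

theorem dN_lt (q x : ℕ) : dN q x < 1762 := Nat.mod_lt _ (by decide)
theorem pN_lt (q x : ℕ) : pN q x < 1762 := Nat.mod_lt _ (by decide)
theorem muN_lt (q : ℕ) : muN q < 1762 := Nat.mod_lt _ (by decide)

/-- the automaton with 1761 states and a failure state -/
def AA : Auto where
  Q := Fin 1762
  q0 := ⟨0, by decide⟩
  fail := ⟨1761, by decide⟩
  δ := fun (q : Fin 1762) (x : X) => ⟨dN q.val (cx x), dN_lt _ _⟩

/-- its additional data -/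
def DD : Dat AA where
  κ := fun (q : Fin 1762) => xc (kN q.val)
  P := fun (q : Fin 1762) => if sN q.val < 24 then some (Fin.ofNat 24 (sN q.val)) else none
  fp := fun (q : Fin 1762) (t : Fin 24) => (fN (iN q.val) t.val : ℤ) - 6
  μ := fun (q : Fin 1762) => ⟨muN q.val, muN_lt _⟩
  G := fun (q : Fin 1762) (r s : Fin 24) => Nat.testBit (gN (jN q.val) r.val) s.val = true

theorem cx_mem : ∀ x, cx x ∈ codes := by decide
theorem xc_cx : ∀ x, xc (cx x) = x := by decide
theorem cx_inv : ∀ x, cx (inv x) = ci (cx x) := by decide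
theorem ci_ci : ∀ x, ci (ci (cx x)) = cx x := by decide
theorem R6_map : ∀ r ∈ Rel6, r.map cx ∈ R6N := by decide
theorem R4_map : ∀ r ∈ Rel4, r.map cx ∈ R4N := by decide

theorem nbeq {a b : ℕ} : (not (Nat.beq a b)) = true ↔ a ≠ b := by
  cases h : Nat.beq a b
  · simp only [Bool.not_false, true_iff]
    intro e
    rw [← Nat.beq_eq] at e
    rw [h] at e
    cases e
  · simp only [Bool.not_true, Bool.false_eq_true, false_iff, not_not]
    rwa [Nat.beq_eq] at h

theorem beqf {a b : ℕ} : Nat.beq a b = false ↔ a ≠ b := by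
  rw [← nbeq]; simp

theorem all_codes {f : ℕ → Bool} (h : codes.all f = true) (x : X) : f (cx x) = true :=
  List.all_eq_true.1 h _ (cx_mem x)

theorem all_R6 {f : ℕ → ℕ → ℕ → ℕ → ℕ → ℕ → Bool} (h : R6N.all (m6 f) = true)
    {a b c d e g : X} (hr : [a, b, c, d, e, g] ∈ Rel6) :
    f (cx a) (cx b) (cx c) (cx d) (cx e) (cx g) = true :=
  List.all_eq_true.1 h _ (R6_map _ hr)

theorem all_R4 {f : ℕ → ℕ → ℕ → ℕ → Bool} (h : R4N.all (m4 f) = true)
    {a b c d : X} (hr : [a, b, c, d] ∈ Rel4) :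
    f (cx a) (cx b) (cx c) (cx d) = true :=
  List.all_eq_true.1 h _ (R4_map _ hr)

theorem ext1762 {a b : Fin 1762} (h : a.val = b.val) : a = b := Fin.ext h

theorem ffail (q : Fin 1762) (x : X) : AA.δ q x = AA.fail ↔ dN q.val (cx x) = FF :=
  Fin.ext_iff

theorem qfail (q : Fin 1762) : (q : AA.Q) = AA.fail ↔ q.val = FF :=
  Fin.ext_iff

section
variable (k0 : allN chk0 1762 = true) (k1 : allN chk1 1762 = true) (k2 : allN chk2 1762 = true)
  (k3 : allN chk3 1762 = true) (k4 : allN chk4 1762 = true)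

include k0 in
theorem back_N (q : Fin 1762) (x : X) : dN (dN q.val (cx x)) (ci (cx x)) = FF := by
  have h := all_codes (allN_spec k0 q.val q.isLt) x
  simp only [Bool.and_eq_true, Nat.beq_eq] at h
  exact h.1

include k0 k1 k2 k3 k4 in
theorem cert1 : Cert1 AA := by
  refine ⟨?_, ?_, ?_, ?_, ?_, ?_, ?_, ?_⟩
  · intro x
    refine ext1762 ?_
    show dN 1761 (cx x) = 1761
    revert x
    decide +kernel
  · intro h
    have := congrArg Fin.val (h : (⟨0, by decide⟩ : Fin 1762) = ⟨1761, by decide⟩)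
    exact absurd this (by decide)
  · intro x h
    rw [show AA.q0 = (⟨0, by decide⟩ : Fin 1762) from rfl, ffail] at h
    revert x
    have : ∀ x : X, ¬ (dN 0 (cx x) = FF) := by decide +kernel
    exact this
  · intro q x
    refine ext1762 ?_
    show dN (dN (q : Fin 1762).val (cx x)) (cx (inv x)) = 1761
    rw [cx_inv]
    exact back_N k0 q x
  · intro q x hq h h'
    have hh := all_codes (allN_spec k0 (q : Fin 1762).val (q : Fin 1762).isLt) x
    rw [ffail (q : Fin 1762)] at h h'
    rw [cx_inv] at h'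
    simp only [Bool.and_eq_true, Bool.or_eq_true, Nat.beq_eq, nbeq] at hh
    rcases hh.2 with h3 | h3 | h3
    · exact hq ((qfail q).2 h3)
    · exact h3 h
    · exact h3 h'
  · intro s t u u' t' s' hr q
    refine ext1762 ?_
    have h := all_R6 (allN_spec k1 (q : Fin 1762).val (q : Fin 1762).isLt) hr
    simp only [cx_inv, ci_ci, Nat.beq_eq] at h
    exact h
  · intro s t t' s' hr q
    refine ext1762 ?_
    have h := all_R4 (allN_spec k2 (q : Fin 1762).val (q : Fin 1762).isLt) hr
    simp only [cx_inv, ci_ci, Nat.beq_eq] at h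
    exact h
  · -- ladders through the canonical predecessors
    have key : ∀ s x x' s' t' t : X, [s, x, inv x', inv s', t', inv t] ∈ Rel6 →
        ∀ q1 q2 : Fin 1762, AA.δ q1 t = q2 → q2.val ≠ FF → dN q2.val (ci (cx t')) = FF →
        dN (dN q1.val (cx s)) (cx x) =
          dN (dN (pN q2.val (cx t')) (cx s')) (cx x') := by
      intro s x x' s' t' t hr q1 q2 h1 h2 h3
      have h := all_R6 (allN_spec k3 q1.val q1.isLt) hr
      simp only [cx_inv, ci_ci, Bool.or_eq_true, Nat.beq_eq, nbeq] at h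
      have e : dN q1.val (cx t) = q2.val := congrArg Fin.val h1
      rw [e] at h
      rcases h with h | h | h
      · exact absurd h h2
      · exact absurd h3 h
      · exact h
    intro s x x' s' t' t hr q1 q3 h1 h2
    refine ext1762 ?_
    show dN (dN (q1 : Fin 1762).val (cx s)) (cx x) = dN (dN (q3 : Fin 1762).val (cx s')) (cx x')
    have hq2 : (AA.δ q1 t : Fin 1762).val ≠ FF := fun h => h2 ((qfail _).2 h)
    have b1 : dN (AA.δ q1 t : Fin 1762).val (ci (cx t)) = FF := back_N k0 q1 t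
    have b3 : dN (AA.δ q1 t : Fin 1762).val (ci (cx t')) = FF := by
      rw [h1]; exact back_N k0 q3 t'
    have a1 := key s x x' s' t' t hr q1 (AA.δ q1 t) rfl hq2 b3
    have hr' : [s', x', inv x, inv s, t, inv t'] ∈ Rel6 := by
      have := mem6_rev _ hr
      have h2 : [t, inv t'] ++ [s', x', inv x, inv s] ∈ Rel6 := by simpa [rev] using this
      exact mem6_rot _ _ h2
    have a3 := key s' x' x s t t' hr' q3 (AA.δ q1 t) h1.symm hq2 b1
    have p1 := all_codes (allN_spec k4 (AA.δ q1 t : Fin 1762).val (AA.δ q1 t : Fin 1762).isLt) t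
    simp only [Bool.or_eq_true, Nat.beq_eq, nbeq] at p1
    have p1' := (p1.resolve_left hq2).resolve_left (fun h => h b1)
    have a2 := key s x x' s' t' t hr ⟨pN (AA.δ q1 t : Fin 1762).val (cx t), pN_lt _ _⟩
      (AA.δ q1 t) (ext1762 p1') hq2 b3
    rw [a1, a3]
    exact a2.symm

end

theorem P_none (q : Fin 1762) : DD.P q = none ↔ isPN q.val = false := by
  show (if sN q.val < 24 then some (Fin.ofNat 24 (sN q.val)) else none) = none ↔ _
  unfold isPN
  by_cases h : sN q.val < 24
  · rw [if_pos h]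
    have : Nat.blt (sN q.val) 24 = true := by rw [Nat.blt_eq]; exact h
    simp [this]
  · rw [if_neg h]
    have : Nat.blt (sN q.val) 24 = false := by
      rw [Bool.eq_false_iff]; intro h'; rw [Nat.blt_eq] at h'; exact h h'
    simp [this]

theorem P_some (q : Fin 1762) (s : Fin 24) : DD.P q = some s ↔
    (isPN q.val = true ∧ sN q.val = s.val) := by
  show (if sN q.val < 24 then some (Fin.ofNat 24 (sN q.val)) else none) = some s ↔ _
  unfold isPN
  by_cases h : sN q.val < 24
  · rw [if_pos h]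
    have h' : Nat.blt (sN q.val) 24 = true := by rw [Nat.blt_eq]; exact h
    rw [h']
    simp only [Option.some.injEq, true_and]
    constructor
    · intro e
      rw [← e]
      show sN q.val = (sN q.val) % 24
      rw [Nat.mod_eq_of_lt h]
    · intro e
      apply Fin.ext
      show (sN q.val) % 24 = s.val
      rw [Nat.mod_eq_of_lt h, e]
  · rw [if_neg h]
    have : Nat.blt (sN q.val) 24 = false := by
      rw [Bool.eq_false_iff]; intro h'; rw [Nat.blt_eq] at h'; exact h h'
    simp [this]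

/-- heads of arcs -/
theorem hd_spec : ∀ x y : X, ∀ a ∈ hd.getD (6 * cx x + cx y) [],
    (∃ r ∈ Rel6, r.head?.map cx = some a ∧ r.drop 4 = [y, inv x]) ∨
    (∃ r ∈ Rel4, r.head?.map cx = some a ∧ r.drop 2 = [y, inv x]) := by decide

theorem hd_spec6 : ∀ r ∈ Rel6, ∀ a ∈ r.head?, ∀ y ∈ (r.drop 4).head?, ∀ x ∈ (r.drop 5).head?,
    cx a ∈ hd.getD (6 * cx (inv x) + cx y) [] := by decide

theorem hd_spec4 : ∀ r ∈ Rel4, ∀ a ∈ r.head?, ∀ y ∈ (r.drop 2).head?, ∀ x ∈ (r.drop 3).head?,
    cx a ∈ hd.getD (6 * cx (inv x) + cx y) [] := by decide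

theorem sq_spec : ∀ r ∈ Rel4, ∀ a ∈ r.head?, ∀ y ∈ (r.drop 2).head?, ∀ x ∈ (r.drop 3).head?,
    sqB (cx (inv x)) (cx y) = true ∧ cx a = ci (cx y) := by decide

theorem av_iff (q : Fin 1762) (x y : X) : av AA q x y ↔ avN q.val (cx x) (cx y) = true := by
  unfold avN
  rw [List.any_eq_true]
  constructor
  · rintro (⟨a, b, c, d, h, ha⟩ | ⟨a, b, h, ha⟩)
    · refine ⟨cx a, ?_, ?_⟩
      · have := hd_spec6 _ h a rfl y rfl (inv x) rfl
        rwa [inv_inv] at this
      · rw [Nat.beq_eq]; exact (ffail q a).1 ha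
    · refine ⟨cx a, ?_, ?_⟩
      · have := hd_spec4 _ h a rfl y rfl (inv x) rfl
        rwa [inv_inv] at this
      · rw [Nat.beq_eq]; exact (ffail q a).1 ha
  · rintro ⟨a, ha, hf⟩
    rw [Nat.beq_eq] at hf
    rcases hd_spec x y a ha with ⟨r, hr, h1, h2⟩ | ⟨r, hr, h1, h2⟩
    · left
      have hl := len6 r hr
      obtain ⟨α, hα⟩ : ∃ α, r = α ++ [y, inv x] := ⟨r.take 4, by rw [← h2]; simp⟩
      obtain ⟨a', b, c, d, rfl⟩ := len_eq4 (α := α) (by rw [hα] at hl; simpa using hl)
      subst hα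
      refine ⟨a', b, c, d, hr, ?_⟩
      rw [ffail]
      simp only [List.cons_append, List.head?_cons, Option.map_some, Option.some.injEq] at h1
      rw [h1]; exact hf
    · right
      have hl := len4 r hr
      obtain ⟨α, hα⟩ : ∃ α, r = α ++ [y, inv x] := ⟨r.take 2, by rw [← h2]; simp⟩
      obtain ⟨a', b, rfl⟩ := len_eq2 (α := α) (by rw [hα] at hl; simpa using hl)
      subst hα
      refine ⟨a', b, hr, ?_⟩
      rw [ffail]
      simp only [List.cons_append, List.head?_cons, Option.map_some, Option.some.injEq] at h1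
      rw [h1]; exact hf

end Run7.h160
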