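import Pool.Agent.Run7.h160.Inst

namespace Run7.h160

theorem k12 : allN (fun q => Nat.blt (kN q) 6) 1762 = true := by decide +kernel

theorem cx_xc : ∀ k < 6, cx (xc k) = k := by decide

theorem kap_iff (q : Fin 1762) (x : X) : x = DD.κ q ↔ cx x = kN q.val := by
  show x = xc (kN q.val) ↔ _
  have h := allN_spec k12 q.val q.isLt
  simp only [Nat.blt_eq] at h
  constructor
  · rintro rfl
    exact cx_xc _ h
  · intro e
    rw [← e, xc_cx]

theorem cx_inj {x y : X} (h : cx x = cx y) : x = y := by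
  rw [← xc_cx x, h, xc_cx]

section
variable (k5 : allN chk5 1762 = true) (k6 : allN chk6 1762 = true) (k7 : allN chk7 1762 = true)
  (k8 : allN chk8 1762 = true)

include k5 in
theorem c5x (q : Fin 1762) (x y : X) (h1 : AA.δ q x ≠ AA.fail) (h2 : DD.P (AA.δ q x) = none)
    (h3 : AA.δ (AA.δ q x) (inv y) = AA.fail) :
    dN (dN q.val (cx x)) (ci (kN (dN q.val (cx x)))) = FF ∧
    (y ≠ x → (sqB (cx x) (cx y) = true → dN q.val (ci (cx y)) = FF) ∧
      ((x = DD.κ (AA.δ q x) ∨ y = DD.κ (AA.δ q x)) ↔ av AA q x y)) := by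
  have h := all_codes (allN_spec k5 q.val q.isLt) x
  rw [Bool.or_eq_true, Bool.or_eq_true, Nat.beq_eq] at h
  have e1 : dN q.val (cx x) ≠ FF := fun e => h1 ((ffail q x).2 e)
  have e2 : isPN (dN q.val (cx x)) = false := (P_none (AA.δ q x)).1 h2
  rcases h with h | h | h
  · exact absurd h e1
  · rw [e2] at h; cases h
  rw [Bool.and_eq_true, Nat.beq_eq] at h
  refine ⟨h.1, ?_⟩
  intro hyx
  have h4 := all_codes h.2 y
  rw [Bool.or_eq_true, Bool.or_eq_true, Nat.beq_eq, nbeq] at h4
  have e3 : dN (dN q.val (cx x)) (ci (cx y)) = FF := by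
    have := (ffail (AA.δ q x) (inv y)).1 h3
    rwa [cx_inv] at this
  have h5 := (h4.resolve_left (fun e => hyx (cx_inj e))).resolve_left (fun h => h e3)
  rw [Bool.and_eq_true] at h5
  refine ⟨?_, ?_⟩
  · intro hs
    have := h5.1
    rw [hs, Bool.not_true, Bool.false_or, Nat.beq_eq] at this
    exact this
  · rw [kap_iff, kap_iff, av_iff]
    show (cx x = kN (dN q.val (cx x)) ∨ cx y = kN (dN q.val (cx x))) ↔ _
    have h6 := h5.2
    by_cases hk : (Nat.beq (cx x) (kN (dN q.val (cx x))) || Nat.beq (cx y) (kN (dN q.val (cx x)))) = true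
    · rw [hk, cond_true] at h6
      rw [Bool.or_eq_true, Nat.beq_eq, Nat.beq_eq] at hk
      exact ⟨fun _ => h6, fun _ => hk⟩
    · rw [Bool.not_eq_true] at hk
      rw [hk, cond_false, Bool.not_eq_true'] at h6
      rw [h6]
      constructor
      · intro h7
        exfalso
        rw [Bool.or_eq_false_iff, beqf, beqf] at hk
        rcases h7 with h7 | h7
        · exact hk.1 h7
        · exact hk.2 h7
      · intro h7; cases h7

include k5 k6 k7 k8 in
theorem cert2 : Cert2 AA DD := by
  refine ⟨?_, ?_, ?_, ?_, ?_, ?_, ?_, ?_⟩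
  · intro q x y h1 h2 h3 h4 h5
    exact ((c5x k5 q x y h1 h2 h3).2 h4).2.2 h5
  · intro q x y h1 h2 h3 h4 h5
    exact ((c5x k5 q x y h1 h2 h3).2 h4).2.1 h5
  · intro q x y h1 h2 h3 a b hr
    have hyx : y ≠ x := arc_ne' (α := [a, b]) (List.mem_append_right _ hr)
    obtain ⟨s1, s2⟩ := sq_spec _ hr a rfl y rfl (inv x) rfl
    rw [inv_inv] at s1
    rw [ffail (q : Fin 1762), s2]
    exact ((c5x k5 q x y h1 h2 h3).2 hyx).1 s1
  · intro q x h1 h2
    have h := all_codes (allN_spec k5 (q : Fin 1762).val (q : Fin 1762).isLt) x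
    rw [Bool.or_eq_true, Bool.or_eq_true, Nat.beq_eq] at h
    have e1 : dN (q : Fin 1762).val (cx x) ≠ FF := fun e => h1 ((ffail q x).2 e)
    have e2 : isPN (dN (q : Fin 1762).val (cx x)) = false := (P_none (AA.δ q x)).1 h2
    rcases h with h | h | h
    · exact absurd h e1
    · rw [e2] at h; cases h
    rw [Bool.and_eq_true, Nat.beq_eq] at h
    rw [ffail (AA.δ q x), cx_inv]
    have hk : cx (DD.κ (AA.δ q x)) = kN (dN (q : Fin 1762).val (cx x)) :=
      (kap_iff (AA.δ q x) _).1 rfl
    rw [hk]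
    exact h.1
  · intro q1 x y a b c d hr h1 h2 h3
    have h := all_R6 (allN_spec k6 (q1 : Fin 1762).val (q1 : Fin 1762).isLt) hr
    simp only [cx_inv, ci_ci] at h
    rw [Bool.or_eq_true, Bool.or_eq_true, Bool.or_eq_true, Nat.beq_eq, nbeq, Nat.beq_eq] at h
    have e0 : (AA.δ q1 (inv a) : Fin 1762).val = dN (q1 : Fin 1762).val (ci (cx a)) := by
      show dN _ (cx (inv a)) = _
      rw [cx_inv]
    have e1 : dN (dN (q1 : Fin 1762).val (ci (cx a))) (cx x) ≠ FF := by
      intro e
      apply h1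
      rw [ffail (AA.δ q1 (inv a)), e0]
      exact e
    have e2 : isPN (dN (dN (q1 : Fin 1762).val (ci (cx a))) (cx x)) = false := by
      have := (P_none (AA.δ (AA.δ q1 (inv a)) x)).1 h2
      have e3 : (AA.δ (AA.δ q1 (inv a)) x : Fin 1762).val =
        dN (dN (q1 : Fin 1762).val (ci (cx a))) (cx x) := by
        show dN (AA.δ q1 (inv a) : Fin 1762).val (cx x) = _
        rw [e0]
      rwa [e3] at this
    have e3 : dN (dN (dN (q1 : Fin 1762).val (ci (cx a))) (cx x)) (ci (cx y)) = FF := by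
      have := (ffail (AA.δ (AA.δ q1 (inv a)) x) (inv y)).1 h3
      rw [cx_inv] at this
      have e4 : (AA.δ (AA.δ q1 (inv a)) x : Fin 1762).val =
        dN (dN (q1 : Fin 1762).val (ci (cx a))) (cx x) := by
        show dN (AA.δ q1 (inv a) : Fin 1762).val (cx x) = _
        rw [e0]
      rwa [e4] at this
    rcases h with h | h | h | h
    · exact absurd h e1
    · rw [e2] at h; cases h
    · exact absurd e3 h
    · exact (ffail (AA.δ q1 b) c).2 h
  · intro q x y a b c d hr h1 h2 h3 h4
    have h := all_R6 (allN_spec k7 (q : Fin 1762).val (q : Fin 1762).isLt) hr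
    simp only [cx_inv, ci_ci] at h
    rw [Bool.or_eq_true, Bool.or_eq_true, Nat.beq_eq, nbeq] at h
    have e2 : isPN (dN (q : Fin 1762).val (cx x)) = false := (P_none (AA.δ q x)).1 h3
    rcases h with h | h | h
    · exact absurd ((ffail q x).2 h) h1
    · exfalso
      apply h
      have := (ffail (AA.δ q x) (inv y)).1 h2
      rwa [cx_inv] at this
    · rw [e2, cond_false, Bool.or_eq_true, Nat.beq_eq, nbeq] at h
      rcases h with h | h
      · exact absurd ((ffail q a).2 h) h4
      · intro h5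
        exact h ((ffail (AA.δ q a) b).1 h5)
  · intro q x y a b c d hr h1 h2 s h3 h4
    have h := all_R6 (allN_spec k7 (q : Fin 1762).val (q : Fin 1762).isLt) hr
    simp only [cx_inv, ci_ci] at h
    rw [Bool.or_eq_true, Bool.or_eq_true, Nat.beq_eq, nbeq] at h
    obtain ⟨e2, e3⟩ := (P_some (AA.δ q x) s).1 h3
    have e2' : isPN (dN (q : Fin 1762).val (cx x)) = true := e2
    have e3' : sN (dN (q : Fin 1762).val (cx x)) = s.val := e3
    rcases h with h | h | h
    · exact absurd ((ffail q x).2 h) h1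
    · exfalso
      apply h
      have := (ffail (AA.δ q x) (inv y)).1 h2
      rwa [cx_inv] at this
    · rw [e2', cond_true, Bool.or_eq_true, nbeq] at h
      rcases h with h | h
      · intro h5
        exact h ((ffail (AA.δ q a) b).1 h5)
      · exfalso
        apply h4
        unfold pathB at h
        rw [decide_eq_true_eq, e3', xc_cx, xc_cx, xc_cx, xc_cx, xc_cx, xc_cx] at h
        have e4 : Fin.ofNat 24 s.val = s := Fin.ext (Nat.mod_eq_of_lt s.isLt)
        rw [e4] at h
        exact h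
  · intro z s h1 i
    obtain ⟨e2, e3⟩ := (P_some z s).1 h1
    have h := allN_spec k8 (z : Fin 1762).val (z : Fin 1762).isLt
    unfold chk8 at h
    rw [e2, Bool.not_true, Bool.false_or, Bool.and_eq_true, e3] at h
    have h2 := all_genL h.1 i
    rw [Nat.beq_eq] at h2
    have e4 : Fin.ofNat 24 s.val = s := Fin.ext (Nat.mod_eq_of_lt s.isLt)
    rw [e4] at h2
    exact (ffail z _).2 h2

end

theorem LM_spec : ∀ i u, plen (quo (nb 0 i) u) = plen u + 1 →
    (i.val, u.val, (quo (nb 0 i) u).val) ∈ LMl := by decide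

theorem cx_pos : ∀ i : Fin 3, cx (i, true) = i.val := by decide
theorem cx_neg : ∀ i : Fin 3, cx (i, false) = i.val + 3 := by decide

section
variable (k9 : allN chk9 1762 = true) (k10 : allN chk10 1762 = true)

include k9 in
theorem w9 (q : Fin 1762) (hq : q ≠ AA.fail) : fN (iN q.val) 0 = 6 ∧
    (∀ i : Fin 3, (dN q.val i.val = FF → fN (iN q.val) (nb 0 i).val = 5) ∧
      (dN q.val i.val ≠ FF → fN (iN q.val) (nb 0 i).val = 7)) ∧
    (∀ i u, plen (quo (nb 0 i) u) = plen u + 1 →
      (dN q.val i.val ≠ FF → fN (iN (dN q.val i.val)) u.val + 1 = fN (iN q.val) (quo (nb 0 i) u).val) ∧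
      (dN q.val (i.val + 3) ≠ FF →
        fN (iN q.val) u.val = fN (iN (dN q.val (i.val + 3))) (quo (nb 0 i) u).val + 1)) := by
  have h := allN_spec k9 q.val q.isLt
  unfold chk9 at h
  have hq' : q.val ≠ FF := fun e => hq ((qfail q).2 e)
  rw [Bool.or_eq_true, Nat.beq_eq] at h
  replace h := h.resolve_left hq'
  rw [Bool.and_eq_true, Bool.and_eq_true, Bool.and_eq_true, Bool.and_eq_true, Nat.beq_eq] at h
  obtain ⟨⟨h0, h1, h2, h3⟩, h4⟩ := h
  refine ⟨h0, ?_, ?_⟩
  · have key : ∀ a b : ℕ, (cond (Nat.beq a FF) (Nat.beq b 5) (Nat.beq b 7)) = true →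
        (a = FF → b = 5) ∧ (a ≠ FF → b = 7) := by
      intro a b h
      constructor
      · intro e
        rw [(by rw [Nat.beq_eq]; exact e : Nat.beq a FF = true), cond_true, Nat.beq_eq] at h
        exact h
      · intro e
        rw [beqf.2 e, cond_false, Nat.beq_eq] at h
        exact h
    intro i
    fin_cases i
    · exact key _ _ h1
    · exact key _ _ h2
    · exact key _ _ h3
  · intro i u hl
    have h5 := List.all_eq_true.1 h4 _ (LM_spec i u hl)
    rw [Bool.and_eq_true, Bool.or_eq_true, Bool.or_eq_true, Nat.beq_eq, Nat.beq_eq, Nat.beq_eq,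
      Nat.beq_eq] at h5
    exact ⟨fun h => h5.1.resolve_left h, fun h => h5.2.resolve_left h⟩

include k9 in
theorem certW : CertW AA DD := by
  refine ⟨?_, ?_, ?_, ?_⟩
  · intro q i hq h
    have := ((w9 k9 q hq).2.1 i).2 (fun e => h ((ffail q _).2 (by rw [cx_pos]; exact e)))
    show (fN (iN (q : Fin 1762).val) (nb 0 i).val : ℤ) - 6 = 1
    rw [this]; rfl
  · intro q i hq h
    have := ((w9 k9 q hq).2.1 i).1 (by rw [ffail (q : Fin 1762), cx_pos] at h; exact h)
    show (fN (iN (q : Fin 1762).val) (nb 0 i).val : ℤ) - 6 = -1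
    rw [this]; rfl
  · intro q i u hq hl h
    have := ((w9 k9 q hq).2.2 i u hl).1 (fun e => h ((ffail q _).2 (by rw [cx_pos]; exact e)))
    show (fN (iN (dN (q : Fin 1762).val (cx (i, true)))) u.val : ℤ) - 6 =
      ((fN (iN (q : Fin 1762).val) (quo (nb 0 i) u).val : ℤ) - 6) - 1
    rw [cx_pos]
    omega
  · intro q i u hq hl h
    have := ((w9 k9 q hq).2.2 i u hl).2 (fun e => h ((ffail q _).2 (by rw [cx_neg]; exact e)))
    show (fN (iN (q : Fin 1762).val) u.val : ℤ) - 6 =
      ((fN (iN (dN (q : Fin 1762).val (cx (i, false)))) (quo (nb 0 i) u).val : ℤ) - 6) + 1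
    rw [cx_neg]
    omega

include k10 in
theorem certM : CertM AA DD := by
  have key : ∀ q : Fin 1762, (∀ x : X, muN (dN q.val (cx x)) = dN (muN q.val) (ci (cx x))) ∧
      muN (muN q.val) = q.val ∧ iN q.val < 234 ∧
      (isPN q.val = true → sN (muN q.val) = (w0 (Fin.ofNat 24 (sN q.val))).val) ∧
      (isPN q.val = false → isPN (muN q.val) = false) := by
    intro q
    have h := allN_spec k10 q.val q.isLt
    unfold chk10 at h
    rw [Bool.and_eq_true, Bool.and_eq_true, Bool.and_eq_true, Nat.beq_eq, Nat.blt_eq] at h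
    obtain ⟨h1, h2, h3, h4⟩ := h
    refine ⟨?_, h2, h3, ?_, ?_⟩
    · intro x
      have := all_codes h1 x
      rwa [Nat.beq_eq] at this
    · intro e
      rw [e, cond_true, Nat.beq_eq] at h4
      exact h4
    · intro e
      rw [e, cond_false, Bool.not_eq_true'] at h4
      exact h4
  refine ⟨?_, ?_, ?_, ?_, ?_⟩
  · refine ext1762 ?_
    show muN 1761 = 1761
    decide +kernel
  · refine ext1762 ?_
    show muN 0 = 0
    decide +kernel
  · intro q x
    refine ext1762 ?_
    show muN (dN (q : Fin 1762).val (cx x)) = dN (muN (q : Fin 1762).val) (cx (inv x))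
    rw [cx_inv]
    exact (key q).1 x
  · intro q
    refine ext1762 ?_
    exact (key q).2.1
  · intro q
    rcases hP : DD.P q with _ | s
    · have h1 := (P_none q).1 hP
      have h2 := (key q).2.2.2.2 h1
      have : DD.P (DD.μ q) = none := (P_none (DD.μ q)).2 h2
      rw [this]; rfl
    · obtain ⟨h1, h2⟩ := (P_some q s).1 hP
      have h3 := (key q).2.2.2.1 h1
      rw [h2] at h3
      have e4 : Fin.ofNat 24 s.val = s := Fin.ext (Nat.mod_eq_of_lt s.isLt)
      rw [e4] at h3
      refine (P_some (DD.μ q) (w0 s)).2 ⟨?_, h3⟩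
      show isPN (muN (q : Fin 1762).val) = true
      unfold isPN
      rw [h3, Nat.blt_eq]
      exact (w0 s).isLt

end

end Run7.h160
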