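import Pool.Agent.Run7.h160.Mirror

namespace Run7.h160

def posL : List (Fin 24) :=
  [0, 1, 2, 3, 4, 5, 6, 7, 8, 9, 10, 11, 12, 13, 14, 15, 16, 17, 18, 19, 20, 21, 22, 23]
def genL : List (Fin 3) := [0, 1, 2]

theorem mem_posL : ∀ t, t ∈ posL := by decide
theorem mem_genL : ∀ i, i ∈ genL := by decide

/-- a face at the top avoiding T -/
def faceok (T : ℕ) (τ : Fin 24) (i j : Fin 3) : Bool :=
  let α := altw (nb τ i) j i (if adj i j then 4 else 2)
  decide (wlkA T (nb τ i) α = some (nb τ j)) &&
    decide (α ++ [letter (nb τ j) j, inv (letter (nb τ i) i)] ∈ Rels)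

def faces2 (T : ℕ) (τ : Fin 24) : Bool :=
  (faceok T τ 0 1 && faceok T τ 1 2) || (faceok T τ 0 1 && faceok T τ 0 2) ||
    (faceok T τ 0 2 && faceok T τ 1 2)

variable {A : Auto} {D : Dat A}

theorem wlkA_start {T : ℕ} {t t' : Fin 24} {α : List X} (h : wlkA T t α = some t') :
    T.testBit t.val = false := by
  cases α with
  | nil =>
    unfold wlkA at h
    by_contra hc
    rw [if_neg hc] at h; cases h
  | cons l α =>
    unfold wlkA at h
    by_contra hc
    rw [if_neg (fun h' => hc h'.2)] at h; cases h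

theorem wlkA_wk {N T : ℕ} {ν' : Fin 24 → V A}
    (hA : ∀ t : Fin 24, T.testBit t.val = false → (ν' t).ok ∧ (ν' t).lev ≤ N)
    (hB : ∀ (t : Fin 24) i, isup t i = true → T.testBit t.val = false →
      T.testBit (nb t i).val = false → Mv (i, true) (ν' t) (ν' (nb t i)))
    {α : List X} : ∀ {t t' : Fin 24}, wlkA T t α = some t' → Wk N (ν' t) α (ν' t') := by
  induction α with
  | nil =>
    intro t t' h
    have h0 := wlkA_start h
    unfold wlkA at h
    rw [if_pos h0] at h
    cases h
    exact ⟨rfl, (hA t h0).1, (hA t h0).2⟩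
  | cons l α ih =>
    intro t t' h
    have h0 := wlkA_start h
    unfold wlkA at h
    by_cases hc : letter t l.1 = l ∧ T.testBit t.val = false
    swap
    · rw [if_neg hc] at h; cases h
    rw [if_pos hc] at h
    have h1 := wlkA_start h
    refine ⟨(hA t h0).2, _, ?_, ih h⟩
    obtain ⟨hl, _⟩ := hc
    rcases l with ⟨i, b⟩
    simp only [letter, Prod.mk.injEq, true_and] at hl
    cases b
    · have hu : isup (nb t i) i = true := by rw [isup_nb, hl]; rfl
      have := hB (nb t i) i hu h1 (by rw [nb_nb]; exact h0)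
      rw [nb_nb] at this
      exact this.symm
    · exact hB t i hl h0 h1

theorem assemble (C : Cert1 A) {N T : ℕ} {ν' : Fin 24 → V A}
    (hA : ∀ t : Fin 24, T.testBit t.val = false → (ν' t).ok ∧ (ν' t).lev ≤ N)
    (hB : ∀ (t : Fin 24) i, isup t i = true → T.testBit t.val = false →
      T.testBit (nb t i).val = false → Mv (i, true) (ν' t) (ν' (nb t i)))
    (hC : ∀ τ : Fin 24, T.testBit τ.val = true → ∀ i, T.testBit (nb τ i).val = false ∧
      (ν' (nb τ i)).lev = N ∧ ((ν' (nb τ i)).up (letter (nb τ i) i)).ok)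
    (hF : ∀ τ : Fin 24, T.testBit τ.val = true → faces2 T τ = true) :
    ∃ ν : Fin 24 → V A, (∀ t : Fin 24, T.testBit t.val = false → ν t = ν' t) ∧
      (∀ t i, isup t i = true → Mv (i, true) (ν t) (ν (nb t i))) ∧ ∀ t, (ν t).lev ≤ N + 1 := by
  have face : ∀ τ : Fin 24, T.testBit τ.val = true → ∀ i j, faceok T τ i j = true →
      (ν' (nb τ i)).up (letter (nb τ i) i) = (ν' (nb τ j)).up (letter (nb τ j) j) := by
    intro τ hτ i j hf
    unfold faceok at hf
    simp only [Bool.and_eq_true, decide_eq_true_eq] at hf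
    obtain ⟨h1, h2⟩ := hf
    have h3 := wlkA_wk hA hB h1
    exact Lk_eq C (hC τ hτ i).2.1 (hC τ hτ i).2.2 h2 h3
  have all : ∀ τ : Fin 24, T.testBit τ.val = true → ∀ i,
      (ν' (nb τ i)).up (letter (nb τ i) i) = (ν' (nb τ 0)).up (letter (nb τ 0) 0) := by
    intro τ hτ
    have h := hF τ hτ
    unfold faces2 at h
    simp only [Bool.or_eq_true, Bool.and_eq_true] at h
    have key : (ν' (nb τ 1)).up (letter (nb τ 1) 1) = (ν' (nb τ 0)).up (letter (nb τ 0) 0) ∧
        (ν' (nb τ 2)).up (letter (nb τ 2) 2) = (ν' (nb τ 0)).up (letter (nb τ 0) 0) := by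
      rcases h with (⟨h1, h2⟩ | ⟨h1, h2⟩) | ⟨h1, h2⟩
      · have f1 := face τ hτ _ _ h1
        have f2 := face τ hτ _ _ h2
        exact ⟨f1.symm, f2.symm.trans f1.symm⟩
      · have f1 := face τ hτ _ _ h1
        have f2 := face τ hτ _ _ h2
        exact ⟨f1.symm, f2.symm⟩
      · have f1 := face τ hτ _ _ h1
        have f2 := face τ hτ _ _ h2
        exact ⟨f2.trans f1.symm, f1.symm⟩
    intro i
    fin_cases i
    · rfl
    · exact key.1
    · exact key.2
  refine ⟨fun t => if T.testBit t.val = true then (ν' (nb t 0)).up (letter (nb t 0) 0) else ν' t,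
    ?_, ?_, ?_⟩
  · intro t ht
    simp [ht]
  · intro t i hu
    by_cases h1 : T.testBit t.val = true
    · have h2 := (hC t h1 i).1
      simp only [h1, h2, if_true, if_false, Bool.false_eq_true]
      rw [← all t h1 i]
      have hl : letter (nb t i) i = (i, false) := by
        simp [letter, isup_nb, hu]
      rw [hl]
      refine ⟨?_, (hA _ h2).1, Or.inr rfl⟩
      have := (hC t h1 i).2.2
      rwa [hl] at this
    · have h1' : T.testBit t.val = false := by simpa using h1
      by_cases h2 : T.testBit (nb t i).val = true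
      · simp only [h1', h2, if_true, if_false, Bool.false_eq_true]
        rw [← all _ h2 i, nb_nb]
        have hl : letter t i = (i, true) := by simp [letter, hu]
        rw [hl]
        refine ⟨(hA _ h1').1, ?_, Or.inl rfl⟩
        have := (hC _ h2 i).2.2
        rwa [nb_nb, hl] at this
      · have h2' : T.testBit (nb t i).val = false := by simpa using h2
        simp only [h1', h2', if_false, Bool.false_eq_true]
        exact hB t i hu h1' h2'
  · intro t
    by_cases h1 : T.testBit t.val = true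
    · simp only [h1, if_true]
      rw [V.lev_up, (hC t h1 0).2.1]
    · have h1' : T.testBit t.val = false := by simpa using h1
      simp only [h1', if_false, Bool.false_eq_true]
      have := (hA t h1').2
      omega

/-- certificate for a set of tops -/
structure TC where
  T : ℕ
  T' : ℕ
  C : ℕ
  p0 : List Ins
  p1 : List Ins

def chkS (c : TC) (S0 E0 S1 E1 : ℕ) : Bool :=
  !(c.T.testBit 0) && S0.testBit 0 &&
  posL.all (fun t => c.T'.testBit (w0 t).val == c.T.testBit t.val) &&
  posL.all (fun t => c.T.testBit t.val || S0.testBit t.val || S1.testBit (w0 t).val) &&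
  posL.all (fun t => genL.all (fun i => !(isup t i) || c.T.testBit t.val ||
    c.T.testBit (nb t i).val || E0.testBit (ec t i) || E1.testBit (ec (w0 (nb t i)) i))) &&
  posL.all (fun t => c.C.testBit t.val == (S0.testBit t.val && S1.testBit (w0 t).val)) &&
  posL.all (fun t => decide (t = 23) || !(c.C.testBit t.val) || genL.any (fun i => isup t i &&
    c.C.testBit (nb t i).val && E0.testBit (ec t i) && E1.testBit (ec (w0 (nb t i)) i))) &&
  (c.T.testBit 23 || S0.testBit 23) &&
  posL.all (fun τ => !(c.T.testBit τ.val) || genL.all (fun i => !(c.T.testBit (nb τ i).val) &&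
    (if isup τ i then S1.testBit (w0 (nb τ i)).val else S0.testBit (nb τ i).val))) &&
  posL.all (fun τ => !(c.T.testBit τ.val) || faces2 c.T τ)

def chkT (c : TC) : Bool :=
  let r0 := mrun c.T c.p0 (1, 0)
  let r1 := if c.T.testBit 23 then (0, 0) else mrun c.T' c.p1 (1, 0)
  chkS c r0.1 r0.2 r1.1 r1.2

structure ChkS (c : TC) (S0 E0 S1 E1 : ℕ) : Prop where
  a1 : c.T.testBit 0 = false
  a2 : S0.testBit 0 = true
  a3 : ∀ t : Fin 24, c.T'.testBit (w0 t).val = c.T.testBit t.val
  a4 : ∀ t : Fin 24, c.T.testBit t.val = false → S0.testBit t.val = true ∨ S1.testBit (w0 t).val = true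
  a5 : ∀ (t : Fin 24) (i : Fin 3), isup t i = true → c.T.testBit t.val = false →
    c.T.testBit (nb t i).val = false →
    E0.testBit (ec t i) = true ∨ E1.testBit (ec (w0 (nb t i)) i) = true
  a6 : ∀ t : Fin 24, c.C.testBit t.val = true ↔ (S0.testBit t.val = true ∧ S1.testBit (w0 t).val = true)
  a7 : ∀ t : Fin 24, t ≠ 23 → c.C.testBit t.val = true → ∃ i, isup t i = true ∧
    c.C.testBit (nb t i).val = true ∧ E0.testBit (ec t i) = true ∧
    E1.testBit (ec (w0 (nb t i)) i) = true
  a8 : c.T.testBit 23 = false → S0.testBit 23 = true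
  a9 : ∀ τ : Fin 24, c.T.testBit τ.val = true → ∀ i, c.T.testBit (nb τ i).val = false ∧
    (isup τ i = true → S1.testBit (w0 (nb τ i)).val = true) ∧
    (isup τ i = false → S0.testBit (nb τ i).val = true)
  a10 : ∀ τ : Fin 24, c.T.testBit τ.val = true → faces2 c.T τ = true

theorem all_posL {f : Fin 24 → Bool} (h : posL.all f = true) (t : Fin 24) : f t = true :=
  List.all_eq_true.1 h t (mem_posL t)

theorem all_genL {f : Fin 3 → Bool} (h : genL.all f = true) (t : Fin 3) : f t = true :=
  List.all_eq_true.1 h t (mem_genL t)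

theorem chkS_spec {c : TC} {S0 E0 S1 E1 : ℕ} (h : chkS c S0 E0 S1 E1 = true) :
    ChkS c S0 E0 S1 E1 := by
  unfold chkS at h
  simp only [Bool.and_eq_true] at h
  obtain ⟨⟨⟨⟨⟨⟨⟨⟨⟨h1, h2⟩, h3⟩, h4⟩, h5⟩, h6⟩, h7⟩, h8⟩, h9⟩, h10⟩ := h
  refine ⟨by simpa using h1, h2, ?_, ?_, ?_, ?_, ?_, ?_, ?_, ?_⟩
  · intro t; simpa using all_posL h3 t
  · intro t ht
    have := all_posL h4 t
    simp only [ht, Bool.false_or, Bool.or_eq_true] at this
    exact this
  · intro t i hu h1 h2
    have := all_genL (all_posL h5 t) i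
    simp only [hu, h1, h2, Bool.not_true, Bool.false_or, Bool.or_eq_true] at this
    exact this
  · intro t
    have := all_posL h6 t
    rw [beq_iff_eq] at this
    rw [this, Bool.and_eq_true]
  · intro t ht hC
    have := all_posL h7 t
    simp only [ht, hC, decide_false, Bool.not_true, Bool.false_or] at this
    obtain ⟨i, _, hi⟩ := List.any_eq_true.1 this
    simp only [Bool.and_eq_true] at hi
    exact ⟨i, hi.1.1.1, hi.1.1.2, hi.1.2, hi.2⟩
  · intro ht
    simp only [ht, Bool.false_or] at h8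
    exact h8
  · intro τ hτ i
    have := all_posL h9 τ
    simp only [hτ, Bool.not_true, Bool.false_or] at this
    have := all_genL this i
    simp only [Bool.and_eq_true, Bool.not_eq_true'] at this
    refine ⟨this.1, ?_, ?_⟩
    · intro hu; have h := this.2; rw [hu] at h; simpa using h
    · intro hu; have h := this.2; rw [hu] at h; simpa using h
  · intro τ hτ
    have := all_posL h10 τ
    simp only [hτ, Bool.not_true, Bool.false_or] at this
    exact this

theorem plen_nb : ∀ t i, isup t i = true → plen (nb t i) = plen t + 1 := by decide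
theorem plen_le : ∀ t, plen t ≤ 6 := by decide
theorem plen_six : ∀ t, plen t = 6 → t = 23 := by decide

/-- the full lift at a base vertex -/
theorem fullLift (C : Cert1 A) (W : CertW A D) (hz : ∀ q, q ≠ A.fail → D.fp q 0 = 0)
    (Mi : CertM A D) {N : ℕ} (HN : H A N) {e0 : V A} (hok : e0.ok) (c : TC) (hc : chkT c = true)
    (hT1 : ∀ t : Fin 24, c.T.testBit t.val = true → (e0.lev : ℤ) + D.fp e0.st t = N + 1)
    (hT0 : ∀ t : Fin 24, c.T.testBit t.val = false → (e0.lev : ℤ) + D.fp e0.st t ≤ N)
    (x3 : c.T.testBit 23 = false → ∀ q1, q1 ≠ A.fail →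
      (∀ t : Fin 24, c.C.testBit t.val = true →
        D.fp (D.μ q1) (w0 t) = D.fp e0.st t - D.fp e0.st 23) →
      ∀ t : Fin 24, D.fp (D.μ q1) (w0 t) = D.fp e0.st t - D.fp e0.st 23) :
    ∃ ν : Fin 24 → V A, ν 0 = e0 ∧ (∀ t i, isup t i = true → Mv (i, true) (ν t) (ν (nb t i))) ∧
      ∀ t, (ν t).lev ≤ N + 1 := by
  set v := D.fp e0.st with hv
  have hspec := chkS_spec hc
  obtain ⟨ν0, I0⟩ := mrun_start C W HN hok hv.symm (hz _ hok) (T := c.T) hT0 hspec.a1 c.p0
  set S0 := (mrun c.T c.p0 (1, 0)).1 with hS0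
  set E0 := (mrun c.T c.p0 (1, 0)).2 with hE0
  -- neighbours below a top
  have below : ∀ τ : Fin 24, c.T.testBit τ.val = true → ∀ i, isup τ i = false →
      c.T.testBit (nb τ i).val = false → S0.testBit (nb τ i).val = true →
      (ν0 (nb τ i)).lev = N ∧ ((ν0 (nb τ i)).up (letter (nb τ i) i)).ok := by
    intro τ hτ i hu hn hS
    obtain ⟨⟨k1, k2, k3⟩, k4⟩ := I0.2.1 _ hS
    have hu' : isup (nb τ i) i = true := by rw [isup_nb, hu]; rfl
    have hp := ple_nb _ _ hu'
    rw [nb_nb] at hp
    have k5 := k3 _ hp.1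
    rw [hp.2] at k5
    have g1 := hT1 τ hτ
    have g0 := hT0 _ hn
    have hd : A.δ (ν0 (nb τ i)).st (i, true) ≠ A.fail := by
      intro hd
      have := W.fgen2 _ _ k1 hd
      omega
    have h1 := W.fgen1 _ _ k1 hd
    refine ⟨by omega, ?_⟩
    have hl : letter (nb τ i) i = (i, true) := by simp [letter, hu']
    rw [hl, V.up_ok_iff C]
    exact hd
  by_cases h23 : c.T.testBit 23 = true
  · -- only the plus side
    have hr1 : (if c.T.testBit 23 then ((0, 0) : ℕ × ℕ) else mrun c.T' c.p1 (1, 0)) = (0, 0) := by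
      rw [h23]; rfl
    rw [hr1] at hspec
    suffices hh : _ ∧ _ ∧ _ by
      obtain ⟨hA, hB, hC⟩ := hh
      obtain ⟨ν, g1, g2, g3⟩ := assemble C (T := c.T) (N := N) (ν' := ν0) hA hB hC hspec.a10
      exact ⟨ν, by rw [g1 0 hspec.a1]; exact I0.1, g2, g3⟩
    refine ⟨?_, ?_, ?_⟩
    · intro t ht
      rcases hspec.a4 t ht with h | h
      · exact ⟨(I0.2.1 t h).1.1, (I0.2.1 t h).2⟩
      · simp at h
    · intro t i hu h1 h2
      rcases hspec.a5 t i hu h1 h2 with h | h
      · exact (I0.2.2 t i h).2.2.2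
      · simp at h
    · intro τ hτ i
      obtain ⟨h1, h2, h3⟩ := hspec.a9 τ hτ i
      refine ⟨h1, ?_⟩
      cases hu : isup τ i
      · exact below τ hτ i hu h1 (h3 hu)
      · have := h2 hu
        simp at this
  · have h23 : c.T.testBit 23 = false := by simpa using h23
    have hr1 : (if c.T.testBit 23 then ((0, 0) : ℕ × ℕ) else mrun c.T' c.p1 (1, 0)) =
        mrun c.T' c.p1 (1, 0) := by
      rw [h23]; rfl
    rw [hr1] at hspec
    have s23 : S0.testBit (23 : Fin 24).val = true := hspec.a8 h23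
    obtain ⟨⟨kk1, kk2, kk3⟩, kk4⟩ := I0.2.1 23 s23
    set e1 := ν0 23 with he1
    set e1' := M Mi e1 with he1'
    have ok1 : e1'.ok := (M_ok C Mi).2 kk1
    have st1 : e1'.st = D.μ e1.st := M_st C Mi e1
    have lev1 : (e1'.lev : ℤ) = e0.lev + v 23 := by rw [he1', M_lev]; exact kk2
    -- knowledge seen from the other end
    have K1 : ∀ k : ℕ, ∀ t : Fin 24, plen t + k = 6 → c.C.testBit t.val = true →
        Kn D e1' (D.fp e1'.st) (w0 t) (M Mi (ν0 t)) := by
      intro k
      induction k with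
      | zero =>
        intro t ht _
        have ht' := plen_six t ht
        subst ht'
        have hw : w0 23 = 0 := by decide
        rw [hw]
        refine ⟨ok1, ?_, ?_⟩
        · rw [hz _ ok1]; simp [he1']; rfl
        · intro r _
          rw [(quo_zero r).2, hz _ ok1]
          simp [he1', he1]
      | succ k ih =>
        intro t ht hC
        have hne : t ≠ 23 := by
          rintro rfl
          have : plen 23 = 6 := rfl
          omega
        obtain ⟨i, hu, hC2, hE, _⟩ := hspec.a7 t hne hC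
        have hpl := plen_nb t i hu
        have hK := ih (nb t i) (by omega) hC2
        have m := (I0.2.2 t i hE).2.2.2
        have m2 := M_mv C Mi m.symm
        rw [inv_inv] at m2
        have hu2 : isup (w0 (nb t i)) i = true := by
          rw [isup_w0, isup_nb, hu]; rfl
        have := hK.step C W hu2 m2
        rw [← w0_nb, nb_nb] at this
        exact this
    have hP1 : ∀ t : Fin 24, D.fp e1'.st (w0 t) = v t - v 23 := by
      have := x3 h23 e1.st kk1
      rw [← st1] at this
      apply this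
      intro t hC
      have h6 := plen_le t
      have hK := K1 (6 - plen t) t (by omega) hC
      have h1 := hK.2.1
      have h2 := ((I0.2.1 t ((hspec.a6 t).1 hC).1).1).2.1
      rw [M_lev] at h1
      omega
    have hT' : ∀ u : Fin 24, c.T'.testBit u.val = false → (e1'.lev : ℤ) + D.fp e1'.st u ≤ N := by
      intro u hu
      have h1 := hspec.a3 (w0 u)
      rw [w0_w0, hu] at h1
      have h2 := hT0 _ h1.symm
      have h3 := hP1 (w0 u)
      rw [w0_w0] at h3
      omega
    have hT0' : c.T'.testBit 0 = false := by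
      have := hspec.a3 23
      have hw : w0 23 = 0 := by decide
      rw [hw] at this
      exact this.trans h23
    obtain ⟨ν1', I1⟩ := mrun_start C W HN ok1 rfl (hz _ ok1) (T := c.T') hT' hT0' c.p1
    set S1 := (mrun c.T' c.p1 (1, 0)).1 with hS1
    set E1 := (mrun c.T' c.p1 (1, 0)).2 with hE1
    -- edges of the minus side
    have edge1 : ∀ (t : Fin 24) (i : Fin 3), E1.testBit (ec (w0 (nb t i)) i) = true →
        S1.testBit (w0 t).val = true ∧ S1.testBit (w0 (nb t i)).val = true ∧
        Mv (i, true) (M Mi (ν1' (w0 t))) (M Mi (ν1' (w0 (nb t i)))) := by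
      intro t i h
      obtain ⟨_, g2, g3, g4⟩ := I1.2.2 _ _ h
      rw [← w0_nb, nb_nb] at g3 g4
      refine ⟨g3, g2, ?_⟩
      have := (M_mv C Mi g4).symm
      rwa [inv_inv] at this
    -- agreement
    have agree : ∀ k : ℕ, ∀ t : Fin 24, plen t + k = 6 → c.C.testBit t.val = true →
        ν0 t = M Mi (ν1' (w0 t)) := by
      intro k
      induction k with
      | zero =>
        intro t ht _
        have ht' := plen_six t ht
        subst ht'
        have hw : w0 23 = 0 := by decide
        rw [hw, I1.1, he1', M_M]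
      | succ k ih =>
        intro t ht hC
        have hne : t ≠ 23 := by
          rintro rfl
          have : plen 23 = 6 := rfl
          omega
        obtain ⟨i, hu, hC2, hE, hE'⟩ := hspec.a7 t hne hC
        have hpl := plen_nb t i hu
        have hK := ih (nb t i) (by omega) hC2
        have m := (I0.2.2 t i hE).2.2.2.symm
        have m2 := (edge1 t i hE').2.2.symm
        rw [← hK] at m2
        exact H.det HN.c C (I0.2.1 _ (I0.2.2 t i hE).2.2.1).2 m m2
    have agree' : ∀ t : Fin 24, S0.testBit t.val = true → S1.testBit (w0 t).val = true →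
        ν0 t = M Mi (ν1' (w0 t)) := by
      intro t h1 h2
      have h6 := plen_le t
      exact agree (6 - plen t) t (by omega) ((hspec.a6 t).2 ⟨h1, h2⟩)
    set ν' : Fin 24 → V A := fun t => if S0.testBit t.val = true then ν0 t else M Mi (ν1' (w0 t))
      with hν'
    have ev0 : ∀ t : Fin 24, S0.testBit t.val = true → ν' t = ν0 t := by
      intro t ht
      simp [hν', ht]
    have ev1 : ∀ t : Fin 24, S1.testBit (w0 t).val = true → ν' t = M Mi (ν1' (w0 t)) := by
      intro t ht
      by_cases h : S0.testBit t.val = true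
      · rw [ev0 t h, agree' t h ht]
      · simp [hν', h]
    suffices hh : _ ∧ _ ∧ _ by
      obtain ⟨hA, hB, hC⟩ := hh
      obtain ⟨ν, g1, g2, g3⟩ := assemble C (T := c.T) (N := N) (ν' := ν') hA hB hC hspec.a10
      refine ⟨ν, ?_, g2, g3⟩
      rw [g1 0 hspec.a1, ev0 0 hspec.a2]
      exact I0.1
    refine ⟨?_, ?_, ?_⟩
    · intro t ht
      rcases hspec.a4 t ht with h | h
      · rw [ev0 t h]
        exact ⟨(I0.2.1 t h).1.1, (I0.2.1 t h).2⟩
      · rw [ev1 t h]
        refine ⟨(M_ok C Mi).2 (I1.2.1 _ h).1.1, ?_⟩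
        rw [M_lev]
        exact (I1.2.1 _ h).2
    · intro t i hu h1 h2
      rcases hspec.a5 t i hu h1 h2 with h | h
      · obtain ⟨_, j2, j3, j4⟩ := I0.2.2 t i h
        rw [ev0 _ j2, ev0 _ j3]
        exact j4
      · obtain ⟨j2, j3, j4⟩ := edge1 t i h
        rw [ev1 _ j2, ev1 _ j3]
        exact j4
    · intro τ hτ i
      obtain ⟨h1, h2, h3⟩ := hspec.a9 τ hτ i
      refine ⟨h1, ?_⟩
      cases hu : isup τ i
      · have hS := h3 hu
        rw [ev0 _ hS]
        exact below τ hτ i hu h1 hS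
      · have hS := h2 hu
        rw [ev1 _ hS]
        obtain ⟨⟨k1, k2, k3⟩, k4⟩ := I1.2.1 _ hS
        have hu' : isup (w0 (nb τ i)) i = true := by rw [isup_w0, isup_nb, hu]; rfl
        have hp := ple_nb _ _ hu'
        rw [← w0_nb, nb_nb] at hp
        have k5 := k3 _ hp.1
        rw [hp.2] at k5
        have g1 := hT1 τ hτ
        have g0 := hT0 _ h1
        have p1 := hP1 τ
        have p2 := hP1 (nb τ i)
        have hd : A.δ (ν1' (w0 (nb τ i))).st (i, true) ≠ A.fail := by
          intro hd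
          have := W.fgen2 _ _ k1 hd
          omega
        have hh := W.fgen1 _ _ k1 hd
        refine ⟨by rw [M_lev]; omega, ?_⟩
        have hl : letter (nb τ i) i = inv (i, true) := by
          simp [letter, isup_nb, hu, inv]
        rw [hl, ← M_up, M_ok C Mi, V.up_ok_iff C]
        exact hd

/-- last part of the certificate -/
structure CertG (A : Auto) (D : Dat A) : Prop where
  fzero : ∀ q, q ≠ A.fail → D.fp q 0 = 0
  Gs : ∀ z s, D.P z = some s → D.G z s s
  Gc : ∀ q j r s, A.δ q (j, true) ≠ A.fail → isup r j = true →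
    D.G (A.δ q (j, true)) (nb r j) s → D.G q r s
  Gd : ∀ q j r s, q ≠ A.fail → D.G q r s → isup r j = false → A.δ q (j, false) = A.fail
  pc : ∀ q s, q ≠ A.fail → s ≠ 0 → D.G q 0 s → ∃ c : TC, chkT c = true ∧
    (∀ t : Fin 24, c.T.testBit t.val = true → D.fp q t = plen s) ∧
    (∀ t : Fin 24, c.T.testBit t.val = false → D.fp q t < plen s) ∧
    (c.T.testBit 23 = false → ∀ q1, q1 ≠ A.fail →
      (∀ t : Fin 24, c.C.testBit t.val = true →
        D.fp (D.μ q1) (w0 t) = D.fp q t - D.fp q 23) →
      ∀ t : Fin 24, D.fp (D.μ q1) (w0 t) = D.fp q t - D.fp q 23)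

theorem ex_desc : ∀ r : Fin 24, r ≠ 0 → ∃ j, isup r j = false := by decide
theorem isup_zero : ∀ j, isup 0 j = true := by decide

section

variable (C : Cert1 A) (C2 : Cert2 A D) (W : CertW A D) (Mi : CertM A D) (Gg : CertG A D)
  {N : ℕ} (HN : H A N)
include C C2 W Mi Gg HN

omit C2 W Mi in
/-- descent to the base -/
theorem descent {s t' : Fin 24} {p : V A} : ∀ (k : ℕ) (r : Fin 24) (e : V A) (ω : List X),
    plen r = k → e.ok → e.lev ≤ N → D.G e.st r s → wlk r ω = some t' → Wk N e ω p →
    ∃ (e0 : V A) (ω' : List X), e0.ok ∧ e0.lev + k = e.lev ∧ D.G e0.st 0 s ∧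
      wlk 0 ω' = some t' ∧ Wk N e0 ω' p := by
  intro k
  induction k with
  | zero =>
    intro r e ω hr hok hl hG hw hW
    have hr0 : r = 0 := by
      by_contra h
      obtain ⟨j, hj⟩ := ex_desc r h
      have h1 : isup (nb r j) j = true := by rw [isup_nb, hj]; rfl
      have := plen_nb _ _ h1
      rw [nb_nb] at this
      omega
    subst hr0
    exact ⟨e, ω, hok, rfl, hG, hw, hW⟩
  | succ k ih =>
    intro r e ω hr hok hl hG hw hW
    have hr0 : r ≠ 0 := by
      rintro rfl
      have : plen 0 = 0 := rfl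
      omega
    obtain ⟨j, hj⟩ := ex_desc r hr0
    have h1 : isup (nb r j) j = true := by rw [isup_nb, hj]; rfl
    have hpl := plen_nb _ _ h1
    rw [nb_nb] at hpl
    have hd := Gg.Gd e.st j r s hok hG hj
    obtain ⟨e', he'⟩ := HN.b e hok hl (j, true) hd
    have ok' : e'.ok := V.ok_of_up C (x := (j, true)) (he' ▸ hok)
    have st' : A.δ e'.st (j, true) = e.st := by rw [he', V.st_up C]
    have lev' : e.lev = e'.lev + 1 := by rw [he', V.lev_up]
    have hG' : D.G e'.st (nb r j) s := by
      apply Gg.Gc e'.st j (nb r j) s (by rw [st']; exact hok) h1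
      rw [nb_nb, st']
      exact hG
    have hlet : letter (nb r j) j = (j, true) := by simp [letter, h1]
    obtain ⟨e0, ω', g1, g2, g3, g4, g5⟩ := ih (nb r j) e' ((j, true) :: ω) (by omega) ok' (by omega)
      hG' (by unfold wlk; rw [if_pos hlet, nb_nb]; exact hw)
      ⟨by omega, e, ⟨ok', hok, Or.inl he'⟩, hW⟩
    exact ⟨e0, ω', g1, by omega, g3, g4, g5⟩

theorem FLpos {i : Fin 3} {p : V A} {s : Fin 24} (hp : p.lev = N)
    (hok : (p.up (i, true)).ok) (hP : D.P (p.up (i, true)).st = some s) :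
    ∃ ν, Full (p.up (i, true)) s (N + 1) ν ∧ ν (nb s i) = p := by
  have pok := V.ok_of_up C hok
  have hD : A.δ (p.up (i, true)).st (inv (i, true)) = A.fail := by rw [V.st_up C, C.back]
  have hlet := P_letter C C2 hok hP hD
  have hus : isup s i = false := by simpa [letter, inv] using hlet
  have hut : isup (nb s i) i = true := by rw [isup_nb, hus]; rfl
  have hst := V.st_up C (i, true) p
  have hG : D.G p.st (nb s i) s := by
    apply Gg.Gc p.st i (nb s i) s (by rw [← hst]; exact hok) hut
    rw [nb_nb, ← hst]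
    exact Gg.Gs _ _ hP
  obtain ⟨e0, ω, ok0, lev0, hG0, hw, hW⟩ := descent C Gg HN (plen (nb s i)) (nb s i) p [] rfl pok
    hp.le hG rfl ⟨rfl, pok, hp.le⟩
  have hpl := plen_nb _ _ hut
  rw [nb_nb] at hpl
  have hs0 : s ≠ 0 := by
    rintro rfl
    rw [isup_zero] at hus
    cases hus
  obtain ⟨c, hc, h1, h2, h3⟩ := Gg.pc e0.st s ok0 hs0 hG0
  obtain ⟨ν, k0, k1, k2⟩ := fullLift C W Gg.fzero Mi HN ok0 c hc
    (fun t ht => by have := h1 t ht; omega) (fun t ht => by have := h2 t ht; omega) h3
  -- ν reads p at the position below s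
  have F : Full (ν s) s (N + 1) ν := ⟨k1, rfl, k2⟩
  have hνp : ν (nb s i) = p := by
    have := F.wk hw
    rw [k0] at this
    exact (H.detW HN.c C hW this).symm
  have hνs : ν s = p.up (i, true) := by
    have m := k1 (nb s i) i hut
    rw [nb_nb, hνp] at m
    exact m.up_eq C ((V.up_ok_iff C).1 hok)
  refine ⟨ν, ⟨k1, hνs, k2⟩, hνp⟩

theorem FLneg {i : Fin 3} {p : V A} {s : Fin 24} (hp : p.lev = N)
    (hok : (p.up (i, false)).ok) (hP : D.P (p.up (i, false)).st = some s) :
    ∃ ν, Full (p.up (i, false)) s (N + 1) ν ∧ ν (nb s i) = p := by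
  have e1 : M Mi (p.up (i, false)) = (M Mi p).up (i, true) := M_up Mi _ _
  have hok' : ((M Mi p).up (i, true)).ok := by rw [← e1]; exact (M_ok C Mi).2 hok
  have hP' : D.P ((M Mi p).up (i, true)).st = some (w0 s) := by
    rw [← e1, M_st C Mi, Mi.μP, hP]; rfl
  obtain ⟨ν', F, hν'⟩ := FLpos C C2 W Mi Gg HN (p := M Mi p) (by rw [M_lev, hp]) hok' hP'
  refine ⟨fun t => M Mi (ν' (w0 t)), ⟨?_, ?_, ?_⟩, ?_⟩
  · intro t j hu
    have m := F.mv (w0 t) j
    have hl : letter (w0 t) j = inv (j, true) := by simp [letter, isup_w0, hu, inv]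
    rw [hl] at m
    have := M_mv C Mi m
    rw [inv_inv] at this
    show Mv _ _ (M Mi (ν' (w0 (nb t j))))
    rw [w0_nb]
    exact this
  · show M Mi (ν' (w0 s)) = _
    rw [F.top, ← e1, M_M]
  · intro t
    show (M Mi (ν' (w0 t))).lev ≤ _
    rw [M_lev]
    exact F.lev _
  · show M Mi (ν' (w0 (nb s i))) = _
    rw [w0_nb, hν', M_M]

theorem FL_all : FL A D N := by
  intro x p s hp hok hP
  rcases x with ⟨i, b⟩
  cases b
  · exact FLneg C C2 W Mi Gg HN hp hok hP
  · exact FLpos C C2 W Mi Gg HN hp hok hP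

end

/-- the main induction -/
theorem H_all (C : Cert1 A) (C2 : Cert2 A D) (W : CertW A D) (Mi : CertM A D) (Gg : CertG A D) :
    ∀ N, H A N := by
  intro N
  induction N with
  | zero => exact H_zero C
  | succ N ih => exact step C C2 ih (FL_all C C2 W Mi Gg ih)

end Run7.h160
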