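import Pool.Agent.Run7.h160.Basic

namespace Run7.h160

variable {A : Auto}

theorem mem6_rot1 : ∀ r ∈ Rel6, r.drop 1 ++ r.take 1 ∈ Rel6 := by decide
theorem mem4_rot1 : ∀ r ∈ Rel4, r.drop 1 ++ r.take 1 ∈ Rel4 := by decide
theorem mem6_rev : ∀ r ∈ Rel6, rev r ∈ Rel6 := by decide
theorem mem4_rev : ∀ r ∈ Rel4, rev r ∈ Rel4 := by decide
theorem len6 : ∀ r ∈ Rel6, r.length = 6 := by decide
theorem len4 : ∀ r ∈ Rel4, r.length = 4 := by decide

theorem mem6_rot (s : List X) : ∀ t, s ++ t ∈ Rel6 → t ++ s ∈ Rel6 := by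
  induction s with
  | nil => intro t h; simpa using h
  | cons a s ih =>
    intro t h
    have := mem6_rot1 _ h
    simp only [List.cons_append, List.drop_succ_cons, List.drop_zero, List.take_succ_cons,
      List.take_zero] at this
    have h2 := ih (t ++ [a]) (by simpa using this)
    simpa using h2

theorem mem4_rot (s : List X) : ∀ t, s ++ t ∈ Rel4 → t ++ s ∈ Rel4 := by
  induction s with
  | nil => intro t h; simpa using h
  | cons a s ih =>
    intro t h
    have := mem4_rot1 _ h
    simp only [List.cons_append, List.drop_succ_cons, List.drop_zero, List.take_succ_cons,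
      List.take_zero] at this
    have h2 := ih (t ++ [a]) (by simpa using this)
    simpa using h2

theorem memR_rot (s t : List X) (h : s ++ t ∈ Rels) : t ++ s ∈ Rels := by
  unfold Rels at h ⊢
  rcases List.mem_append.1 h with h | h
  · exact List.mem_append.2 (Or.inl (mem6_rot s t h))
  · exact List.mem_append.2 (Or.inr (mem4_rot s t h))

theorem memR_rev (r : List X) (h : r ∈ Rels) : rev r ∈ Rels := by
  unfold Rels at h ⊢
  rcases List.mem_append.1 h with h | h
  · exact List.mem_append.2 (Or.inl (mem6_rev r h))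
  · exact List.mem_append.2 (Or.inr (mem4_rev r h))

theorem lenR (r : List X) (h : r ∈ Rels) : (r ∈ Rel6 ∧ r.length = 6) ∨ (r ∈ Rel4 ∧ r.length = 4) := by
  unfold Rels at h
  rcases List.mem_append.1 h with h | h
  · exact Or.inl ⟨h, len6 r h⟩
  · exact Or.inr ⟨h, len4 r h⟩

theorem len_eq4 {α : List X} (h : α.length = 4) : ∃ a b c d, α = [a, b, c, d] := by
  rcases α with _ | ⟨a, _ | ⟨b, _ | ⟨c, _ | ⟨d, _ | ⟨e, t⟩⟩⟩⟩⟩ <;> simp_all

theorem len_eq2 {α : List X} (h : α.length = 2) : ∃ a b, α = [a, b] := by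
  rcases α with _ | ⟨a, _ | ⟨b, _ | ⟨c, t⟩⟩⟩ <;> simp_all

theorem rtg_symm {T : Type*} {r : T → T → Prop} (hr : ∀ a b, r a b → r b a) {a b : T}
    (h : Relation.ReflTransGen r a b) : Relation.ReflTransGen r b a := by
  induction h with
  | refl => exact Relation.ReflTransGen.refl
  | tail _ h2 ih => exact Relation.ReflTransGen.head (hr _ _ h2) ih

theorem arc_cases {x y : X} {α : List X} (h : α ++ [y, inv x] ∈ Rels) :
    (∃ a b c d, α = [a, b, c, d] ∧ [a, b, c, d, y, inv x] ∈ Rel6) ∨
    (∃ a b, α = [a, b] ∧ [a, b, y, inv x] ∈ Rel4) := by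
  rcases lenR _ h with ⟨h1, h2⟩ | ⟨h1, h2⟩
  · left
    obtain ⟨a, b, c, d, rfl⟩ := len_eq4 (α := α) (by simpa using h2)
    exact ⟨a, b, c, d, rfl, h1⟩
  · right
    obtain ⟨a, b, rfl⟩ := len_eq2 (α := α) (by simpa using h2)
    exact ⟨a, b, rfl, h1⟩

/-- two pairs (letter, vertex) linked by an arc inside the ball -/
def Lk (N : ℕ) (a b : X × V A) : Prop :=
  a.2.lev = N ∧ (a.2.up a.1).ok ∧ ∃ α, α ++ [b.1, inv a.1] ∈ Rels ∧ Wk N a.2 α b.2

theorem Lk_eq (C : Cert1 A) {N : ℕ} {x y : X} {p p' : V A} {α : List X} (hN : p.lev = N)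
    (hok : (p.up x).ok) (hα : α ++ [y, inv x] ∈ Rels) (hw : Wk N p α p') :
    p.up x = p'.up y := by
  rcases arc_cases hα with ⟨a, b, c, d, rfl, h6⟩ | ⟨a, b, rfl, h4⟩
  · obtain ⟨_, u1, m1, l1, u2, m2, l2, u3, m3, l3, u4, m4, hu4, _⟩ := hw
    subst hu4
    have e1 : p = u1.up (inv a) := by
      apply m1.eq_down_of_lev
      rcases m1.lev with h | h <;> omega
    rcases m2.lev with h | h
    · have e2 : u2 = u1.up b := m2.eq_up_of_lev h
      have e3 : u2 = u3.up (inv c) := by
        apply m3.eq_down_of_lev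
        have := m1.lev
        have := m3.lev
        omega
      have hl : [inv a, x, inv y, inv d, inv c, inv b] ∈ Rel6 := by
        have := mem6_rev _ (mem6_rot [a] [b, c, d, y, inv x] h6)
        simpa [rev] using this
      have e4 := V.lad C hl (v := u1) (w := u3) (e2 ▸ m2.2.1) (e2.symm.trans e3)
      rw [← e1] at e4
      have h5 : ((u3.up d).up y).ok := e4 ▸ hok
      have h6' := (V.up_ok_iff C).1 (V.ok_of_up C h5)
      have e5 := m4.up_eq C h6'
      rw [e5, e4]
    · have e2 : u1 = u2.up (inv b) := m2.eq_down_of_lev h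
      have hl : [inv b, inv a, x, inv y, inv d, inv c] ∈ Rel6 := by
        have := mem6_rev _ (mem6_rot [a, b] [c, d, y, inv x] h6)
        simpa [rev] using this
      have e4 := V.rel3 hl u2
      rw [← e2, ← e1] at e4
      have h5 : (((u2.up c).up d).up y).ok := e4 ▸ hok
      have h7 := (V.up_ok_iff C).1 (V.ok_of_up C h5)
      have h6' := (V.up_ok_iff C).1 (V.ok_of_up C (V.ok_of_up C h5))
      have e5 := m3.up_eq C h6'
      rw [← e5] at h7 e4
      have e6 := m4.up_eq C h7
      rw [e6, e4]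
  · obtain ⟨_, u1, m1, l1, u2, m2, hu2, _⟩ := hw
    subst hu2
    have e1 : p = u1.up (inv a) := by
      apply m1.eq_down_of_lev
      rcases m1.lev with h | h <;> omega
    have hl : [inv a, x, inv y, inv b] ∈ Rel4 := by
      have := mem4_rev _ (mem4_rot [a] [b, y, inv x] h4)
      simpa [rev] using this
    have e4 := V.rel2 hl u1
    rw [← e1] at e4
    have h5 : ((u1.up b).up y).ok := e4 ▸ hok
    have h6' := (V.up_ok_iff C).1 (V.ok_of_up C h5)
    have e5 := m2.up_eq C h6'
    rw [e5, e4]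

theorem Lk.eq (C : Cert1 A) {N : ℕ} {a b : X × V A} (h : Lk N a b) :
    a.2.up a.1 = b.2.up b.1 := by
  obtain ⟨h1, h2, α, h3, h4⟩ := h
  exact Lk_eq C h1 h2 h3 h4

theorem Lk.symm (C : Cert1 A) {N : ℕ} {a b : X × V A} (h : Lk N a b) : Lk N b a := by
  have e := h.eq C
  obtain ⟨h1, h2, α, h3, h4⟩ := h
  refine ⟨?_, e ▸ h2, rev α, ?_, h4.rev⟩
  · have := congrArg V.lev e
    simp at this
    omega
  · have := memR_rev _ h3
    rw [rev_append] at this
    have := memR_rot _ _ this
    simpa [rev] using this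

theorem Lk.lev (C : Cert1 A) {N : ℕ} {a b : X × V A} (h : Lk N a b) : b.2.lev = N :=
  (h.symm C).1

theorem arc_uniq_dec : ∀ r ∈ Rels, ∀ r' ∈ Rels, r.reverse.take 2 = r'.reverse.take 2 →
    r = r' ∨ r.head? = r'.head?.map inv := by decide

theorem arc_uniq {x y : X} {α β : List X} (h1 : α ++ [y, inv x] ∈ Rels)
    (h2 : β ++ [y, inv x] ∈ Rels) : α = β ∨ ∃ a α' β', α = a :: α' ∧ β = inv a :: β' := by
  have := arc_uniq_dec _ h1 _ h2 (by simp)
  rcases this with h | h
  · left; simpa using h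
  · right
    rcases arc_cases h1 with ⟨a, b, c, d, rfl, _⟩ | ⟨a, b, rfl, _⟩ <;>
    rcases arc_cases h2 with ⟨a', b', c', d', rfl, _⟩ | ⟨a', b', rfl, _⟩ <;>
    · simp only [List.cons_append, List.head?_cons, Option.map_some, Option.some.injEq] at h
      subst h
      exact ⟨_, _, _, rfl, by rw [inv_inv]⟩

theorem head_fail (C : Cert1 A) {N : ℕ} {p p' : V A} {a : X} {α : List X} (hN : p.lev = N)
    (hw : Wk N p (a :: α) p') : A.δ p.st a = A.fail := by
  by_contra h
  obtain ⟨_, u, m, hu⟩ := hw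
  have := m.up_eq C h
  have h2 := hu.start_le
  rw [this, V.lev_up] at h2
  omega

theorem Lk.func (C : Cert1 A) {N : ℕ} (hc : ∀ (y : X) (p p' : V A), (p.up y).ok →
    (p.up y).lev ≤ N → p.up y = p'.up y → p = p') {a b b' : X × V A} (h : Lk N a b)
    (h' : Lk N a b') (hb : b.1 = b'.1) : b = b' := by
  obtain ⟨h1, h2, α, h3, h4⟩ := h
  obtain ⟨_, _, β, h3', h4'⟩ := h'
  rw [← hb] at h3'
  rcases arc_uniq h3 h3' with rfl | ⟨c, α', β', rfl, rfl⟩
  · exact Prod.ext hb (H.detW hc C h4 h4')
  · exfalso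
    have e1 := head_fail C h1 h4
    have e2 := head_fail C h1 h4'
    exact C.gate _ _ (V.ok_of_up C h2) e1 e2

theorem inversion (C : Cert1 A) {c d : List X} (h : E A c d) : A.run c ≠ A.fail →
    ∀ x c' y d', c = x :: c' → d = y :: d' →
    Relation.ReflTransGen (Lk c'.length) ((x, V.mk c') : X × V A) (y, V.mk d') := by
  induction h with
  | refl c =>
    intro _ x c' y d' h1 h2
    rw [h1] at h2
    cases h2
    exact Relation.ReflTransGen.refl
  | @symm c d hcd ih =>
    intro hok x c' y d' h1 h2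
    have := ih (by rw [hcd.run C]; exact hok) y d' x c' h2 h1
    have hl : d'.length = c'.length := by
      have := hcd.length
      rw [h1, h2] at this
      simpa using this
    rw [hl] at this
    exact rtg_symm (fun a b h => h.symm C) this
  | @trans c d e hcd hde ih1 ih2 =>
    intro hok x c' z e' h1 h2
    have hl := hcd.length
    rw [h1] at hl
    match d, hl, hcd, hde, ih1, ih2 with
    | y :: d', hl, hcd, hde, ih1, ih2 =>
      have hl' : d'.length = c'.length := by simpa using hl.symm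
      have i1 := ih1 hok x c' y d' h1 rfl
      have i2 := ih2 (by rw [← hcd.run C]; exact hok) y d' z e' rfl h2
      rw [hl'] at i2
      exact i1.trans i2
  | cons x h ih =>
    intro _ x' c' y d' h1 h2
    cases h1
    cases h2
    rw [V.sound h]
  | rel3 s t u u' t' s' c h =>
    intro hok x c' y d' h1 h2
    cases h1
    cases h2
    have hok' : A.run (u' :: t' :: s' :: c) ≠ A.fail := by
      rw [← E.run C (E.rel3 s t u u' t' s' c h)]; exact hok
    have k1 : (V.mk (u :: t :: s :: c) : V A).ok := by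
      unfold V.ok; rw [V.st_mk C]; exact hok
    have k1' : (V.mk (u' :: t' :: s' :: c) : V A).ok := by
      unfold V.ok; rw [V.st_mk C]; exact hok'
    have k2 : (V.mk (t :: s :: c) : V A).ok := V.ok_of_up C (x := u) k1
    have k3 : (V.mk (s :: c) : V A).ok := V.ok_of_up C (x := t) k2
    have k4 : (V.mk (c) : V A).ok := V.ok_of_up C (x := s) k3
    have k2' : (V.mk (t' :: s' :: c) : V A).ok := V.ok_of_up C (x := u') k1'
    have k3' : (V.mk (s' :: c) : V A).ok := V.ok_of_up C (x := t') k2'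
    apply Relation.ReflTransGen.single
    refine ⟨rfl, k1, [inv t, inv s, s', t'], ?_, ?_⟩
    · apply List.mem_append_left
      have h3 := mem6_rev _ h
      have h4 := mem6_rot [s', t', u', inv u] [inv t, inv s] (by simpa [rev] using h3)
      simpa using h4
    · refine ⟨le_refl _, V.mk (s :: c), ⟨k2, k3, Or.inr ?_⟩, ?_⟩
      · rw [inv_inv]; rfl
      refine ⟨by simp, V.mk c, ⟨k3, k4, Or.inr ?_⟩, ?_⟩
      · rw [inv_inv]; rfl
      refine ⟨by simp; omega, V.mk (s' :: c), ⟨k4, k3', Or.inl rfl⟩, ?_⟩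
      refine ⟨by simp, V.mk (t' :: s' :: c), ⟨k3', k2', Or.inl rfl⟩, ?_⟩
      exact ⟨rfl, k2', by simp⟩
  | rel2 s t t' s' c h =>
    intro hok x c' y d' h1 h2
    cases h1
    cases h2
    have hok' : A.run (t' :: s' :: c) ≠ A.fail := by
      rw [← E.run C (E.rel2 s t t' s' c h)]; exact hok
    have k1 : (V.mk (t :: s :: c) : V A).ok := by
      unfold V.ok; rw [V.st_mk C]; exact hok
    have k1' : (V.mk (t' :: s' :: c) : V A).ok := by
      unfold V.ok; rw [V.st_mk C]; exact hok'
    have k2 : (V.mk (s :: c) : V A).ok := V.ok_of_up C (x := t) k1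
    have k3 : (V.mk (c) : V A).ok := V.ok_of_up C (x := s) k2
    have k2' : (V.mk (s' :: c) : V A).ok := V.ok_of_up C (x := t') k1'
    apply Relation.ReflTransGen.single
    refine ⟨rfl, k1, [inv s, s'], ?_, ?_⟩
    · apply List.mem_append_right
      have h3 := mem4_rev _ h
      have h4 := mem4_rot [s', t', inv t] [inv s] (by simpa [rev] using h3)
      simpa using h4
    · refine ⟨le_refl _, V.mk c, ⟨k2, k3, Or.inr ?_⟩, ?_⟩
      · rw [inv_inv]; rfl
      refine ⟨by simp, V.mk (s' :: c), ⟨k3, k2', Or.inl rfl⟩, ?_⟩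
      exact ⟨rfl, k2', by simp⟩
  | lad s x x' s' t' t c1 c3 h h1 h2 ih =>
    intro hok z c' z' d' e1 e2
    cases e1
    cases e2
    have hl : c3.length = c1.length := by
      have := h2.length
      simpa using this.symm
    have hok' : A.run (x' :: s' :: c3) ≠ A.fail := by
      rw [← E.run C (E.lad s x x' s' t' t c1 c3 h h1 h2)]; exact hok
    have k1 : (V.mk (x :: s :: c1) : V A).ok := by
      unfold V.ok; rw [V.st_mk C]; exact hok
    have k1' : (V.mk (x' :: s' :: c3) : V A).ok := by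
      unfold V.ok; rw [V.st_mk C]; exact hok'
    have k2 : (V.mk (s :: c1) : V A).ok := V.ok_of_up C (x := x) k1
    have k3 : (V.mk (c1) : V A).ok := V.ok_of_up C (x := s) k2
    have k2' : (V.mk (s' :: c3) : V A).ok := V.ok_of_up C (x := x') k1'
    have k3' : (V.mk (c3) : V A).ok := V.ok_of_up C (x := s') k2'
    have k4 : (V.mk (t :: c1) : V A).ok := by
      unfold V.ok; rw [V.st_mk C]; exact h1
    have e4 : (V.mk (t :: c1) : V A) = V.mk (t' :: c3) := V.sound h2
    apply Relation.ReflTransGen.single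
    refine ⟨rfl, k1, [inv s, t, inv t', s'], ?_, ?_⟩
    · apply List.mem_append_left
      have h3 := mem6_rev _ h
      have h4 := mem6_rot [t, inv t', s', x', inv x] [inv s] (by simpa [rev] using h3)
      simpa using h4
    · refine ⟨le_refl _, V.mk c1, ⟨k2, k3, Or.inr ?_⟩, ?_⟩
      · rw [inv_inv]; rfl
      refine ⟨by simp, V.mk (t :: c1), ⟨k3, k4, Or.inl rfl⟩, ?_⟩
      refine ⟨by simp, V.mk c3, ⟨k4, k3', Or.inr ?_⟩, ?_⟩
      · rw [inv_inv, e4]; rfl
      refine ⟨by simp; omega, V.mk (s' :: c3), ⟨k3', k2', Or.inl rfl⟩, ?_⟩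
      exact ⟨rfl, k2', by simp; omega⟩

theorem inversion_up (C : Cert1 A) {x y : X} {p p' : V A} (hok : (p.up x).ok)
    (h : p.up x = p'.up y) : Relation.ReflTransGen (Lk p.lev) (x, p) (y, p') := by
  obtain ⟨c, rfl⟩ := p.ex
  obtain ⟨d, rfl⟩ := p'.ex
  have := inversion C (V.exact h) (by
    have := hok
    unfold V.ok at this
    rwa [V.up_mk, V.st_mk C] at this) x c y d rfl rfl
  simpa using this

end Run7.h160
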