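import Pool.Agent.Run7.h160.Step

namespace Run7.h160

def quoL : List (List (Fin 24)) :=
  [[0, 1, 2, 3, 4, 5, 6, 7, 8, 9, 10, 11, 12, 13, 14, 15, 16, 17, 18, 19, 20, 21, 22, 23],
   [1, 0, 4, 5, 2, 3, 9, 10, 11, 6, 7, 8, 15, 16, 17, 12, 13, 14, 20, 21, 18, 19, 23, 22],
   [2, 6, 0, 7, 9, 12, 1, 3, 13, 4, 15, 18, 5, 8, 19, 10, 20, 22, 11, 14, 16, 23, 17, 21],
   [3, 5, 8, 0, 11, 1, 14, 13, 2, 17, 16, 4, 19, 7, 6, 21, 10, 9, 22, 12, 23, 15, 18, 20],
   [6, 2, 9, 12, 0, 7, 4, 15, 18, 1, 3, 13, 10, 20, 22, 5, 8, 19, 16, 23, 11, 14, 21, 17],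
   [5, 3, 11, 1, 8, 0, 17, 16, 4, 14, 13, 2, 21, 10, 9, 19, 7, 6, 23, 15, 22, 12, 20, 18],
   [4, 9, 1, 10, 6, 15, 0, 5, 16, 2, 12, 20, 3, 11, 21, 7, 18, 23, 8, 17, 13, 22, 14, 19],
   [8, 14, 3, 13, 17, 19, 5, 0, 7, 11, 21, 22, 1, 2, 12, 16, 23, 18, 4, 6, 10, 20, 9, 15],
   [7, 12, 13, 2, 18, 6, 19, 8, 0, 22, 20, 9, 14, 3, 1, 23, 15, 4, 17, 5, 21, 10, 11, 16],
   [9, 4, 6, 15, 1, 10, 2, 12, 20, 0, 5, 16, 7, 18, 23, 3, 11, 21, 13, 22, 8, 17, 19, 14],
   [14, 8, 17, 19, 3, 13, 11, 21, 22, 5, 0, 7, 16, 23, 18, 1, 2, 12, 10, 20, 4, 6, 15, 9],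
   [12, 7, 18, 6, 13, 2, 22, 20, 9, 19, 8, 0, 23, 15, 4, 14, 3, 1, 21, 10, 17, 5, 16, 11],
   [11, 17, 5, 16, 14, 21, 3, 1, 10, 8, 19, 23, 0, 4, 15, 13, 22, 20, 2, 9, 7, 18, 6, 12],
   [13, 19, 7, 8, 22, 14, 12, 2, 3, 18, 23, 17, 6, 0, 5, 20, 21, 11, 9, 1, 15, 16, 4, 10],
   [10, 15, 16, 4, 20, 9, 21, 11, 1, 23, 18, 6, 17, 5, 0, 22, 12, 2, 14, 3, 19, 7, 8, 13],
   [17, 11, 14, 21, 5, 16, 8, 19, 23, 3, 1, 10, 13, 22, 20, 0, 4, 15, 7, 18, 2, 9, 12, 6],
   [19, 13, 22, 14, 7, 8, 18, 23, 17, 12, 2, 3, 20, 21, 11, 6, 0, 5, 15, 16, 9, 1, 10, 4],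
   [15, 10, 20, 9, 16, 4, 23, 18, 6, 21, 11, 1, 22, 12, 2, 17, 5, 0, 19, 7, 14, 3, 13, 8],
   [18, 22, 12, 20, 19, 23, 7, 6, 15, 13, 14, 21, 2, 9, 10, 8, 17, 16, 0, 4, 3, 11, 1, 5],
   [16, 21, 10, 11, 23, 17, 15, 4, 5, 20, 22, 14, 9, 1, 3, 18, 19, 8, 6, 0, 12, 13, 2, 7],
   [22, 18, 19, 23, 12, 20, 13, 14, 21, 7, 6, 15, 8, 17, 16, 2, 9, 10, 3, 11, 0, 4, 5, 1],
   [21, 16, 23, 17, 10, 11, 20, 22, 14, 15, 4, 5, 18, 19, 8, 9, 1, 3, 12, 13, 6, 0, 7, 2],
   [20, 23, 15, 18, 21, 22, 10, 9, 12, 16, 17, 19, 4, 6, 7, 11, 14, 13, 1, 2, 5, 8, 0, 3],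
   [23, 20, 21, 22, 15, 18, 16, 17, 19, 10, 9, 12, 11, 14, 13, 4, 6, 7, 5, 8, 1, 2, 3, 0]]

/-- the position of the quotient -/
def quo (t r : Fin 24) : Fin 24 := (quoL.getD t.val []).getD r.val 0

/-- prefix order on positions -/
def ple (t r : Fin 24) : Prop := plen t + plen (quo t r) = plen r

instance (t r : Fin 24) : Decidable (ple t r) := by unfold ple; infer_instance

theorem ple_step : ∀ t i r, isup t i = true → ple (nb t i) r →
    ple t r ∧ quo (nb 0 i) (quo (nb t i) r) = quo t r ∧ plen (quo t r) = plen (quo (nb t i) r) + 1 := by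
  decide

theorem ple_nb : ∀ t i, isup t i = true → ple t (nb t i) ∧ quo t (nb t i) = nb 0 i := by decide

theorem quo_zero : ∀ r, ple 0 r ∧ quo 0 r = r := by decide

/-- pairs (t,i) coded as bits -/
def ec (t : Fin 24) (i : Fin 3) : ℕ := 3 * t.val + i.val

theorem ec_inj : ∀ t i t' i', ec t i = ec t' i' → t = t' ∧ i = i' := by decide

/-- alternating walk -/
def altw (a : Fin 24) (j i : Fin 3) : ℕ → List X
  | 0 => []
  | n + 1 => letter a j :: altw (nb a j) i j n

/-- follow a word through known edges -/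
def wlkE (Ed : ℕ) (t : Fin 24) : List X → Option (Fin 24)
  | [] => some t
  | l :: α => if letter t l.1 = l ∧ Ed.testBit (if l.2 then ec t l.1 else ec (nb t l.1) l.1) = true
      then wlkE Ed (nb t l.1) α else none

/-- follow a word avoiding T -/
def wlkA (T : ℕ) (t : Fin 24) : List X → Option (Fin 24)
  | [] => if T.testBit t.val = false then some t else none
  | l :: α => if letter t l.1 = l ∧ T.testBit t.val = false
      then wlkA T (nb t l.1) α else none

def adj (i j : Fin 3) : Bool := decide (i.val + 1 = j.val ∨ j.val + 1 = i.val)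

/-- instructions -/
abbrev Ins := Fin 24 × Fin 3 × Option (Fin 3)

def mstep (T : ℕ) (σ : ℕ × ℕ) (ins : Ins) : ℕ × ℕ :=
  match ins with
  | (t, i, none) =>
    if isup t i = true ∧ σ.1.testBit t.val = true ∧ σ.1.testBit (nb t i).val = false ∧
        T.testBit (nb t i).val = false then
      (σ.1 ||| 2 ^ (nb t i).val, σ.2 ||| 2 ^ (ec t i))
    else σ
  | (t, i, some j) =>
    let ρ := altw (nb t i) j i (if adj i j then 5 else 3)
    if isup t i = true ∧ σ.1.testBit t.val = true ∧ σ.1.testBit (nb t i).val = true ∧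
        ρ ++ [(i, true)] ∈ Rels ∧ wlkE σ.2 (nb t i) ρ = some t then
      (σ.1, σ.2 ||| 2 ^ (ec t i))
    else σ

variable {A : Auto} (D : Dat A)

/-- window part of the certificate -/
structure CertW (A : Auto) (D : Dat A) : Prop where
  fgen1 : ∀ q i, q ≠ A.fail → A.δ q (i, true) ≠ A.fail → D.fp q (nb 0 i) = 1
  fgen2 : ∀ q i, q ≠ A.fail → A.δ q (i, true) = A.fail → D.fp q (nb 0 i) = -1
  fwin1 : ∀ q i u, q ≠ A.fail → plen (quo (nb 0 i) u) = plen u + 1 →
    A.δ q (i, true) ≠ A.fail → D.fp (A.δ q (i, true)) u = D.fp q (quo (nb 0 i) u) - 1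
  fwin2 : ∀ q i u, q ≠ A.fail → plen (quo (nb 0 i) u) = plen u + 1 →
    A.δ q (i, false) ≠ A.fail → D.fp q u = D.fp (A.δ q (i, false)) (quo (nb 0 i) u) + 1

/-- knowledge at a vertex -/
def Kn (e0 : V A) (v : Fin 24 → ℤ) (t : Fin 24) (w : V A) : Prop :=
  w.ok ∧ (w.lev : ℤ) = e0.lev + v t ∧ ∀ r, ple t r → D.fp w.st (quo t r) = v r - v t

variable {D} (C : Cert1 A) (W : CertW A D)

theorem inv_quo : ∀ i u, quo (nb 0 i) (quo (nb 0 i) u) = u := by decide

include C W in
/-- knowledge transfer along an ascending edge of positions -/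
theorem Kn.step {e0 : V A} {v : Fin 24 → ℤ} {t : Fin 24} {w w' : V A} {i : Fin 3}
    (h : Kn D e0 v t w) (hu : isup t i = true) (m : Mv (i, true) w w') :
    Kn D e0 v (nb t i) w' := by
  obtain ⟨h1, h2, h3⟩ := h
  have hn := ple_nb t i hu
  have h4 := h3 _ hn.1
  rw [hn.2] at h4
  refine ⟨m.2.1, ?_, ?_⟩
  · by_cases hd : A.δ w.st (i, true) = A.fail
    · have e := m.down_eq C hd
      have h5 := W.fgen2 _ _ h1 hd
      have h6 := congrArg V.lev e
      rw [V.lev_up] at h6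
      rw [h6] at h2
      push_cast at h2
      omega
    · have e := m.up_eq C hd
      have h5 := W.fgen1 _ _ h1 hd
      rw [e, V.lev_up]
      push_cast
      omega
  · intro r hr
    obtain ⟨g1, g2, g3⟩ := ple_step t i r hu hr
    have h7 := h3 r g1
    have hlen : plen (quo (nb 0 i) (quo (nb t i) r)) = plen (quo (nb t i) r) + 1 := by
      rw [g2, g3]
    by_cases hd : A.δ w.st (i, true) = A.fail
    · have e := m.down_eq C hd
      have h5 := W.fgen2 _ _ h1 hd
      have hw : A.δ w'.st (i, false) = w.st := by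
        rw [show ((i, false) : X) = inv (i, true) from rfl, ← V.st_up C, ← e]
      have := W.fwin2 w'.st i (quo (nb t i) r) m.2.1 hlen (by rw [hw]; exact h1)
      rw [g2, hw] at this
      omega
    · have e := m.up_eq C hd
      have h5 := W.fgen1 _ _ h1 hd
      have := W.fwin1 w.st i (quo (nb t i) r) h1 hlen hd
      rw [g2, ← V.st_up C, ← e] at this
      omega

/-- machine invariant -/
def MInv (D : Dat A) (N : ℕ) (e0 : V A) (v : Fin 24 → ℤ) (ν : Fin 24 → V A) (S Ed : ℕ) : Prop :=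
  ν 0 = e0 ∧ (∀ t : Fin 24, S.testBit t.val = true → Kn D e0 v t (ν t) ∧ (ν t).lev ≤ N) ∧
  (∀ (t : Fin 24) (i : Fin 3), Ed.testBit (ec t i) = true → isup t i = true ∧
    S.testBit t.val = true ∧ S.testBit (nb t i).val = true ∧ Mv (i, true) (ν t) (ν (nb t i)))

theorem MInv.wlk {N : ℕ} {e0 : V A} {v : Fin 24 → ℤ} {ν : Fin 24 → V A} {S Ed : ℕ}
    (h : MInv D N e0 v ν S Ed) {α : List X} : ∀ {t t' : Fin 24}, S.testBit t.val = true →
    wlkE Ed t α = some t' → Wk N (ν t) α (ν t') := by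
  induction α with
  | nil =>
    intro t t' hS ht
    have : t = t' := by simpa [wlkE] using ht
    subst this
    exact ⟨rfl, (h.2.1 t hS).1.1, (h.2.1 t hS).2⟩
  | cons l α ih =>
    intro t t' hS ht
    unfold wlkE at ht
    by_cases hc : letter t l.1 = l ∧
      Ed.testBit (if l.2 then ec t l.1 else ec (nb t l.1) l.1) = true
    swap
    · rw [if_neg hc] at ht; cases ht
    rw [if_pos hc] at ht
    obtain ⟨hl, he⟩ := hc
    rcases l with ⟨i, b⟩
    cases b
    · simp only [Bool.false_eq_true, if_false] at he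
      obtain ⟨_, e2, e3, e4⟩ := h.2.2 _ _ he
      rw [nb_nb] at e4
      exact ⟨(h.2.1 t hS).2, _, e4.symm, ih e2 ht⟩
    · simp only [if_true] at he
      obtain ⟨_, e2, e3, e4⟩ := h.2.2 _ _ he
      exact ⟨(h.2.1 t hS).2, _, e4, ih e3 ht⟩

theorem testBit_or_pow (S k m : ℕ) : (S ||| 2 ^ k).testBit m = true ↔ S.testBit m = true ∨ m = k := by
  rw [Nat.testBit_or, Nat.testBit_two_pow, Bool.or_eq_true, decide_eq_true_iff]
  constructor
  · rintro (h | h)
    · exact Or.inl h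
    · exact Or.inr h.symm
  · rintro (h | h)
    · exact Or.inl h
    · exact Or.inr h.symm

include C W in
theorem mstep_inv {N : ℕ} (HN : H A N) {e0 : V A} {v : Fin 24 → ℤ} {T : ℕ}
    (hT : ∀ t : Fin 24, T.testBit t.val = false → (e0.lev : ℤ) + v t ≤ N) {σ : ℕ × ℕ} {ins : Ins}
    {ν : Fin 24 → V A} (h : MInv D N e0 v ν σ.1 σ.2) :
    ∃ ν', MInv D N e0 v ν' (mstep T σ ins).1 (mstep T σ ins).2 := by
  rcases ins with ⟨t, i, _ | j⟩
  · unfold mstep
    simp only
    split_ifs with hc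
    · obtain ⟨hu, hS, hS', hTn⟩ := hc
      obtain ⟨hK, hl⟩ := h.2.1 t hS
      obtain ⟨w', m⟩ := HN.ex C hK.1 hl (i, true)
      have hK' := hK.step C W hu m
      have hl' : w'.lev ≤ N := by
        have h1 := hK'.2.1
        have h2 := hT _ hTn
        omega
      refine ⟨Function.update ν (nb t i) w', ?_, ?_, ?_⟩
      · have h0 : (0 : Fin 24) ≠ nb t i := by
          intro e
          have := congrArg plen e
          have h3 : plen t < plen (nb t i) := by simpa [isup] using hu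
          rw [← this] at h3
          have : plen 0 = 0 := rfl
          omega
        rw [Function.update_of_ne h0]
        exact h.1
      · intro r hr
        simp only at hr
        rw [testBit_or_pow] at hr
        by_cases hrn : r = nb t i
        · subst hrn
          rw [Function.update_self]
          exact ⟨hK', hl'⟩
        · rw [Function.update_of_ne hrn]
          rcases hr with hr | hr
          · exact h.2.1 r hr
          · exact absurd (Fin.ext hr) hrn
      · intro r k hr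
        simp only at hr
        rw [testBit_or_pow] at hr
        rcases hr with hr | hr
        · obtain ⟨g1, g2, g3, g4⟩ := h.2.2 r k hr
          have n1 : r ≠ nb t i := by rintro rfl; rw [hS'] at g2; simp at g2
          have n2 : nb r k ≠ nb t i := by intro e; rw [e, hS'] at g3; simp at g3
          refine ⟨g1, ?_, ?_, ?_⟩
          · rw [testBit_or_pow]; exact Or.inl g2
          · rw [testBit_or_pow]; exact Or.inl g3
          · rw [Function.update_of_ne n1, Function.update_of_ne n2]; exact g4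
        · obtain ⟨rfl, rfl⟩ := ec_inj _ _ _ _ hr
          have n1 : r ≠ nb r k := by
            intro e
            have h3 : plen r < plen (nb r k) := by simpa [isup] using hu
            rw [← e] at h3
            omega
          refine ⟨hu, ?_, ?_, ?_⟩
          · rw [testBit_or_pow]; exact Or.inl hS
          · rw [testBit_or_pow]; exact Or.inr rfl
          · rw [Function.update_of_ne n1, Function.update_self]; exact m
    · exact ⟨ν, h⟩
  · unfold mstep
    simp only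
    generalize altw (nb t i) j i (if adj i j = true then 5 else 3) = ρ
    by_cases hc : isup t i = true ∧ σ.1.testBit t.val = true ∧ σ.1.testBit (nb t i).val = true ∧
        ρ ++ [(i, true)] ∈ Rels ∧ wlkE σ.2 (nb t i) ρ = some t
    · rw [if_pos hc]
      obtain ⟨hu, hS, hS', hρ, hwl⟩ := hc
      refine ⟨ν, h.1, h.2.1, ?_⟩
      intro r k hr
      simp only at hr
      rw [testBit_or_pow] at hr
      rcases hr with hr | hr
      · exact h.2.2 r k hr
      · obtain ⟨rfl, rfl⟩ := ec_inj _ _ _ _ hr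
        refine ⟨hu, hS, hS', ?_⟩
        obtain ⟨hK, hl⟩ := h.2.1 r hS
        obtain ⟨hKn, hln⟩ := h.2.1 _ hS'
        obtain ⟨w', m⟩ := HN.ex C hK.1 hl (k, true)
        have hK' := hK.step C W hu m
        have hl' : w'.lev ≤ N := by
          have h1 := hK'.2.1
          have h2 := hKn.2.1
          omega
        have hw := (h.wlk hS' hwl).append (Wk.single m hl hl')
        have := HN.d _ hρ _ _ hw
        rw [this]
        exact m
    · rw [if_neg hc]; exact ⟨ν, h⟩

def mrun (T : ℕ) (p : List Ins) (σ : ℕ × ℕ) : ℕ × ℕ := p.foldl (mstep T) σ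

include C W in
theorem mrun_inv {N : ℕ} (HN : H A N) {e0 : V A} {v : Fin 24 → ℤ} {T : ℕ}
    (hT : ∀ t : Fin 24, T.testBit t.val = false → (e0.lev : ℤ) + v t ≤ N) (p : List Ins) :
    ∀ {σ : ℕ × ℕ} {ν : Fin 24 → V A}, MInv D N e0 v ν σ.1 σ.2 →
    ∃ ν', MInv D N e0 v ν' (mrun T p σ).1 (mrun T p σ).2 := by
  induction p with
  | nil => intro σ ν h; exact ⟨ν, h⟩
  | cons a p ih =>
    intro σ ν h
    obtain ⟨ν', h'⟩ := mstep_inv C W HN hT (ins := a) h
    exact ih h'

include C W in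
/-- the machine started at a base vertex -/
theorem mrun_start {N : ℕ} (HN : H A N) {e0 : V A} (hok : e0.ok) {v : Fin 24 → ℤ}
    (hv : D.fp e0.st = v) (h0 : v 0 = 0) {T : ℕ}
    (hT : ∀ t : Fin 24, T.testBit t.val = false → (e0.lev : ℤ) + v t ≤ N)
    (hT0 : T.testBit 0 = false) (p : List Ins) :
    ∃ ν', MInv D N e0 v ν' (mrun T p (1, 0)).1 (mrun T p (1, 0)).2 := by
  refine mrun_inv C W HN hT p (ν := fun _ => e0) ⟨rfl, ?_, ?_⟩
  · intro t ht
    have : t = 0 := by
      have : t.val = 0 := by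
        simp only at ht
        rw [Nat.testBit_one_eq_true_iff_self_eq_zero] at ht
        exact ht
      exact Fin.ext this
    subst this
    refine ⟨⟨hok, by rw [h0]; simp, ?_⟩, ?_⟩
    · intro r _
      rw [(quo_zero r).2, hv, h0]; simp
    · have := hT 0 hT0
      rw [h0] at this
      show e0.lev ≤ N
      omega
  · intro t i ht
    simp at ht

end Run7.h160
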