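import Pool.Agent.Run7.h160.Mach

namespace Run7.h160

variable {A : Auto} {D : Dat A}

/-- mirror part of the certificate -/
structure CertM (A : Auto) (D : Dat A) : Prop where
  μfail : D.μ A.fail = A.fail
  μ0 : D.μ A.q0 = A.q0
  μδ : ∀ q x, D.μ (A.δ q x) = A.δ (D.μ q) (inv x)
  μμ : ∀ q, D.μ (D.μ q) = q
  μP : ∀ q, D.P (D.μ q) = (D.P q).map w0

theorem CertM.run (Mi : CertM A D) (c : List X) : A.run (c.map inv) = D.μ (A.run c) := by
  induction c with
  | nil => exact Mi.μ0.symm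
  | cons x c ih =>
    show A.δ (A.run (c.map inv)) (inv x) = D.μ (A.δ (A.run c) x)
    rw [ih, Mi.μδ]

theorem CertM.ne (Mi : CertM A D) {q : A.Q} : D.μ q ≠ A.fail ↔ q ≠ A.fail := by
  constructor
  · rintro h rfl; exact h Mi.μfail
  · intro h h'
    apply h
    rw [← Mi.μμ q, h', Mi.μfail]

theorem mem6_inv : ∀ r ∈ Rel6, r.map inv ∈ Rel6 := by decide
theorem mem4_inv : ∀ r ∈ Rel4, r.map inv ∈ Rel4 := by decide

theorem E.mirror (Mi : CertM A D) {c d : List X} (h : E A c d) : E A (c.map inv) (d.map inv) := by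
  induction h with
  | refl => exact E.refl _
  | symm _ ih => exact ih.symm
  | trans _ _ ih1 ih2 => exact ih1.trans ih2
  | cons x _ ih => exact E.cons _ ih
  | rel3 s t u u' t' s' c h =>
    have := mem6_inv _ h
    exact E.rel3 _ _ _ _ _ _ _ (by simpa using this)
  | rel2 s t t' s' c h =>
    have := mem4_inv _ h
    exact E.rel2 _ _ _ _ _ (by simpa using this)
  | lad s x x' s' t' t c1 c3 h h1 _ ih =>
    have := mem6_inv _ h
    refine E.lad _ _ _ _ _ _ _ _ (by simpa using this) ?_ ih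
    have h2 := Mi.run (t :: c1)
    rw [List.map_cons] at h2
    rw [h2]
    exact Mi.ne.2 h1

/-- mirror image of a vertex -/
def M (Mi : CertM A D) (v : V A) : V A :=
  Quotient.map' (s₁ := ⟨E A, E.eqv⟩) (s₂ := ⟨E A, E.eqv⟩) (List.map inv)
    (fun _ _ h => E.mirror Mi h) v

theorem M_mk (Mi : CertM A D) (c : List X) : M Mi (V.mk c) = V.mk (c.map inv) := rfl

theorem M_M (Mi : CertM A D) (v : V A) : M Mi (M Mi v) = v := by
  obtain ⟨c, rfl⟩ := v.ex
  rw [M_mk, M_mk, List.map_map]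
  have : (inv ∘ inv) = id := by funext x; simp
  rw [this, List.map_id]

theorem M_lev (Mi : CertM A D) (v : V A) : (M Mi v).lev = v.lev := by
  obtain ⟨c, rfl⟩ := v.ex
  rw [M_mk, V.lev_mk, V.lev_mk, List.length_map]

theorem M_up (Mi : CertM A D) (x : X) (v : V A) : M Mi (v.up x) = (M Mi v).up (inv x) := by
  obtain ⟨c, rfl⟩ := v.ex
  rfl

theorem M_st (C : Cert1 A) (Mi : CertM A D) (v : V A) : (M Mi v).st = D.μ v.st := by
  obtain ⟨c, rfl⟩ := v.ex
  rw [M_mk, V.st_mk C, V.st_mk C, Mi.run]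

theorem M_ok (C : Cert1 A) (Mi : CertM A D) {v : V A} : (M Mi v).ok ↔ v.ok := by
  unfold V.ok
  rw [M_st C, Mi.ne]

theorem M_mv (C : Cert1 A) (Mi : CertM A D) {x : X} {v w : V A} (h : Mv x v w) :
    Mv (inv x) (M Mi v) (M Mi w) := by
  obtain ⟨h1, h2, h3⟩ := h
  refine ⟨(M_ok C Mi).2 h1, (M_ok C Mi).2 h2, ?_⟩
  rcases h3 with h3 | h3
  · left; rw [h3, M_up]
  · right; rw [h3, M_up]

end Run7.h160
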