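import Pool.Agent.Run7.h160.Lk

namespace Run7.h160

def nbL : List (List (Fin 24)) :=
  [[1, 2, 3], [0, 4, 5], [6, 0, 7], [5, 8, 0], [9, 1, 10], [3, 11, 1], [2, 9, 12], [12, 13, 2],
   [14, 3, 13], [4, 6, 15], [15, 16, 4], [17, 5, 16], [7, 18, 6], [19, 7, 8], [8, 17, 19],
   [10, 20, 9], [21, 10, 11], [11, 14, 21], [22, 12, 20], [13, 22, 14], [23, 15, 18],
   [16, 23, 17], [18, 19, 23], [20, 21, 22]]

/-- right multiplication of a position by a generator -/
def nb (t : Fin 24) (i : Fin 3) : Fin 24 := (nbL.getD t.val []).getD i.val 0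

def lenL : List ℕ :=
  [0, 1, 1, 1, 2, 2, 2, 2, 2, 3, 3, 3, 3, 3, 3, 4, 4, 4, 4, 4, 5, 5, 5, 6]

/-- length of a position -/
def plen (t : Fin 24) : ℕ := lenL.getD t.val 0

/-- does the generator lengthen the position -/
def isup (t : Fin 24) (i : Fin 3) : Bool := plen t < plen (nb t i)

def w0L : List (Fin 24) :=
  [23, 20, 21, 22, 15, 18, 16, 17, 19, 10, 9, 12, 11, 14, 13, 4, 6, 7, 5, 8, 1, 2, 3, 0]

/-- left multiplication by the longest element -/
def w0 (t : Fin 24) : Fin 24 := w0L.getD t.val 0

/-- the letter read when moving from position t along generator i -/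
def letter (t : Fin 24) (i : Fin 3) : X := (i, isup t i)

/-- follow a word on positions -/
def wlk (t : Fin 24) : List X → Option (Fin 24)
  | [] => some t
  | l :: α => if letter t l.1 = l then wlk (nb t l.1) α else none

theorem nb_nb : ∀ t i, nb (nb t i) i = t := by decide
theorem isup_nb : ∀ t i, isup (nb t i) i = !(isup t i) := by decide
theorem w0_nb : ∀ t i, w0 (nb t i) = nb (w0 t) i := by decide
theorem w0_w0 : ∀ t, w0 (w0 t) = t := by decide
theorem isup_w0 : ∀ t i, isup (w0 t) i = !(isup t i) := by decide

theorem letter_nb (t : Fin 24) (i : Fin 3) : letter (nb t i) i = inv (letter t i) := by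
  simp [letter, inv, isup_nb]

/-- squares always follow the positions -/
theorem sq_path : ∀ s : Fin 24, ∀ r ∈ Rel4,
    ∀ a ∈ r.head?, ∀ b ∈ (r.drop 1).head?, ∀ y ∈ (r.drop 2).head?, ∀ x' ∈ (r.drop 3).head?,
    letter s y.1 = inv y → letter s x'.1 = x' → wlk (nb s x'.1) [a, b] = some (nb s y.1) := by
  decide

variable {A : Auto}

/-- a full permutohedron inside the ball -/
structure Full (v : V A) (s : Fin 24) (n : ℕ) (ν : Fin 24 → V A) : Prop where
  edge : ∀ t i, isup t i = true → Mv (i, true) (ν t) (ν (nb t i))
  top : ν s = v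
  lev : ∀ t, (ν t).lev ≤ n

theorem Full.mv {v : V A} {s : Fin 24} {n : ℕ} {ν : Fin 24 → V A} (h : Full v s n ν)
    (t : Fin 24) (i : Fin 3) : Mv (letter t i) (ν t) (ν (nb t i)) := by
  by_cases hu : isup t i = true
  · have := h.edge t i hu
    unfold letter
    rwa [hu]
  · have h2 : isup (nb t i) i = true := by rw [isup_nb]; simpa using hu
    have := (h.edge _ i h2).symm
    rw [nb_nb] at this
    unfold letter
    simp only [Bool.not_eq_true] at hu
    rw [hu]
    exact this

theorem Full.wk {v : V A} {s : Fin 24} {n : ℕ} {ν : Fin 24 → V A} (h : Full v s n ν)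
    {α : List X} : ∀ {t t' : Fin 24}, wlk t α = some t' → Wk n (ν t) α (ν t') := by
  induction α with
  | nil =>
    intro t t' ht
    have : t = t' := by simpa [wlk] using ht
    subst this
    exact ⟨rfl, (h.mv t 0).1, h.lev t⟩
  | cons l α ih =>
    intro t t' ht
    unfold wlk at ht
    split_ifs at ht with hl
    refine ⟨h.lev t, ν (nb t l.1), ?_, ih ht⟩
    have := h.mv t l.1
    rwa [hl] at this

/-- reversal of position walks -/
theorem wlk_append {α β : List X} : ∀ {t u w : Fin 24}, wlk t α = some u → wlk u β = some w →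
    wlk t (α ++ β) = some w := by
  induction α with
  | nil => intro t u w h1 h2; have : t = u := by simpa [wlk] using h1
           subst this; exact h2
  | cons l α ih =>
    intro t u w h1 h2
    unfold wlk at h1
    split_ifs at h1 with hl
    rw [List.cons_append]
    unfold wlk
    rw [if_pos hl]
    exact ih h1 h2

theorem wlk_rev {α : List X} : ∀ {t u : Fin 24}, wlk t α = some u → wlk u (rev α) = some t := by
  induction α with
  | nil => intro t u h; have : t = u := by simpa [wlk] using h
           subst this; rfl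
  | cons l α ih =>
    intro t u h
    unfold wlk at h
    split_ifs at h with hl
    rw [rev_cons]
    refine wlk_append (ih h) ?_
    have e : letter (nb t l.1) (inv l).1 = inv l := by
      have := letter_nb t l.1
      rw [hl] at this
      exact this
    unfold wlk
    rw [if_pos e]
    simp [wlk, inv, nb_nb]

end Run7.h160
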