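import Pool.Agent.Run7.h160.Pos

namespace Run7.h160

/-- additional data on the states -/
structure Dat (A : Auto) where
  κ : A.Q → X
  P : A.Q → Option (Fin 24)
  fp : A.Q → Fin 24 → ℤ
  μ : A.Q → A.Q
  G : A.Q → Fin 24 → Fin 24 → Prop

variable {A : Auto}

/-- availability of an arc -/
def av (A : Auto) (q : A.Q) (x y : X) : Prop :=
  (∃ a b c d, [a, b, c, d, y, inv x] ∈ Rel6 ∧ A.δ q a = A.fail) ∨
  (∃ a b, [a, b, y, inv x] ∈ Rel4 ∧ A.δ q a = A.fail)

/-- certificate for the tops -/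
structure Cert2 (A : Auto) (D : Dat A) : Prop where
  av1 : ∀ q x y, A.δ q x ≠ A.fail → D.P (A.δ q x) = none → A.δ (A.δ q x) (inv y) = A.fail →
    y ≠ x → av A q x y → x = D.κ (A.δ q x) ∨ y = D.κ (A.δ q x)
  av2 : ∀ q x y, A.δ q x ≠ A.fail → D.P (A.δ q x) = none → A.δ (A.δ q x) (inv y) = A.fail →
    y ≠ x → (x = D.κ (A.δ q x) ∨ y = D.κ (A.δ q x)) → av A q x y
  av3 : ∀ q x y, A.δ q x ≠ A.fail → D.P (A.δ q x) = none → A.δ (A.δ q x) (inv y) = A.fail →
    ∀ a b, [a, b, y, inv x] ∈ Rel4 → A.δ q a = A.fail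
  κm : ∀ q x, A.δ q x ≠ A.fail → D.P (A.δ q x) = none →
    A.δ (A.δ q x) (inv (D.κ (A.δ q x))) = A.fail
  c5b : ∀ q1 x y a b c d, [a, b, c, d, y, inv x] ∈ Rel6 →
    A.δ (A.δ q1 (inv a)) x ≠ A.fail → D.P (A.δ (A.δ q1 (inv a)) x) = none →
    A.δ (A.δ (A.δ q1 (inv a)) x) (inv y) = A.fail → A.δ (A.δ q1 b) c = A.fail
  c8 : ∀ q x y a b c d, [a, b, c, d, y, inv x] ∈ Rel6 → A.δ q x ≠ A.fail →
    A.δ (A.δ q x) (inv y) = A.fail → D.P (A.δ q x) = none → A.δ q a ≠ A.fail →
    A.δ (A.δ q a) b ≠ A.fail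
  c8P : ∀ q x y a b c d, [a, b, c, d, y, inv x] ∈ Rel6 → A.δ q x ≠ A.fail →
    A.δ (A.δ q x) (inv y) = A.fail → ∀ s, D.P (A.δ q x) = some s →
    wlk (nb s x.1) [a, b, c, d] ≠ some (nb s y.1) → A.δ (A.δ q a) b ≠ A.fail
  pD : ∀ z s, D.P z = some s → ∀ i, A.δ z (letter s i) = A.fail

theorem arc_ne : ∀ r ∈ Rels, (r.drop (r.length - 2)).head? ≠
    (r.drop (r.length - 1)).head?.map inv := by decide

theorem arc_ne' {x y : X} {α : List X} (h : α ++ [y, inv x] ∈ Rels) : y ≠ x := by
  have := arc_ne _ h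
  intro e
  apply this
  have e1 : (α ++ [y, inv x]).drop ((α ++ [y, inv x]).length - 2) = [y, inv x] := by
    simp
  have e2 : (α ++ [y, inv x]).drop ((α ++ [y, inv x]).length - 1) = [inv x] := by
    simp
  rw [e1, e2]
  simp [e]

theorem av_of {q : A.Q} {x y : X} {a : X} {α : List X} (h : (a :: α) ++ [y, inv x] ∈ Rels)
    (h1 : A.δ q a = A.fail) : av A q x y := by
  rcases arc_cases h with ⟨a', b, c, d, e, h6⟩ | ⟨a', b, e, h4⟩
  · left
    have : a = a' := by simpa using congrArg List.head? e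
    subst this
    exact ⟨a, b, c, d, h6, h1⟩
  · right
    have : a = a' := by simpa using congrArg List.head? e
    subst this
    exact ⟨a, b, h4, h1⟩

section nonP

variable {D : Dat A} (C : Cert1 A) (C2 : Cert2 A D) {N : ℕ} (HN : H A N)

include C C2 HN

/-- existence of the arc walk below a nonP top -/
theorem arc_walk6 {x y : X} {p : V A} (hp : p.lev = N) (hok : (p.up x).ok)
    (hP : D.P (p.up x).st = none) (hy : A.δ (p.up x).st (inv y) = A.fail)
    {a b c d : X} (h : [a, b, c, d, y, inv x] ∈ Rel6) (ha : A.δ p.st a = A.fail) :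
    ∃ p', Wk N p [a, b, c, d] p' := by
  have pok := V.ok_of_up C hok
  obtain ⟨u1, hu1⟩ := HN.b p pok hp.le (inv a) (by rwa [inv_inv])
  have m1 : Mv a p u1 := ⟨pok, V.ok_of_up C (x := inv a) (hu1 ▸ pok), Or.inr hu1⟩
  have l1 : u1.lev + 1 = N := by rw [← hp, hu1, V.lev_up]
  obtain ⟨u2, m2⟩ := HN.ex C m1.2.1 (by omega) b
  rcases m2.lev with l2 | l2
  · have e2 : u2 = u1.up b := m2.eq_up_of_lev l2
    have key : A.δ u2.st c = A.fail := by
      rw [e2, V.st_up C]
      refine C2.c5b u1.st x y a b c d h ?_ ?_ ?_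
      · rw [← V.st_up C, ← hu1, ← V.st_up C]; exact hok
      · rw [← V.st_up C, ← hu1, ← V.st_up C]; exact hP
      · rw [← V.st_up C, ← hu1, ← V.st_up C]; exact hy
    obtain ⟨u3, m3⟩ := HN.ex C m2.2.1 (by omega) c
    have e3 := m3.down_eq C key
    have l3 : u3.lev + 1 = u2.lev := by
      conv_rhs => rw [e3]
      simp
    obtain ⟨u4, m4⟩ := HN.ex C m3.2.1 (by omega) d
    have l4 : u4.lev ≤ N := by rcases m4.lev with h | h <;> omega
    exact ⟨u4, hp.le, u1, m1, by omega, u2, m2, by omega, u3, m3, by omega, u4, m4, rfl,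
      m4.2.1, l4⟩
  · obtain ⟨u3, m3⟩ := HN.ex C m2.2.1 (by omega) c
    have l3 : u3.lev ≤ u2.lev + 1 := by rcases m3.lev with h | h <;> omega
    obtain ⟨u4, m4⟩ := HN.ex C m3.2.1 (by omega) d
    have l4 : u4.lev ≤ N := by rcases m4.lev with h | h <;> omega
    exact ⟨u4, hp.le, u1, m1, by omega, u2, m2, by omega, u3, m3, by omega, u4, m4, rfl,
      m4.2.1, l4⟩

omit C2 in
theorem arc_walk4 {x : X} {p : V A} (hp : p.lev = N) (hok : (p.up x).ok)
    {a b : X} (ha : A.δ p.st a = A.fail) :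
    ∃ p', Wk N p [a, b] p' := by
  have pok := V.ok_of_up C hok
  obtain ⟨u1, hu1⟩ := HN.b p pok hp.le (inv a) (by rwa [inv_inv])
  have m1 : Mv a p u1 := ⟨pok, V.ok_of_up C (x := inv a) (hu1 ▸ pok), Or.inr hu1⟩
  have l1 : u1.lev + 1 = N := by rw [← hp, hu1, V.lev_up]
  obtain ⟨u2, m2⟩ := HN.ex C m1.2.1 (by omega) b
  have l2 : u2.lev ≤ N := by rcases m2.lev with h | h <;> omega
  exact ⟨u2, hp.le, u1, m1, by omega, u2, m2, rfl, m2.2.1, l2⟩

theorem av_link {x y : X} {p : V A} (hp : p.lev = N) (hok : (p.up x).ok)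
    (hP : D.P (p.up x).st = none) (hy : A.δ (p.up x).st (inv y) = A.fail)
    (hav : av A p.st x y) : ∃ p', Lk N (x, p) (y, p') := by
  rcases hav with ⟨a, b, c, d, h, ha⟩ | ⟨a, b, h, ha⟩
  · obtain ⟨p', hp'⟩ := arc_walk6 C C2 HN hp hok hP hy h ha
    exact ⟨p', hp, hok, [a, b, c, d], List.mem_append_left _ h, hp'⟩
  · obtain ⟨p', hp'⟩ := arc_walk4 C HN (b := b) hp hok ha
    exact ⟨p', hp, hok, [a, b], List.mem_append_right _ h, hp'⟩

theorem nonP_b {x y : X} {p : V A} (hp : p.lev = N) (hok : (p.up x).ok)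
    (hP : D.P (p.up x).st = none) (hy : A.δ (p.up x).st (inv y) = A.fail) :
    ∃ p', p.up x = V.up y p' := by
  by_cases hxy : y = x
  · exact ⟨p, by rw [hxy]⟩
  have hst := V.st_up C x p
  by_cases hk : x = D.κ (p.up x).st ∨ y = D.κ (p.up x).st
  · have := C2.av2 p.st x y (hst ▸ hok) (hst ▸ hP) (hst ▸ hy) hxy (hst ▸ hk)
    obtain ⟨p', hp'⟩ := av_link C C2 HN hp hok hP hy this
    exact ⟨p', hp'.eq C⟩
  · push Not at hk
    have hκ : A.δ (p.up x).st (inv (D.κ (p.up x).st)) = A.fail := by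
      rw [hst]; exact C2.κm p.st x (hst ▸ hok) (hst ▸ hP)
    have h1 := C2.av2 p.st x (D.κ (p.up x).st) (hst ▸ hok) (hst ▸ hP) (hst ▸ hκ)
      (fun h => hk.1 h.symm) (Or.inr (by rw [hst]))
    obtain ⟨k, hk'⟩ := av_link C C2 HN hp hok hP hκ h1
    have e1 : p.up x = k.up (D.κ (p.up x).st) := hk'.eq C
    generalize hκx : D.κ (p.up x).st = κ at *
    have lk := hk'.lev C
    have hst2 := V.st_up C κ k
    rw [e1] at hok hP hy hκx ⊢
    have h2 := C2.av2 k.st κ y (hst2 ▸ hok) (hst2 ▸ hP) (hst2 ▸ hy)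
      hk.2 (Or.inl (by rw [← hst2]; exact hκx.symm))
    obtain ⟨p', hp'⟩ := av_link C C2 HN lk hok hP hy h2
    exact ⟨p', hp'.eq C⟩

omit HN in
theorem Lk_kappa {a b : X × V A} (h : Lk N a b) (hP : D.P (a.2.up a.1).st = none) :
    a.1 = D.κ (a.2.up a.1).st ∨ b.1 = D.κ (a.2.up a.1).st := by
  have e := h.eq C
  obtain ⟨h1, h2, α, h3, h4⟩ := h
  have hst := V.st_up C a.1 a.2
  have hy : A.δ (a.2.up a.1).st (inv b.1) = A.fail := by
    rw [e, V.st_up C, C.back]
  have hh : ∃ c α', α = c :: α' := by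
    rcases arc_cases h3 with ⟨c, _, _, _, rfl, _⟩ | ⟨c, _, rfl, _⟩
    · exact ⟨c, _, rfl⟩
    · exact ⟨c, _, rfl⟩
  obtain ⟨c, α', rfl⟩ := hh
  have := head_fail C h1 h4
  have := C2.av1 a.2.st a.1 b.1 (hst ▸ h2) (hst ▸ hP) (hst ▸ hy) (arc_ne' h3) (av_of h3 this)
  rwa [← hst] at this

theorem nonP_c {a b : X × V A} (hP : D.P (a.2.up a.1).st = none)
    (hok : (a.2.up a.1).ok) (hl : a.2.lev = N)
    (e : a.2.up a.1 = b.2.up b.1) (hab : b.1 = a.1) : b = a := by
  have hR := inversion_up C hok e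
  rw [hl] at hR
  set κ := D.κ (a.2.up a.1).st with hκ
  have inv0 : ∀ c : X × V A, Relation.ReflTransGen (Lk N) (a.1, a.2) c → a.2.up a.1 = c.2.up c.1 := by
    intro c hc
    induction hc with
    | refl => rfl
    | tail _ h2 ih => rw [ih, h2.eq C]
  have kap : ∀ c d : X × V A, Relation.ReflTransGen (Lk N) (a.1, a.2) c → Lk N c d →
      c.1 = κ ∨ d.1 = κ := by
    intro c d hc hcd
    have h1 := inv0 c hc
    have := Lk_kappa C C2 hcd (h1 ▸ hP)
    rwa [← h1] at this
  by_cases hak : a.1 = κ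
  · have key : ∀ c : X × V A, Relation.ReflTransGen (Lk N) (a.1, a.2) c →
        c = a ∨ (c.1 ≠ κ ∧ Lk N a c) := by
      intro c hc
      induction hc with
      | refl => exact Or.inl rfl
      | @tail c d hc hcd ih =>
        rcases ih with ih | ⟨ih1, ih2⟩
        · subst ih
          right
          refine ⟨?_, hcd⟩
          obtain ⟨_, _, α, h3, _⟩ := hcd
          rw [← hak]; exact arc_ne' h3
        · left
          have hd : d.1 = κ := (kap c d hc hcd).resolve_left ih1
          exact (hcd.func C HN.c (ih2.symm C) (by rw [hd, hak]))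
    rcases key b hR with h | ⟨h, _⟩
    · exact h
    · exact absurd (hab.trans hak) h
  · have key : ∀ c : X × V A, Relation.ReflTransGen (Lk N) (a.1, a.2) c →
        c = a ∨ (c.1 = κ ∧ Lk N a c) ∨ (c.1 ≠ κ ∧ ∃ k : X × V A, k.1 = κ ∧ Lk N a k ∧ Lk N k c) := by
      intro c hc
      induction hc with
      | refl => exact Or.inl rfl
      | @tail c d hc hcd ih =>
        rcases ih with ih | ⟨ih1, ih2⟩ | ⟨ih1, k, ih2, ih3, ih4⟩
        · subst ih
          right; left
          exact ⟨(kap c d hc hcd).resolve_left hak, hcd⟩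
        · right; right
          refine ⟨?_, c, ih1, ih2, hcd⟩
          obtain ⟨_, _, α, h3, _⟩ := hcd
          rw [← ih1]; exact arc_ne' h3
        · right; left
          have hd : d.1 = κ := (kap c d hc hcd).resolve_left ih1
          have : d = k := hcd.func C HN.c (ih4.symm C) (by rw [hd, ih2])
          subst this
          exact ⟨hd, ih3⟩
    rcases key b hR with h | ⟨h, _⟩ | ⟨_, k, _, h2, h3⟩
    · exact h
    · exact absurd (hab.symm.trans h) hak
    · exact (h3.func C HN.c (h2.symm C) hab)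

end nonP

/-- the full lift property at level `N` -/
def FL (A : Auto) (D : Dat A) (N : ℕ) : Prop :=
  ∀ (x : X) (p : V A) (s : Fin 24), p.lev = N → (p.up x).ok → D.P (p.up x).st = some s →
    ∃ ν, Full (p.up x) s (N + 1) ν ∧ ν (nb s x.1) = p

section P

variable {D : Dat A} (C : Cert1 A) (C2 : Cert2 A D) {N : ℕ} (HN : H A N) (hF : FL A D N)

include C C2 in
theorem P_letter {z : A.Q} {s : Fin 24} {y : X} (hz : z ≠ A.fail) (hP : D.P z = some s)
    (hy : A.δ z (inv y) = A.fail) : letter s y.1 = inv y := by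
  by_contra h
  have h1 := C2.pD z s hP y.1
  have h2 : letter s y.1 = y := by
    rcases y with ⟨i, b⟩
    simp only [letter, inv, Prod.mk.injEq, true_and] at h ⊢
    cases b <;> cases hh : isup s i <;> simp_all
  rw [h2] at h1
  exact C.gate z y hz h1 hy

include C C2 HN hF

omit HN in
theorem P_b {x y : X} {p : V A} {s : Fin 24} (hp : p.lev = N) (hok : (p.up x).ok)
    (hP : D.P (p.up x).st = some s) (hy : A.δ (p.up x).st (inv y) = A.fail) :
    ∃ p', p.up x = V.up y p' := by
  obtain ⟨ν, hν, _⟩ := hF x p s hp hok hP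
  have h1 := P_letter C C2 hok hP hy
  have h2 := hν.mv s y.1
  rw [hν.top, h1] at h2
  have := h2.down_eq C hy
  rw [inv_inv] at this
  exact ⟨_, this⟩

omit hF in
/-- every pair linked to (x,p) is read off the permutohedron -/
theorem P_read {x : X} {p : V A} {s : Fin 24} (hok : (p.up x).ok)
    (hP : D.P (p.up x).st = some s) {ν : Fin 24 → V A} (hν : Full (p.up x) s (N + 1) ν)
    (hνp : ν (nb s x.1) = p) {b : X × V A} (hR : Relation.ReflTransGen (Lk N) (x, p) b) :
    b.2 = ν (nb s b.1.1) := by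
  have inv0 : ∀ c : X × V A, Relation.ReflTransGen (Lk N) (x, p) c → p.up x = c.2.up c.1 := by
    intro c hc
    induction hc with
    | refl => rfl
    | tail _ h2 ih => rw [ih, h2.eq C]
  induction hR with
  | refl => exact hνp.symm
  | @tail b c hb hbc ih =>
    have e1 := inv0 b hb
    have e2 := inv0 c (hb.tail hbc)
    obtain ⟨h1, h2, α, h3, h4⟩ := hbc
    rcases arc_cases h3 with ⟨a1, a2, a3, a4, rfl, h6⟩ | ⟨a1, a2, rfl, h6⟩
    · have hst := V.st_up C b.1 b.2
      have hy : A.δ (b.2.up b.1).st (inv c.1) = A.fail := by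
        rw [← e1, e2, V.st_up C, C.back]
      by_cases hw : wlk (nb s b.1.1) [a1, a2, a3, a4] = some (nb s c.1.1)
      · have := hν.wk hw
        rw [← ih] at this
        exact H.detW HN.c C h4 this
      · exfalso
        apply C2.c8P b.2.st b.1 c.1 a1 a2 a3 a4 h6 (hst ▸ h2) (hst ▸ hy) s
          (by rw [← hst, ← e1]; exact hP) hw
        have := head_fail C h1 h4
        rw [this, C.absorb]
    · have hy : A.δ (p.up x).st (inv c.1) = A.fail := by
        rw [e2, V.st_up C, C.back]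
      have hy' : A.δ (p.up x).st (inv b.1) = A.fail := by
        rw [e1, V.st_up C, C.back]
      have l1 := P_letter C C2 hok hP hy
      have l2 := P_letter C C2 hok hP hy'
      have := sq_path s _ h6 a1 rfl a2 rfl c.1 rfl (inv b.1) rfl l1 (by
        rw [show (inv b.1).1 = b.1.1 from rfl]; exact l2)
      have := hν.wk this
      rw [show (inv b.1).1 = b.1.1 from rfl, ← ih] at this
      exact H.detW HN.c C h4 this

theorem P_c {x : X} {p p' : V A} {s : Fin 24} (hp : p.lev = N) (hok : (p.up x).ok)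
    (hP : D.P (p.up x).st = some s) (e : p.up x = p'.up x) : p = p' := by
  obtain ⟨ν, hν, hνp⟩ := hF x p s hp hok hP
  have hR := inversion_up C hok e
  rw [hp] at hR
  have := P_read C C2 HN hok hP hν hνp hR
  simp only at this
  rw [this, hνp]

end P

section step

variable {D : Dat A} (C : Cert1 A) (C2 : Cert2 A D) {N : ℕ} (HN : H A N) (hF : FL A D N)
include C C2 HN hF

theorem step_b : ∀ v : V A, v.ok → v.lev ≤ N + 1 → ∀ y, A.δ v.st (inv y) = A.fail →
    ∃ p, v = V.up y p := by
  intro v hv hl y hy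
  by_cases hl' : v.lev ≤ N
  · exact HN.b v hv hl' y hy
  have hl2 : v.lev = N + 1 := by omega
  obtain ⟨c, rfl⟩ := v.ex
  match c, hl2 with
  | x :: c', hl2 =>
    have hp : (V.mk c' : V A).lev = N := by simpa using hl2
    have e : (V.mk (x :: c') : V A) = (V.mk c').up x := rfl
    rw [e] at hv hy ⊢
    rcases hP : D.P ((V.mk c' : V A).up x).st with _ | s
    · exact nonP_b C C2 HN hp hv hP hy
    · exact P_b C C2 hF hp hv hP hy

theorem step_c : ∀ (y : X) (p p' : V A), (p.up y).ok → (p.up y).lev ≤ N + 1 →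
    p.up y = p'.up y → p = p' := by
  intro y p p' hok hl e
  by_cases hl' : (p.up y).lev ≤ N
  · exact HN.c y p p' hok hl' e
  have hp : p.lev = N := by rw [V.lev_up] at hl hl'; omega
  rcases hP : D.P (p.up y).st with _ | s
  · have := nonP_c C C2 HN (a := (y, p)) (b := (y, p')) hP hok hp e rfl
    exact (congrArg Prod.snd this).symm
  · exact P_c C C2 HN hF hp hok hP e

/-- corner lemma -/
theorem corner {x y : X} {u p p' : V A} (hu : u.ok) (hp : p.lev = N) (e1 : u = p.up x)
    (e2 : u = p'.up y) {α : List X} (hα : α ++ [y, inv x] ∈ Rels) :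
    Wk (N + 1) p α p' ∨ (∃ a b c d, α = [a, b, c, d] ∧ A.δ (A.δ p.st a) b ≠ A.fail ∧
      A.δ (A.δ p'.st (inv d)) (inv c) ≠ A.fail) := by
  have hp' : p'.lev = N := by
    have := congrArg V.lev (e1.symm.trans e2)
    simp at this; omega
  have hyx := arc_ne' hα
  have hok1 : (p.up x).ok := e1 ▸ hu
  have hok2 : (p'.up y).ok := e2 ▸ hu
  have hy : A.δ u.st (inv y) = A.fail := by rw [e2, V.st_up C, C.back]
  have hx : A.δ u.st (inv x) = A.fail := by rw [e1, V.st_up C, C.back]
  have hs1 : u.st = A.δ p.st x := by rw [e1, V.st_up C]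
  have hs2 : u.st = A.δ p'.st y := by rw [e2, V.st_up C]
  have fromW : ∀ p'', Wk N p α p'' → Wk (N + 1) p α p' := by
    intro p'' hw
    have := Lk_eq C hp hok1 hα hw
    have h3 : p'.up y = p''.up y := by rw [← e2, e1, this]
    have h4 := step_c C C2 HN hF y p' p'' hok2 (by simp [hp']) h3
    rw [h4]
    exact hw.mono (by omega)
  have hα' : rev α ++ [x, inv y] ∈ Rels := by
    have := memR_rev _ hα
    rw [rev_append] at this
    have := memR_rot _ _ this
    simpa [rev] using this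
  have fromW' : ∀ p'', Wk N p' (rev α) p'' → Wk (N + 1) p α p' := by
    intro p'' hw
    have := Lk_eq C hp' hok2 hα' hw
    have h3 : p.up x = p''.up x := by rw [← e1, e2, this]
    have h4 := step_c C C2 HN hF x p p'' hok1 (by simp [hp]) h3
    rw [h4]
    have := hw.rev
    rw [rev_rev] at this
    exact this.mono (by omega)
  rcases hP : D.P u.st with _ | s
  · rcases arc_cases hα with ⟨a, b, c, d, rfl, h6⟩ | ⟨a, b, rfl, h4⟩
    · by_cases ha : A.δ p.st a = A.fail
      · left
        obtain ⟨p'', hp''⟩ := arc_walk6 C C2 HN hp hok1 (e1 ▸ hP) (e1 ▸ hy) h6 ha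
        exact fromW p'' hp''
      by_cases hd : A.δ p'.st (inv d) = A.fail
      · left
        have h6' : [inv d, inv c, inv b, inv a, x, inv y] ∈ Rel6 := by
          rcases List.mem_append.1 hα' with h | h
          · simpa [rev] using h
          · have := len4 _ h
            simp [rev] at this
        obtain ⟨p'', hp''⟩ := arc_walk6 C C2 HN hp' hok2 (e2 ▸ hP) (e2 ▸ hx) h6' hd
        apply fromW' p''
        simpa [rev] using hp''
      · right
        refine ⟨a, b, c, d, rfl, ?_, ?_⟩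
        · exact C2.c8 p.st x y a b c d h6 (hs1 ▸ hu) (hs1 ▸ hy) (hs1 ▸ hP) ha
        · have h6' : [inv d, inv c, inv b, inv a, x, inv y] ∈ Rel6 := by
            rcases List.mem_append.1 hα' with h | h
            · simpa [rev] using h
            · have := len4 _ h
              simp [rev] at this
          exact C2.c8 p'.st y x _ _ _ _ h6' (hs2 ▸ hu) (hs2 ▸ hx) (hs2 ▸ hP) hd
    · left
      have ha := C2.av3 p.st x y (hs1 ▸ hu) (hs1 ▸ hP) (hs1 ▸ hy) a b h4
      obtain ⟨p'', hp''⟩ := arc_walk4 C HN (b := b) hp hok1 ha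
      exact fromW p'' hp''
  · obtain ⟨ν, hν, hνp⟩ := hF x p s hp hok1 (e1 ▸ hP)
    have l1 := P_letter C C2 hu hP hy
    have l2 := P_letter C C2 hu hP hx
    have hνp' : ν (nb s y.1) = p' := by
      have m := hν.mv s y.1
      rw [hν.top, l1, ← e1] at m
      have m2 : Mv (inv y) u p' := by
        refine ⟨hu, V.ok_of_up C (x := y) hok2, Or.inr ?_⟩
        rw [inv_inv]; exact e2
      have hle : u.lev ≤ N + 1 := by rw [e1]; simp [hp]
      exact H.det (step_c C C2 HN hF) C hle m m2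
    rcases arc_cases hα with ⟨a, b, c, d, rfl, h6⟩ | ⟨a, b, rfl, h4⟩
    · by_cases hw : wlk (nb s x.1) [a, b, c, d] = some (nb s y.1)
      · left
        have := hν.wk hw
        rwa [hνp, hνp'] at this
      · right
        refine ⟨a, b, c, d, rfl, ?_, ?_⟩
        · exact C2.c8P p.st x y a b c d h6 (hs1 ▸ hu) (hs1 ▸ hy) s (hs1 ▸ hP) hw
        · have h6' : [inv d, inv c, inv b, inv a, x, inv y] ∈ Rel6 := by
            rcases List.mem_append.1 hα' with h | h
            · simpa [rev] using h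
            · have := len4 _ h
              simp [rev] at this
          refine C2.c8P p'.st y x _ _ _ _ h6' (hs2 ▸ hu) (hs2 ▸ hx) s (hs2 ▸ hP) ?_
          intro hw'
          apply hw
          have := wlk_rev hw'
          simpa [rev] using this
    · left
      have := sq_path s _ h4 a rfl b rfl y rfl (inv x) rfl l1 (by
        rw [show (inv x).1 = x.1 from rfl]; exact l2)
      have := hν.wk this
      rw [show (inv x).1 = x.1 from rfl, hνp, hνp'] at this
      exact this

/-- a relator walk with an interior top closes -/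
theorem interior {β γ : List X} {x z : X} (hr : β ++ x :: z :: γ ∈ Rels) {u0 p u p' w : V A}
    (h1 : Wk (N + 1) u0 β p) (h2 : Mv x p u) (h3 : Mv z u p') (h4 : Wk (N + 1) p' γ w)
    (hu : u.lev = N + 1) : u0 = w := by
  have hpl : p.lev = N := by
    have := h1.end_ok.2
    rcases h2.lev with h | h <;> omega
  have hpl' : p'.lev = N := by
    have := h4.start_le
    rcases h3.lev with h | h <;> omega
  have e1 : u = p.up x := h2.eq_up_of_lev (by omega)
  have e2 : u = p'.up (inv z) := h3.eq_down_of_lev (by omega)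
  have hα : (rev β ++ rev γ) ++ [inv z, inv x] ∈ Rels := by
    have := memR_rot β (x :: z :: γ) hr
    have := memR_rev _ this
    simpa [rev] using this
  have hc := step_c C C2 HN hF
  rcases corner C C2 HN hF h2.2.1 hpl e1 e2 hα with hw | ⟨a, b, c, d, hab, hd1, hd2⟩
  · obtain ⟨m, hm1, hm2⟩ := hw.split
    have a1 := H.detW hc C hm1 h1.rev
    have a2 := H.detW hc C (hm2.rev) (by rw [rev_rev]; exact h4)
    rw [← a1, a2]
  · exfalso
    -- either β or γ has length at least two
    have hlen : β.length + γ.length = 4 := by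
      have := congrArg List.length hab
      simpa [rev] using this
    by_cases hβ : 2 ≤ β.length
    · have hrev := h1.rev
      have : ∃ t, rev β = a :: b :: t := by
        have hl : 2 ≤ (rev β).length := by simpa [rev] using hβ
        rcases hh : rev β with _ | ⟨a', _ | ⟨b', t⟩⟩
        · rw [hh] at hl; simp at hl
        · rw [hh] at hl; simp at hl
        · rw [hh] at hab
          simp only [List.cons_append, List.cons.injEq] at hab
          exact ⟨t, by rw [hab.1, hab.2.1]⟩
      obtain ⟨t, ht⟩ := this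
      rw [ht] at hrev
      obtain ⟨_, q1, m1, _, q2, m2, hq⟩ := hrev
      have ha : A.δ p.st a ≠ A.fail := fun h => hd1 (by rw [h, C.absorb])
      have f1 := m1.up_eq C ha
      have f2 := m2.up_eq C (by rw [f1, V.st_up C]; exact hd1)
      have := hq.start_le
      rw [f2, f1] at this
      simp at this
      omega
    · have hγ : 2 ≤ γ.length := by omega
      have : ∃ t, γ = inv d :: inv c :: t := by
        have hrevγ : rev (rev β ++ rev γ) = [inv d, inv c, inv b, inv a] := by
          rw [hab]; simp [rev]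
        rw [rev_append, rev_rev, rev_rev] at hrevγ
        rcases γ with _ | ⟨a', _ | ⟨b', t⟩⟩
        · simp at hγ
        · simp at hγ
        · simp only [List.cons_append, List.cons.injEq] at hrevγ
          exact ⟨t, by rw [hrevγ.1, hrevγ.2.1]⟩
      obtain ⟨t, ht⟩ := this
      rw [ht] at h4
      obtain ⟨_, q1, m1, _, q2, m2, hq⟩ := h4
      have ha : A.δ p'.st (inv d) ≠ A.fail := fun h => hd2 (by rw [h, C.absorb])
      have f1 := m1.up_eq C ha
      have f2 := m2.up_eq C (by rw [f1, V.st_up C]; exact hd2)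
      have := hq.start_le
      rw [f2, f1] at this
      simp at this
      omega

/-- interior of a walk -/
theorem walk_cases {ρ : List X} {r₁ rl : X} (hr : (r₁ :: ρ) ++ [rl] ∈ Rels) {u0 u1 : V A}
    (h1 : Mv r₁ u0 u1) :
    ∀ (β γ : List X) (p w : V A), ρ = β ++ γ → Wk (N + 1) u0 (r₁ :: β) p →
    Wk (N + 1) p (γ ++ [rl]) w → Wk N u1 β p → p.lev ≤ N →
    u0 = w ∨ ∃ q, Wk N u1 ρ q ∧ Mv rl q w := by
  intro β γ
  induction γ generalizing β with
  | nil =>
    intro p w hρ hw1 hw2 hw3 hp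
    right
    rw [List.append_nil] at hρ
    subst hρ
    obtain ⟨_, w', hm, hw', _⟩ := hw2
    exact ⟨p, hw3, hw' ▸ hm⟩
  | cons z γ ih =>
    intro p w hρ hw1 hw2 hw3 hp
    obtain ⟨_, u, hm, hu⟩ := hw2
    by_cases hul : u.lev = N + 1
    · left
      rcases γ with _ | ⟨z', γ'⟩
      · obtain ⟨_, w', hm', hw', hw''⟩ := hu
        subst hw'
        refine interior C C2 HN hF (β := r₁ :: β) (x := z) (z := rl) (γ := []) ?_ hw1 hm hm'
          ⟨rfl, hm'.2.1, hw''.2⟩ hul
        rw [hρ] at hr; simpa using hr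
      · obtain ⟨_, w', hm', hw'⟩ := hu
        refine interior C C2 HN hF (β := r₁ :: β) (x := z) (z := z') (γ := γ' ++ [rl]) ?_ hw1 hm hm'
          hw' hul
        rw [hρ] at hr; simpa using hr
    · have hul' : u.lev ≤ N := by have := hu.start_le; omega
      refine ih (β ++ [z]) u w (by simpa using hρ) ?_ hu (hw3.append (Wk.single hm hp hul')) hul'
      have := hw1.append (Wk.single hm (by omega) (by omega))
      simpa using this

theorem step_d_aux {ρ : List X} {r₁ rl : X} (hr : (r₁ :: ρ) ++ [rl] ∈ Rels) {u0 w : V A}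
    (hw : Wk (N + 1) u0 ((r₁ :: ρ) ++ [rl]) w) (h0 : u0.lev = N + 1) : u0 = w := by
  obtain ⟨_, u1, hm, hu⟩ := hw
  have hl1 : u1.lev = N := by
    have := (Wk.start_le (n := N + 1) hu)
    rcases hm.lev with h | h <;> omega
  rcases walk_cases C C2 HN hF hr hm [] ρ u1 w rfl
    ⟨by omega, u1, hm, rfl, hm.2.1, by omega⟩ hu ⟨rfl, hm.2.1, by omega⟩ (by omega) with h | ⟨q, hq, hq2⟩
  · exact h
  · have e0 : u0 = u1.up (inv r₁) := hm.eq_down_of_lev (by omega)
    have hα : ρ ++ [rl, inv (inv r₁)] ∈ Rels := by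
      rw [inv_inv]
      have := memR_rot [r₁] (ρ ++ [rl]) (by simpa using hr)
      simpa using this
    have h3 := Lk_eq C hl1 (e0 ▸ hm.1) hα hq
    rw [← e0] at h3
    rw [h3]
    have hok : (q.up rl).ok := h3 ▸ hm.1
    exact (hq2.up_eq C ((V.up_ok_iff C).1 hok)).symm

theorem step_d : ∀ r ∈ Rels, ∀ v w : V A, Wk (N + 1) v r w → v = w := by
  intro r hr v w hw
  have hform : ∃ r₁ ρ rl, r = (r₁ :: ρ) ++ [rl] := by
    rcases lenR r hr with ⟨_, h⟩ | ⟨_, h⟩ <;>
    · rcases r with _ | ⟨r₁, r'⟩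
      · simp at h
      · have hne : r' ≠ [] := by rintro rfl; simp at h
        exact ⟨r₁, r'.dropLast, r'.getLast hne, by
          rw [List.cons_append, List.dropLast_append_getLast]⟩
  obtain ⟨r₁, ρ, rl, rfl⟩ := hform
  by_cases h0 : v.lev = N + 1
  · exact step_d_aux C C2 HN hF hr hw h0
  by_cases h1 : w.lev = N + 1
  · have hr' := memR_rev _ hr
    have hw' := hw.rev
    have e : rev ((r₁ :: ρ) ++ [rl]) = (inv rl :: rev ρ) ++ [inv r₁] := by
      simp [rev]
    rw [e] at hr' hw'
    exact (step_d_aux C C2 HN hF hr' hw' h1).symm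
  · have hv := hw.start_le
    have hwl := hw.end_ok.2
    obtain ⟨_, u1, hm, hu⟩ := hw
    by_cases hu1 : u1.lev = N + 1
    · -- interior top at the first interior vertex
      rcases ρ with _ | ⟨z, ρ'⟩
      · obtain ⟨_, w', hm', hw', hw''⟩ := hu
        subst hw'
        exact interior C C2 HN hF (β := []) (x := r₁) (z := rl) (γ := []) (by simpa using hr)
          ⟨rfl, hm.1, hv⟩ hm hm' ⟨rfl, hm'.2.1, hw''.2⟩ hu1
      · obtain ⟨_, w', hm', hw'⟩ := hu
        exact interior C C2 HN hF (β := []) (x := r₁) (z := z) (γ := ρ' ++ [rl])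
          (by simpa using hr) ⟨rfl, hm.1, hv⟩ hm hm' hw' hu1
    · have hu1' : u1.lev ≤ N := by have := hu.start_le; omega
      rcases walk_cases C C2 HN hF hr hm [] ρ u1 w rfl
        ⟨by omega, u1, hm, rfl, hm.2.1, by omega⟩ hu ⟨rfl, hm.2.1, by omega⟩ (by omega) with
        h | ⟨q, hq, hq2⟩
      · exact h
      · apply HN.d _ hr v w
        have hwN : w.lev ≤ N := by omega
        have : Wk N v (r₁ :: ρ) q := ⟨by omega, u1, hm, hq⟩
        exact this.append (Wk.single hq2 hq.end_ok.2 hwN)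

theorem step : H A (N + 1) :=
  ⟨step_b C C2 HN hF, step_c C C2 HN hF, step_d C C2 HN hF⟩

end step

theorem H_zero (C : Cert1 A) : H A 0 := by
  refine ⟨?_, ?_, ?_⟩
  · intro v _ hl y hy
    exfalso
    obtain ⟨c, rfl⟩ := v.ex
    have : c = [] := by simpa using hl
    subst this
    rw [V.st_mk C] at hy
    exact C.start (inv y) hy
  · intro y p p' _ hl
    simp at hl
  · intro r hr v w hw
    exfalso
    have h0 : r ≠ [] := by
      rintro rfl
      rcases lenR _ hr with ⟨_, h⟩ | ⟨_, h⟩ <;> simp at h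
    match r, h0, hw with
    | x :: r', _, hw =>
      obtain ⟨h1, u, hm, hu⟩ := hw
      have h2 := hu.start_le
      rcases hm.lev with h | h <;> omega

end Run7.h160
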